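import Pool.Agent.Lib.MP_f3b2fd_co.KEP.U.St

/-! Bounds for single angles of spherical triangles with small circumradius. -/

set_option autoImplicit false

namespace Pool.Agent.Lib.MP_f3b2fd_co.KU

open Real KEP

namespace Ang

theorem up {n G c : ℝ} (hG : 0 < G) (hc : 0 ≤ c) (h : n ^ 2 ≤ c ^ 2 * G) :
    arctan (n / √G) ≤ arctan c := by
  refine arctan_strictMono.monotone ((div_le_iff₀ (sqrt_pos.2 hG)).2 ?_)
  refine abs_le_of_sq_le_sq' ?_ (by positivity) |>.2
  rwa [mul_pow, sq_sqrt hG.le]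

theorem lo {n G c : ℝ} (hG : 0 < G) (hn : 0 ≤ n) (h : c ^ 2 * G ≤ n ^ 2) :
    arctan c ≤ arctan (n / √G) := by
  refine arctan_strictMono.monotone ((le_div_iff₀ (sqrt_pos.2 hG)).2 ?_)
  refine abs_le_of_sq_le_sq' ?_ hn |>.2
  rwa [mul_pow, sq_sqrt hG.le]

theorem t1 : (7 / 100 : ℝ) ≤ arctan (1 / 10) := by
  refine le_trans ?_ (KA.Const.atan_lo (by norm_num) (by norm_num) 1)
  norm_num [Finset.sum_range_succ]

theorem t2 : arctan (629 / 1000) ≤ (629 / 1000 : ℝ) := by
  refine le_trans (KA.Const.atan_hi (by norm_num) (by norm_num) 0) ?_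
  norm_num [Finset.sum_range_succ]

theorem t3 : arctan (9 / 10) ≤ (75 / 100 : ℝ) := by
  refine le_trans (KA.Const.atan_hi (by norm_num) (by norm_num) 2) ?_
  norm_num [Finset.sum_range_succ]

theorem t4 : (48 / 100 : ℝ) ≤ arctan (55 / 100) := by
  refine le_trans ?_ (KA.Const.atan_lo (by norm_num) (by norm_num) 1)
  norm_num [Finset.sum_range_succ]

theorem t5 : arctan (67 / 100) ≤ (6 / 10 : ℝ) := by
  refine le_trans (KA.Const.atan_hi (by norm_num) (by norm_num) 1) ?_
  norm_num [Finset.sum_range_succ]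

theorem rot {p q r : ℝ} (h : Rad p q r) : Rad q r p := by
  refine ⟨(gram_rot p q r).symm ▸ h.1, ?_⟩
  rw [gram_rot p q r, show cof q r p = cof p q r by unfold cof; ring]
  exact h.2

/-- no side is much longer than a right angle. -/
theorem box {p q r : ℝ} (h : Rad p q r) (hq : q < 1) (hr : r < 1) : -(87 / 512) < p := by
  have k := h.2
  have m : 0 < (1 - q) * (1 - r) := mul_pos (by linarith) (by linarith)
  unfold cof gram at k
  by_contra hn
  have := mul_nonneg (show 0 ≤ -(87 / 512) - p by linarith) m.le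
  nlinarith [sq_nonneg (1 + p - q - r)]

theorem one {x : ℝ} (h : Rad (1 / 2) (1 / 2) x) : -(87 / 599) < x := by
  have k := h.2
  unfold cof gram at k
  by_contra hn
  nlinarith [mul_nonneg (show 0 ≤ -(87 / 599) - x by linarith) (show 0 ≤ 1 - x by linarith)]

theorem big {p q r : ℝ} (hG : 0 < gram p q r) (hp : 3 / 4 ≤ 1 - p ^ 2) (hq : 97 / 100 ≤ 1 - q ^ 2)
    (h : (r - p * q) ^ 2 ≤ 1 / 5 ∨ 97 / 100 ≤ 1 - p ^ 2 ∧ (r - p * q) ^ 2 ≤ 28 / 100) :
    97 / 100 ≤ ang p q r := by
  have := up (n := r - p * q) (c := 67 / 100) hG (by norm_num) (by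
    rw [gram_eq]
    rcases h with h | ⟨h1, h⟩
    · have := mul_le_mul hp hq (by norm_num) (by linarith)
      linarith
    · have := mul_le_mul h1 hq (by norm_num) (by linarith)
      linarith)
  unfold ang
  linarith [t5, pi_gt_d6]

theorem sq {x : ℝ} (h1 : -(87 / 512) < x) (h2 : x < 87 / 512) : 97 / 100 ≤ 1 - x ^ 2 := by
  nlinarith

theorem pr {x y : ℝ} (h1 : -(87 / 512) < x) (h2 : x < 87 / 512) (h3 : -(87 / 512) < y)
    (h4 : y < 87 / 512) : -(29 / 1000) ≤ x * y ∧ x * y ≤ 29 / 1000 := by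
  constructor <;> nlinarith

end Ang

open Ang in
theorem angS : AngS where
  a0 := by
    rw [ang, show gram (1 / 2) (1 / 2) (1 / 2) = 2 / 2 ^ 2 by norm_num [gram], KA.th0,
      ← KA.Const.e8, sqrt_div (by norm_num), sqrt_sq (by norm_num)]
    congr 2
    field_simp
    norm_num
  a1 := fun x h1 h => by
    have h2 := one h
    have k1 := lo (n := 1 / 2 * (1 / 2) - x) (c := 1 / 10) h.1 (by linarith) (by
      unfold gram
      nlinarith)
    have k2 := up (n := 1 / 2 * (1 / 2) - x) (c := 629 / 1000) h.1 (by norm_num) (by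
      unfold gram
      nlinarith)
    rw [ang, ← neg_sub (1 / 2 * (1 / 2)), neg_div, arctan_neg]
    constructor <;> linarith [t1, t2, pi_gt_d6, pi_lt_d6]
  b1 := fun x h1 h => by
    have h2 := one h
    have g : 0 < gram (1 / 2) x (1 / 2) := (rot h).1
    have k1 := lo (n := 1 / 2 - 1 / 2 * x) (c := 55 / 100) g (by linarith) (by
      unfold gram
      nlinarith)
    have k2 := up (n := 1 / 2 - 1 / 2 * x) (c := 9 / 10) g (by norm_num) (by
      unfold gram
      nlinarith)
    rw [ang]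
    constructor <;> linarith [t3, t4, pi_gt_d6, pi_lt_d6]
  b2 := fun q r h1 h2 h => by
    have k1 := box (rot h) (by linarith) (by norm_num)
    have k2 := box (rot (rot h)) (by norm_num) (by linarith)
    exact le_trans (by norm_num) (big h.1 (by norm_num) (sq k1 h1) (Or.inl (by nlinarith)))
  c2 := fun q r h1 h2 h => by
    have k1 := box (rot h) (by linarith) (by norm_num)
    have k2 := box (rot (rot h)) (by norm_num) (by linarith)
    obtain ⟨k3, k4⟩ := pr k1 h1 k2 h2
    exact big (rot h).1 (by linarith [sq k1 h1]) (sq k2 h2) (Or.inr ⟨sq k1 h1, by nlinarith⟩)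
  c3 := fun p q r h0 h1 h2 h => by
    have k0 := box h (by linarith) (by linarith)
    have k1 := box (rot h) (by linarith) (by linarith)
    have k2 := box (rot (rot h)) (by linarith) (by linarith)
    obtain ⟨k3, k4⟩ := pr k0 h0 k1 h1
    exact big h.1 (by linarith [sq k0 h0]) (sq k1 h1) (Or.inl (by nlinarith))

end Pool.Agent.Lib.MP_f3b2fd_co.KU
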