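import Pool.Agent.Lib.MP_f3b2fd_co.KEP.U.St

/-! Bounds for the angle sums of spherical triangles with small circumradius. -/

set_option autoImplicit false

namespace Pool.Agent.Lib.MP_f3b2fd_co.KU

open Real KEP

namespace Area

theorem sm_eq {p q r : ℝ} (h : 0 < gram p q r) (hp : p < 1) (hq : q < 1) (hr : r < 1)
    (hS : 0 < 1 + p + q + r) : sm p q r = π + 2 * arctan (√(gram p q r) / (1 + p + q + r)) := by
  have hD := sqrt_pos.2 h
  have hs := sq_sqrt h.le
  have hpq : 0 < (1 + p) * (1 + q) := by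
    have h1 : 0 < (1 - p) * (1 - q) * ((1 + p) * (1 + q)) := by
      have := gram_eq p q r
      nlinarith [sq_nonneg (r - p * q)]
    exact (pos_iff_pos_of_mul_pos h1).1 (mul_pos (by linarith) (by linarith))
  have h2 : 0 < gram q r p := by rwa [gram_rot]
  have h3 : 0 < gram r p q := by rwa [← gram_rot]
  have e1 := ang_eq_phi h hr
  have e2 := ang_eq_phi h2 hp
  have e3 := ang_eq_phi h3 hq
  have e4 : KEP.phi r p q = arctan ((r - p * q) / √(gram p q r)) +
      arctan (√(gram p q r) / (1 + p + q + r)) := by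
    have hlt : (r - p * q) / √(gram p q r) * (√(gram p q r) / (1 + p + q + r)) < 1 := by
      rw [div_mul_div_cancel₀ hD.ne', div_lt_one hS]
      nlinarith
    rw [arctan_add hlt, KEP.phi, ← gram_rot r p q, div_mul_div_cancel₀ hD.ne']
    congr 1
    have h5 : 1 - (r - p * q) / (1 + p + q + r) = (1 + p) * (1 + q) / (1 + p + q + r) := by
      field_simp
      ring
    rw [h5]
    have h6 : 1 + p ≠ 0 := left_ne_zero_of_mul hpq.ne'
    have h7 : 1 + q ≠ 0 := right_ne_zero_of_mul hpq.ne'
    field_simp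
    rw [hs, gram]
    ring
  have e5 : ang p q r = π / 2 - arctan ((r - p * q) / √(gram p q r)) := rfl
  unfold sm
  rw [phi_comm q p r] at e1
  rw [phi_comm r q p] at e2
  rw [phi_comm p r q] at e3
  linarith

theorem gram_lo {p q r : ℝ} (h : Rad p q r) :
    850 * ((1 - p) * (1 - q) * (1 - r)) < 599 * gram p q r := by
  have h1 : cof p q r = gram p q r + 2 * ((1 - p) * (1 - q) * (1 - r)) := by
    unfold cof gram
    ring
  have h2 := h.2
  rw [h1] at h2
  linarith

theorem side {p q r : ℝ} (h : 850 * ((1 - p) * (1 - q) * (1 - r)) < 599 * gram p q r)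
    (hp : p < 1) (hq : q < 1) : -87 / 512 < r := by
  have h1 : gram p q r = 4 * ((1 - p) * (1 - q)) - ((1 - p) + (1 - q) - (1 - r)) ^ 2 -
      2 * ((1 - p) * (1 - q) * (1 - r)) := by
    unfold gram
    ring
  have h2 : 0 < (1 - p) * (1 - q) := mul_pos (by linarith) (by linarith)
  by_contra h3
  have h4 : (1 - p) * (1 - q) * (599 / 512) ≤ (1 - p) * (1 - q) * (1 - r) :=
    mul_le_mul_of_nonneg_left (by linarith) h2.le
  nlinarith [sq_nonneg ((1 - p) + (1 - q) - (1 - r))]

theorem S_pos {p q r : ℝ} (h : Rad p q r) (hp : p < 1) (hq : q < 1) (hr : r < 1) :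
    0 < 1 + p + q + r := by
  have h0 := gram_lo h
  have h1 := side h0 hp hq
  have h2 : -87 / 512 < p := side (p := q) (q := r) (by rw [gram_rot]; linarith) hq hr
  have h3 : -87 / 512 < q := side (p := r) (q := p) (by rw [← gram_rot]; linarith) hr hp
  linarith

theorem sm_lo {p q r c : ℝ} (h : Rad p q r) (hp : p < 1) (hq : q < 1) (hr : r < 1) (c0 : 0 ≤ c)
    (c1 : c < 1) (hc : (c * (1 + p + q + r)) ^ 2 ≤ gram p q r) :
    π + 2 * (c - c ^ 3 / 3 + c ^ 5 / 5 - c ^ 7 / 7) ≤ sm p q r := by
  have hS := S_pos h hp hq hr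
  rw [sm_eq h.1 hp hq hr hS]
  have h1 : arctan c ≤ arctan (√(gram p q r) / (1 + p + q + r)) := by
    apply arctan_strictMono.monotone
    rw [le_div_iff₀ hS]
    exact le_sqrt_of_sq_le hc
  have h2 := KA.Const.atan_lo c0 c1 2
  simp only [Finset.sum_range_succ, Finset.sum_range_zero] at h2
  norm_num at h2
  linarith

theorem one_eq {x : ℝ} (hx : x < 87 / 512) (h : Rad (1 / 2) (1 / 2) x) :
    sm (1 / 2) (1 / 2) x = π + 2 * arctan √(gram (1 / 2) (1 / 2) x / (2 + x) ^ 2) ∧
      2 * π - 2 * KA.th0 = π + 2 * arctan √(1 / 8) ∧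
      gram (1 / 2) (1 / 2) x / (2 + x) ^ 2 = 1 / 8 - 9 / 8 * (x / (2 + x)) ^ 2 ∧ 0 < 2 + x := by
  have hS := S_pos h (by norm_num) (by norm_num) (by linarith)
  have h2 : 0 < 2 + x := by linarith
  refine ⟨?_, ?_, ?_, h2⟩
  · rw [sm_eq h.1 (by norm_num) (by norm_num) (by linarith) hS, sqrt_div h.1.le, sqrt_sq h2.le]
    congr 3
    ring
  · rw [KA.th0, sqrt_div zero_le_one, sqrt_one]
    ring
  · unfold gram
    field_simp
    ring

end Area

open Area

theorem areaS : AreaS where
  t1 x hx h := by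
    have h0 := gram_lo h
    have e : gram (1 / 2) (1 / 2) x = (1 - x) * (x + 1 / 2) := by unfold gram; ring
    have h1 : -87 / 599 < x := by
      by_contra h2
      rw [e] at h0
      nlinarith
    have h2 := sm_lo (c := 3435 / 10000) h (by norm_num) (by norm_num) (by linarith) (by norm_num)
      (by norm_num) (by rw [e]; nlinarith)
    linarith [KA.th0_hi, pi_gt_d6]
  m1 x hx h := by
    obtain ⟨h1, h2, h3, -⟩ := one_eq hx h
    have h4 : arctan √(gram (1 / 2) (1 / 2) x / (2 + x) ^ 2) ≤ arctan √(1 / 8) :=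
      arctan_strictMono.monotone (sqrt_le_sqrt (by rw [h3]; nlinarith [sq_nonneg (x / (2 + x))]))
    linarith
  e1 x hx h he := by
    obtain ⟨h1, h2, h3, h4⟩ := one_eq hx h
    have h5 : arctan √(gram (1 / 2) (1 / 2) x / (2 + x) ^ 2) = arctan √(1 / 8) := by linarith
    have h6 := (sqrt_inj (div_nonneg h.1.le (sq_nonneg _)) (by norm_num)).1 (arctan_injective h5)
    have h7 : (x / (2 + x)) ^ 2 = 0 := by linarith
    rcases div_eq_zero_iff.1 (pow_eq_zero_iff two_ne_zero |>.1 h7) with h8 | h8
    · exact h8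
    · exact absurd h8 h4.ne'
  t2 q r hq hr h := by
    have h0 := gram_lo h
    have hS := S_pos h (by norm_num) (by linarith) (by linarith)
    have h2 := sm_lo (c := 41 / 100) h (by norm_num) (by linarith) (by linarith) (by norm_num)
      (by norm_num) (by
        have h3 := mul_pos (sub_pos.2 hq) (sub_pos.2 hr)
        rcases le_total (q + r) (1 / 5) with h4 | h4
        · have h5 : (41 / 100 * (1 + 1 / 2 + q + r)) ^ 2 ≤ (41 / 100 * (17 / 10)) ^ 2 :=
            pow_le_pow_left₀ (by positivity) (by linarith) 2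
          nlinarith
        · have h5 : (41 / 100 * (1 + 1 / 2 + q + r)) ^ 2 ≤ (41 / 100 * (184 / 100)) ^ 2 :=
            pow_le_pow_left₀ (by positivity) (by linarith) 2
          have h6 : q ^ 2 ≤ (17 / 100) ^ 2 := pow_le_pow_left₀ (by linarith) (by linarith) 2
          have h7 : r ^ 2 ≤ (17 / 100) ^ 2 := pow_le_pow_left₀ (by linarith) (by linarith) 2
          have h8 : 0 ≤ q * r := mul_nonneg (by linarith) (by linarith)
          unfold gram
          nlinarith)
    linarith [KA.th0_hi, pi_gt_d6]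
  t3 p q r hp hq hr h := by
    have h0 := gram_lo h
    have hS := S_pos h (by linarith) (by linarith) (by linarith)
    have h2 := sm_lo (c := 48 / 100) h (by linarith) (by linarith) (by linarith) (by norm_num)
      (by norm_num) (by
        have h3 : (83 / 100 : ℝ) * (83 / 100) * (83 / 100) ≤ (1 - p) * (1 - q) * (1 - r) :=
          mul_le_mul (mul_le_mul (by linarith) (by linarith) (by norm_num) (by linarith))
            (by linarith) (by norm_num) (mul_nonneg (by linarith) (by linarith))
        have h5 : (48 / 100 * (1 + p + q + r)) ^ 2 ≤ (48 / 100 * (151 / 100)) ^ 2 :=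
          pow_le_pow_left₀ (by positivity) (by linarith) 2
        linarith)
    linarith [KA.th0_hi, pi_gt_d6]

end Pool.Agent.Lib.MP_f3b2fd_co.KU
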