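import Pool.Agent.Lib.MP_f3b2fd_co.KEP.U.St

/-! A pattern that contains a hexagon has a triangle on each side of it. -/

set_option autoImplicit false

namespace Pool.Agent.Lib.MP_f3b2fd_co.KU

open MeasureTheory Set Real Metric KEP

namespace Cap

theorem inn (x y : E3) : inner ℝ x y = x 0 * y 0 + x 1 * y 1 + x 2 * y 2 := by
  simp only [PiLp.inner_apply, Fin.sum_univ_three, RCLike.inner_apply, conj_trivial]
  ring

/-- the normal vector is unique up to sign. -/
theorem pm {a b m n : E3} (h : Reg2 a b) (hm : Nrm a b m) (hn : Nrm a b n) :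
    n = m ∨ n = -m := by
  let D : E3 → ℝ := fun v => (a 1 * b 2 - a 2 * b 1) * v 0 + (a 2 * b 0 - a 0 * b 2) * v 1 +
    (a 0 * b 1 - a 1 * b 0) * v 2
  have k : ∀ v w : E3, Nrm a b v → D v * D w = 12 * inner ℝ v w := fun v w hv => by
    have e : D v * D w = (inner ℝ a a * inner ℝ b b - inner ℝ a b ^ 2) * inner ℝ v w -
        inner ℝ a v * (inner ℝ b b * inner ℝ a w - inner ℝ a b * inner ℝ b w) -
        inner ℝ b v * (inner ℝ a a * inner ℝ b w - inner ℝ a b * inner ℝ a w) := by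
      simp only [inn, D]
      ring
    rw [e, h.aa, h.bb, h.ab, hv.an, hv.bn]
    ring
  have k1 := k m m hm
  have k2 := k n n hn
  have k3 := k n m hn
  rw [hm.nn] at k1
  rw [hn.nn] at k2
  have k4 : (inner ℝ n m - 8 / 3) * (inner ℝ n m + 8 / 3) = (0 : ℝ) := by
    have : (D n * D m) ^ 2 = (D m * D m) * (D n * D n) := by ring
    rw [k1, k2, k3] at this
    linarith
  rcases mul_eq_zero.1 k4 with e | e
  · left
    rw [← sub_eq_zero, ← inner_self_eq_zero (𝕜 := ℝ), real_inner_sub_sub_self, hm.nn, hn.nn]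
    linarith
  · right
    rw [← add_eq_zero_iff_eq_neg, ← inner_self_eq_zero (𝕜 := ℝ), real_inner_add_add_self,
      hm.nn, hn.nn]
    linarith

/-- integer coordinates. -/
abbrev Z3 : Type := ℤ × ℤ × ℤ

/-- nine times the inner product. -/
def Q (p q : Z3) : ℤ := 4 * (p.1 * q.1 + p.2.1 * q.2.1 + p.2.2 * q.2.2) +
  2 * (p.1 * q.2.1 + p.2.1 * q.1 + p.1 * q.2.2 + p.2.2 * q.1 + p.2.1 * q.2.2 + p.2.2 * q.2.1)

/-- the vector with the given coordinates. -/
noncomputable def ph (a b c : E3) (p : Z3) : E3 :=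
  ((p.1 : ℝ) / 3) • a + ((p.2.1 : ℝ) / 3) • b + ((p.2.2 : ℝ) / 3) • c

variable {a0 b0 c0 : E3}

theorem ph_sub (p q : Z3) : ph a0 b0 c0 (p - q) = ph a0 b0 c0 p - ph a0 b0 c0 q := by
  simp only [ph, Prod.fst_sub, Prod.snd_sub, Int.cast_sub]
  module

theorem ph_add (p q : Z3) : ph a0 b0 c0 (p + q) = ph a0 b0 c0 p + ph a0 b0 c0 q := by
  simp only [ph, Prod.fst_add, Prod.snd_add, Int.cast_add]
  module

theorem ph_neg (p : Z3) : ph a0 b0 c0 (-p) = -ph a0 b0 c0 p := by
  simp only [ph, Prod.fst_neg, Prod.snd_neg, Int.cast_neg]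
  module

theorem ph_inner (h : Reg3 a0 b0 c0) (p q : Z3) :
    inner ℝ (ph a0 b0 c0 p) (ph a0 b0 c0 q) = (Q p q : ℝ) / 9 := by
  have ba : inner ℝ b0 a0 = (2 : ℝ) := by rw [real_inner_comm, h.ab]
  have ca : inner ℝ c0 a0 = (2 : ℝ) := by rw [real_inner_comm, h.ac]
  have cb : inner ℝ c0 b0 = (2 : ℝ) := by rw [real_inner_comm, h.bc]
  simp only [ph, Q, inner_add_left, inner_add_right, real_inner_smul_left, real_inner_smul_right,
    h.aa, h.bb, h.cc, h.ab, h.ac, h.bc, ba, ca, cb]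
  push_cast
  ring

theorem ph_inj (h : Reg3 a0 b0 c0) {p q : Z3} (e : ph a0 b0 c0 p = ph a0 b0 c0 q) : p = q := by
  have k := ph_inner h (p - q) (p - q)
  rw [ph_sub, e, sub_self, inner_zero_left] at k
  have k' : Q (p - q) (p - q) = 0 := by
    have : (Q (p - q) (p - q) : ℝ) = 0 := by linarith
    exact_mod_cast this
  rw [← sub_eq_zero]
  generalize p - q = d at k'
  obtain ⟨x, y, z⟩ := d
  simp only [Q] at k'
  have h1 : x + y = 0 := by nlinarith [sq_nonneg (x + y), sq_nonneg (y + z), sq_nonneg (z + x)]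
  have h2 : y + z = 0 := by nlinarith [sq_nonneg (x + y), sq_nonneg (y + z), sq_nonneg (z + x)]
  have h3 : z + x = 0 := by nlinarith [sq_nonneg (x + y), sq_nonneg (y + z), sq_nonneg (z + x)]
  simp only [Prod.mk_eq_zero]
  omega

/-- a triangle on top of the hexagon of `p, q`, in one of the two positions. -/
def Top (L : List Z3) (p q r : Z3) (e : Bool) : Prop :=
  r - (if e then p else -p) ∈ L ∧ r - (if e then q else -q) ∈ L

instance (L : List Z3) (p q r : Z3) (e : Bool) : Decidable (Top L p q r e) := by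
  unfold Top
  infer_instance

/-- the finite check. -/
def Chk (L : List Z3) : Prop := ∀ p ∈ L, ∀ q ∈ L, Q p q = 18 → q - p ∈ L → -p ∈ L → -q ∈ L →
  p - q ∈ L → ∃ r ∈ L, ∃ e : Bool, Top L p q r e ∧ Q r r = 36 ∧ Q p r = (if e then 18 else -18) ∧
    Q q r = (if e then 18 else -18) ∧ ∃ r' ∈ L, ∃ e' : Bool, Top L p q r' e' ∧
      r + r' + (r + r') + (r + r') = (if e then p + q else -(p + q)) +
        if e' then p + q else -(p + q)

theorem main (h : Reg3 a0 b0 c0) {L : List Z3} (hL : Chk L) {K : Set E3}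
    (hK : ∀ z, z ∈ K ↔ ∃ p ∈ L, ph a0 b0 c0 p = z) {a b n : E3} (hr : Reg2 a b)
    (hn : Nrm a b n) (hx : hex a b ⊆ K) : tri a b (n + (1 / 3 : ℝ) • (a + b)) ⊆ K ∨
    tri (-a) (-b) (n - (1 / 3 : ℝ) • (a + b)) ⊆ K := by
  obtain ⟨p, hp, rfl⟩ := (hK a).1 (hx (by simp [hex]))
  obtain ⟨q, hq, rfl⟩ := (hK b).1 (hx (by simp [hex]))
  have mem : ∀ s, ph a0 b0 c0 s ∈ K ↔ s ∈ L := fun s =>
    ⟨fun k => by
      obtain ⟨t, ht, e⟩ := (hK _).1 k
      exact ph_inj h e ▸ ht, fun k => (hK _).2 ⟨s, k, rfl⟩⟩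
  have e18 : Q p q = 18 := by
    have k := hr.ab
    rw [ph_inner h] at k
    have : (Q p q : ℝ) = 18 := by linarith
    exact_mod_cast this
  obtain ⟨r, r1, e, r2, r3, r4, r5, r', s1, e', s2, s3⟩ := hL p hp q hq e18
    ((mem _).1 (hx (by simp [hex, ph_sub]))) ((mem _).1 (hx (by simp [hex, ph_neg])))
    ((mem _).1 (hx (by simp [hex, ph_neg]))) ((mem _).1 (hx (by simp [hex, ph_sub])))
  have fin : ∀ r ∈ L, ∀ e : Bool, Top L p q r e → n = ph a0 b0 c0 r - (1 / 3 : ℝ) •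
      ph a0 b0 c0 (if e then p + q else -(p + q)) →
      tri (ph a0 b0 c0 p) (ph a0 b0 c0 q) (n + (1 / 3 : ℝ) • (ph a0 b0 c0 p + ph a0 b0 c0 q)) ⊆ K ∨
      tri (-ph a0 b0 c0 p) (-ph a0 b0 c0 q)
        (n - (1 / 3 : ℝ) • (ph a0 b0 c0 p + ph a0 b0 c0 q)) ⊆ K := by
    intro r r1 e r2 k
    have t1 := (mem _).2 r1
    have t2 := (mem _).2 r2.1
    have t3 := (mem _).2 r2.2
    cases e
    · right
      simp only [Bool.false_eq_true, if_false, ph_sub, ph_neg, ph_add] at k t2 t3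
      rw [k, smul_neg, sub_neg_eq_add, add_sub_cancel_right]
      rintro z (rfl | rfl | rfl) <;> assumption
    · left
      simp only [if_true, ph_sub, ph_add] at k t2 t3
      rw [k, sub_add_cancel]
      rintro z (rfl | rfl | rfl) <;> assumption
  have ba : inner ℝ (ph a0 b0 c0 q) (ph a0 b0 c0 p) = (2 : ℝ) := by rw [real_inner_comm, hr.ab]
  have hm : Nrm (ph a0 b0 c0 p) (ph a0 b0 c0 q) (ph a0 b0 c0 r - (1 / 3 : ℝ) •
      ph a0 b0 c0 (if e then p + q else -(p + q))) := by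
    have u1 := ph_inner h p r
    have u2 := ph_inner h q r
    have u3 := ph_inner h r r
    have u4 := real_inner_comm (ph a0 b0 c0 p) (ph a0 b0 c0 r)
    have u5 := real_inner_comm (ph a0 b0 c0 q) (ph a0 b0 c0 r)
    rw [r4] at u1
    rw [r5] at u2
    rw [r3] at u3
    rw [u1] at u4
    rw [u2] at u5
    cases e <;> refine ⟨?_, ?_, ?_⟩ <;>
      simp only [Bool.false_eq_true, if_false, if_true, ph_neg, ph_add, inner_sub_left,
        inner_sub_right, inner_add_left, inner_add_right, inner_neg_left, inner_neg_right,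
        real_inner_smul_left, real_inner_smul_right, hr.aa, hr.bb, hr.ab, ba, u1, u2, u3, u4,
        u5] <;> norm_num
  rcases pm hr hm hn with k | k
  · exact fin r r1 e r2 k
  · refine fin r' s1 e' s2 ?_
    have := congrArg (ph a0 b0 c0) s3
    simp only [ph_add] at this
    rw [k]
    linear_combination (norm := module) (-1 / 3 : ℝ) • this

/-- the hexagon and the upper triangle. -/
def L0 : List Z3 := [(3, 0, 0), (0, 3, 0), (-3, 3, 0), (-3, 0, 0), (0, -3, 0), (3, -3, 0),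
  (0, 0, 3), (-3, 0, 3), (0, -3, 3)]

/-- the cubic pattern. -/
def LF : List Z3 := L0 ++ [(0, 0, -3), (3, 0, -3), (0, 3, -3)]

/-- the hexagonal pattern. -/
def LH : List Z3 := L0 ++ [(2, 2, -3), (-1, 2, -3), (2, -1, -3)]

theorem chkF : Chk LF := by
  unfold Chk
  decide +kernel

theorem chkH : Chk LH := by
  unfold Chk
  decide +kernel

theorem mapF : LF.map (ph a0 b0 c0) = [a0, b0, b0 - a0, -a0, -b0, a0 - b0, c0, c0 - a0, c0 - b0,
    -c0, a0 - c0, b0 - c0] := by
  simp only [LF, L0, List.cons_append, List.nil_append, List.map_cons, List.map_nil, ph,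
    List.cons.injEq, and_true]
  push_cast
  refine ⟨?_, ?_, ?_, ?_, ?_, ?_, ?_, ?_, ?_, ?_, ?_, ?_⟩ <;> module

theorem mapH : LH.map (ph a0 b0 c0) = [a0, b0, b0 - a0, -a0, -b0, a0 - b0, c0, c0 - a0, c0 - b0,
    (2 / 3 : ℝ) • (a0 + b0) - c0, (2 / 3 : ℝ) • (a0 + b0) - c0 - a0,
    (2 / 3 : ℝ) • (a0 + b0) - c0 - b0] := by
  simp only [LH, L0, List.cons_append, List.nil_append, List.map_cons, List.map_nil, ph,
    List.cons.injEq, and_true]
  push_cast
  refine ⟨?_, ?_, ?_, ?_, ?_, ?_, ?_, ?_, ?_, ?_, ?_, ?_⟩ <;> module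

end Cap

theorem capS : CapS := by
  rintro K a b n (⟨a0, b0, c0, h, rfl⟩ | ⟨a0, b0, c0, h, rfl⟩) hr hn hx
  · refine Cap.main h Cap.chkF (fun z => ?_) hr hn hx
    rw [← List.mem_map, Cap.mapF]
    simp only [hex, tri, mem_union, mem_insert_iff, mem_singleton_iff, List.mem_cons,
      List.not_mem_nil, or_false, or_assoc]
  · refine Cap.main h Cap.chkH (fun z => ?_) hr hn hx
    rw [← List.mem_map, Cap.mapH]
    simp only [hex, tri, mem_union, mem_insert_iff, mem_singleton_iff, List.mem_cons,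
      List.not_mem_nil, or_false, or_assoc]

end Pool.Agent.Lib.MP_f3b2fd_co.KU
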