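import Pool.Agent.Lib.MP_f3b2fd_co.KEP.U.St
import Pool.Agent.Lib.MP_f3b2fd_co.KEP.B.Hodge

/-! Every vertex of the triangulation has four short edges. -/

set_option autoImplicit false

namespace Pool.Agent.Lib.MP_f3b2fd_co.KU

open Real KEP

namespace Four

theorem rad_rot {p q r : ℝ} (h : Rad p q r) : Rad q r p := by
  obtain ⟨h1, h2⟩ := h
  unfold gram cof at *
  constructor
  · unfold gram; linarith
  · unfold gram cof; linarith

theorem rad_swap {p q r : ℝ} (h : Rad p q r) : Rad q p r := by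
  obtain ⟨h1, h2⟩ := h
  unfold gram cof at *
  constructor
  · unfold gram; linarith
  · unfold gram cof; linarith

theorem sm_rot (p q r : ℝ) : sm q r p = sm p q r := by unfold sm; ring

/-- indicator of a short side -/
noncomputable def sh (y : ℝ) : ℝ := if y = 1 / 2 then 1 else 0

theorem sh_half : sh (1 / 2) = 1 := if_pos rfl

theorem sh_long {y : ℝ} (h : y < 87 / 512) : sh y = 0 := if_neg (by linarith)

theorem ang_lb (hA : AngS) {p q r : ℝ} (hp : p = 1 / 2 ∨ p < 87 / 512)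
    (hq : q = 1 / 2 ∨ q < 87 / 512) (hr : r = 1 / 2 ∨ r < 87 / 512) (h : Rad p q r) :
    (ang p q r = KA.th0 ∧ sh p = 1 ∧ sh q = 1) ∨
      KA.th0 * ((sh p + sh q) / 2) + 1 / 5 ≤ ang p q r := by
  have t1 := KA.th0_hi
  rcases hp with rfl | hp <;> rcases hq with rfl | hq <;> rcases hr with rfl | hr
  · exact Or.inl ⟨hA.a0, sh_half, sh_half⟩
  · right; rw [sh_half]; linarith [(hA.a1 r hr h).1]
  · right; rw [sh_half, sh_long hq]; linarith [(hA.b1 q hq (rad_rot (rad_rot h))).1]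
  · right; rw [sh_half, sh_long hq]; linarith [hA.b2 q r hq hr h]
  · right; rw [sh_half, sh_long hp, ang_comm]; linarith [(hA.b1 p hp (rad_rot h)).1]
  · right; rw [sh_half, sh_long hp, ang_comm]; linarith [hA.b2 p r hp hr (rad_swap h)]
  · right; rw [sh_long hp, sh_long hq]; linarith [hA.c2 p q hp hq (rad_rot (rad_rot h))]
  · right; rw [sh_long hp, sh_long hq]; linarith [hA.c3 p q r hp hq hr h]

theorem sm_lb (hA : AngS) (hE : AreaS) {p q r : ℝ} (hp : p = 1 / 2 ∨ p < 87 / 512)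
    (hq : q = 1 / 2 ∨ q < 87 / 512) (hr : r = 1 / 2 ∨ r < 87 / 512) (h : Rad p q r) :
    3 * KA.th0 + 1101 / 10000 * (3 - (sh p + sh q + sh r)) ≤ sm p q r := by
  rcases hp with rfl | hp <;> rcases hq with rfl | hq <;> rcases hr with rfl | hr
  · rw [sh_half, sm, hA.a0]; linarith
  · rw [sh_half, sh_long hr]; linarith [hE.t1 r hr h]
  · rw [sh_half, sh_long hq, ← sm_rot, ← sm_rot]; linarith [hE.t1 q hq (rad_rot (rad_rot h))]
  · rw [sh_half, sh_long hq, sh_long hr]; linarith [hE.t2 q r hq hr h]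
  · rw [sh_half, sh_long hp, ← sm_rot]; linarith [hE.t1 p hp (rad_rot h)]
  · rw [sh_half, sh_long hp, sh_long hr, ← sm_rot]; linarith [hE.t2 r p hr hp (rad_rot h)]
  · rw [sh_half, sh_long hp, sh_long hq, ← sm_rot, ← sm_rot]
    linarith [hE.t2 p q hp hq (rad_rot (rad_rot h))]
  · rw [sh_long hp, sh_long hq, sh_long hr]; linarith [hE.t3 p q r hp hq hr h]

variable {hs : ℝ} {V : Type} [Fintype V] [DecidableEq V] (t : Tri hs V)

theorem rad_of (h2 : 425 / 256 ≤ hs ^ 2) {a b c : V} (h : (a, b, c) ∈ t.T) :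
    Rad (t.x a b) (t.x b c) (t.x c a) := by
  have g := t.gram_pos a b c h
  have k := t.rad a b c h
  have h1 := t.rot _ _ _ h
  have l1 := t.x_lt h
  have l2 := t.x_lt h1
  have l3 := t.x_lt (t.rot _ _ _ h1)
  have e : cof (t.x a b) (t.x b c) (t.x c a) = gram (t.x a b) (t.x b c) (t.x c a) +
      2 * ((1 - t.x a b) * (1 - t.x b c) * (1 - t.x c a)) := by unfold cof gram; ring
  have p : 0 < (1 - t.x a b) * (1 - t.x b c) * (1 - t.x c a) :=
    mul_pos (mul_pos (by linarith) (by linarith)) (by linarith)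
  have c0 : 0 ≤ cof (t.x a b) (t.x b c) (t.x c a) := by linarith
  exact ⟨g, lt_of_le_of_lt (mul_le_mul_of_nonneg_right h2 c0) k⟩

theorem sm_eq (a b c : V) :
    sm (t.x a b) (t.x b c) (t.x c a) = t.A a b c + t.A b c a + t.A c a b := by
  unfold sm Tri.A
  rw [t.x_symm a c, t.x_symm b a, t.x_symm c b, ang_comm (t.x a b) (t.x c a),
    ang_comm (t.x b c) (t.x a b), ang_comm (t.x c a) (t.x b c)]
  ring

theorem card_eq (v : V) :
    (t.T.filter fun d => d.1 = v ∧ t.x d.1 d.2.2 = 1 / 2).card =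
      (t.T.filter fun d => d.1 = v ∧ t.x d.1 d.2.1 = 1 / 2).card := by
  have i1 : Set.InjOn (fun d : V × V × V => d.2.2)
      (t.T.filter fun d => d.1 = v ∧ t.x d.1 d.2.2 = 1 / 2) := by
    rintro ⟨a, b, c⟩ h1 ⟨a', b', c'⟩ h2 e
    simp only [Finset.coe_filter, Set.mem_ofPred_eq] at h1 h2 e
    obtain ⟨m1, rfl, -⟩ := h1
    obtain ⟨m2, rfl, -⟩ := h2
    subst e
    rw [t.uniq _ _ _ _ (t.rot _ _ _ (t.rot _ _ _ m1)) (t.rot _ _ _ (t.rot _ _ _ m2))]
  have i2 : Set.InjOn (fun d : V × V × V => d.2.1)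
      (t.T.filter fun d => d.1 = v ∧ t.x d.1 d.2.1 = 1 / 2) := by
    rintro ⟨a, b, c⟩ h1 ⟨a', b', c'⟩ h2 e
    simp only [Finset.coe_filter, Set.mem_ofPred_eq] at h1 h2 e
    obtain ⟨m1, rfl, -⟩ := h1
    obtain ⟨m2, rfl, -⟩ := h2
    subst e
    rw [t.uniq _ _ _ _ m1 m2]
  rw [← Finset.card_image_of_injOn i1, ← Finset.card_image_of_injOn i2]
  congr 1
  ext w
  simp only [Finset.mem_image, Finset.mem_filter]
  constructor
  · rintro ⟨⟨a, b, c⟩, ⟨m, rfl, e⟩, rfl⟩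
    obtain ⟨d, -, hd⟩ := t.nbr _ _ _ (t.rot _ _ _ (t.rot _ _ _ m))
    exact ⟨_, ⟨hd, rfl, e⟩, rfl⟩
  · rintro ⟨⟨a, b, c⟩, ⟨m, rfl, e⟩, rfl⟩
    obtain ⟨d, -, hd⟩ := t.nbr _ _ _ m
    exact ⟨_, ⟨t.rot _ _ _ hd, rfl, e⟩, rfl⟩

omit [Fintype V] [DecidableEq V] in
theorem sum_sh (s : Finset (V × V × V)) (g : V × V × V → ℝ) :
    ∑ d ∈ s, sh (g d) = ((s.filter fun d => g d = 1 / 2).card : ℝ) := by
  simp only [sh, Finset.sum_boole]

theorem le_four (hA : AngS) (h2 : 425 / 256 ≤ hs ^ 2)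
    (hx : ∀ a b, a ≠ b → t.x a b = 1 / 2 ∨ t.x a b < 87 / 512) (v : V) :
    (t.T.filter fun d => d.1 = v ∧ t.x d.1 d.2.1 = 1 / 2).card ≤ 4 := by
  have t1 := KA.th0_hi
  have t2 := KA.th0_lo
  have p1 := pi_gt_d6
  have p2 := pi_lt_d6
  have key : ∀ d ∈ t.T.filter (fun d => d.1 = v),
      (t.A d.1 d.2.1 d.2.2 = KA.th0 ∧ sh (t.x d.1 d.2.1) = 1 ∧ sh (t.x d.1 d.2.2) = 1) ∨
      KA.th0 * ((sh (t.x d.1 d.2.1) + sh (t.x d.1 d.2.2)) / 2) + 1 / 5 ≤ t.A d.1 d.2.1 d.2.2 := by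
    rintro ⟨a, b, c⟩ hd
    have m := (Finset.mem_filter.1 hd).1
    obtain ⟨n1, n2, n3⟩ := t.ne a b c m
    refine ang_lb hA (hx a b n1) (hx a c n3.symm) (hx b c n2) ?_
    rw [t.x_symm a c]
    exact rad_swap (rad_rot (rad_rot (rad_of t h2 m)))
  have hs := t.A_sum v
  by_cases all : ∀ d ∈ t.T.filter (fun d => d.1 = v), t.A d.1 d.2.1 d.2.2 = KA.th0
  · rw [Finset.sum_congr rfl all, Finset.sum_const, nsmul_eq_mul] at hs
    rcases le_or_gt (t.T.filter (fun d => d.1 = v)).card 5 with h | h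
    · have : ((t.T.filter (fun d => d.1 = v)).card : ℝ) ≤ 5 := by exact_mod_cast h
      nlinarith
    · have : (6 : ℝ) ≤ (t.T.filter (fun d => d.1 = v)).card := by exact_mod_cast h
      nlinarith
  · push Not at all
    obtain ⟨d0, m0, n0⟩ := all
    have nn : ∀ d ∈ t.T.filter (fun d => d.1 = v), 0 ≤ t.A d.1 d.2.1 d.2.2 -
        KA.th0 * ((sh (t.x d.1 d.2.1) + sh (t.x d.1 d.2.2)) / 2) := fun d hd => by
      rcases key d hd with ⟨e1, e2, e3⟩ | e
      · rw [e1, e2, e3]; linarith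
      · linarith
    have s1 := Finset.single_le_sum nn m0
    have k0 := (key d0 m0).resolve_left fun h => n0 h.1
    rw [Finset.sum_sub_distrib, hs, ← Finset.mul_sum, ← Finset.sum_div, Finset.sum_add_distrib,
      sum_sh, sum_sh, Finset.filter_filter, Finset.filter_filter, card_eq] at s1
    by_contra hc
    have : (5 : ℝ) ≤ (t.T.filter fun d => d.1 = v ∧ t.x d.1 d.2.1 = 1 / 2).card := by
      exact_mod_cast not_le.1 hc
    nlinarith

theorem even_short : Even (t.T.filter fun d => t.x d.1 d.2.1 = 1 / 2).card := by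
  have h := Hodge.sum_de t.isCx fun a b => if t.x a b = 1 / 2 then 1 else 0
  rw [Hodge.de, Finset.sum_image (Hodge.de_inj t.isCx)] at h
  have e : ∑ p ∈ Hodge.hf t.T, ((if t.x p.1 p.2 = 1 / 2 then 1 else 0 : ℚ) +
      if t.x p.2 p.1 = 1 / 2 then 1 else 0) = ∑ p ∈ Hodge.hf t.T,
      ((if t.x p.1 p.2 = 1 / 2 then 1 else 0 : ℚ) + if t.x p.1 p.2 = 1 / 2 then 1 else 0) :=
    Finset.sum_congr rfl fun p _ => by rw [t.x_symm p.2 p.1]
  rw [e] at h
  simp only [Finset.sum_add_distrib, Finset.sum_boole] at h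
  exact ⟨_, by exact_mod_cast h⟩

end Four

open Four in
theorem fourS (hA : AngS) (hE : AreaS) : FourS := by
  intro hs V _ _ t h2 hV hx
  have t1 := KA.th0_hi
  have t2 := KA.th0_lo
  have p2 := pi_lt_d6
  have cT : t.T.card = 60 := by have := t.card; omega
  have fib : (t.T.filter fun d => t.x d.1 d.2.1 = 1 / 2).card =
      ∑ v, (t.T.filter fun d => d.1 = v ∧ t.x d.1 d.2.1 = 1 / 2).card := by
    rw [Finset.card_eq_sum_card_fiberwise (f := fun d : V × V × V => d.1) (t := Finset.univ)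
      (fun _ _ => Finset.mem_coe.2 (Finset.mem_univ _))]
    refine Finset.sum_congr rfl fun v _ => ?_
    rw [Finset.filter_filter]
    simp only [and_comm]
  have le4 := le_four t hA h2 hx
  have s0 := t.sum_tau (fun _ => 1) 0
  simp only [Tri.tau, one_mul, sub_zero, mul_zero, Finset.sum_const, Finset.card_univ, hV,
    nsmul_eq_mul, mul_one] at s0
  have lb : ∀ d ∈ t.T, 3 * KA.th0 + 1101 / 10000 *
      (3 - (sh (t.x d.1 d.2.1) + sh (t.x d.2.1 d.2.2) + sh (t.x d.2.2 d.1))) ≤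
      t.A d.1 d.2.1 d.2.2 + t.A d.2.1 d.2.2 d.1 + t.A d.2.2 d.1 d.2.1 := by
    rintro ⟨a, b, c⟩ m
    obtain ⟨n1, n2, n3⟩ := t.ne a b c m
    rw [← sm_eq]
    exact sm_lb hA hE (hx a b n1) (hx b c n2) (hx c a n3) (rad_of t h2 m)
  have s1 := Finset.sum_le_sum lb
  have r1 := t.sum_rot fun d => sh (t.x d.1 d.2.1)
  have r2 := t.sum_rot fun d => sh (t.x d.2.1 d.2.2)
  simp only at r1 r2
  rw [s0, Finset.sum_add_distrib, ← Finset.mul_sum, ← Finset.mul_sum, Finset.sum_sub_distrib,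
    Finset.sum_add_distrib, Finset.sum_add_distrib, r2, r1, sum_sh] at s1
  simp only [Finset.sum_const, cT, nsmul_eq_mul] at s1
  have lo : 46 < (t.T.filter fun d => t.x d.1 d.2.1 = 1 / 2).card := by
    have : (46 : ℝ) < (t.T.filter fun d => t.x d.1 d.2.1 = 1 / 2).card := by
      push_cast at s1
      linarith
    exact_mod_cast this
  have ev := even_short t
  have hi : ∑ v, (t.T.filter fun d => d.1 = v ∧ t.x d.1 d.2.1 = 1 / 2).card ≤ ∑ _v : V, 4 :=
    Finset.sum_le_sum fun v _ => le4 v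
  have tot : ∑ _v : V, 4 = 48 := by simp [hV]
  have eq : ∑ v, (t.T.filter fun d => d.1 = v ∧ t.x d.1 d.2.1 = 1 / 2).card = ∑ _v : V, 4 := by
    obtain ⟨k, hk⟩ := ev
    omega
  intro v
  have := (Finset.sum_eq_sum_iff_of_le fun v _ => le4 v).1 eq v (Finset.mem_univ v)
  exact ⟨this, by rw [card_eq, this]⟩

end Pool.Agent.Lib.MP_f3b2fd_co.KU
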