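import Pool.Agent.Lib.MP_f3b2fd_co.KEP.U.St

/-! Stackings are saturated, and frames are congruent. -/

set_option autoImplicit false

namespace Pool.Agent.Lib.MP_f3b2fd_co.KU

open Set Real Metric

theorem satS : SatS := by
  intro s y
  have h2 : √2 ^ 2 = 2 := Real.sq_sqrt (by norm_num)
  have h0 : (√2 : ℝ) ≠ 0 := by positivity
  obtain ⟨Y, hY⟩ : ∃ Y : Fin 3 → ℝ, ∀ t, y t = √2 * Y t :=
    ⟨fun t => y t / √2, fun t => by field_simp⟩
  obtain ⟨k, hk⟩ : ∃ k : ℤ, |(Y 0 + Y 1 + Y 2) / 2 - k| ≤ 1 / 2 := ⟨_, abs_sub_round _⟩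
  obtain ⟨i, hi⟩ : ∃ i : ℤ, |Y 0 - (Y 0 + Y 1 + Y 2) / 3 - s k / 3 - i| ≤ 1 / 2 :=
    ⟨_, abs_sub_round _⟩
  obtain ⟨m, hm⟩ : ∃ m : ℤ, |Y 1 - (Y 0 + Y 1 + Y 2) / 3 - s k / 3 - m| ≤ 1 / 2 :=
    ⟨_, abs_sub_round _⟩
  refine ⟨i, m + i, k, lt_of_pow_lt_pow_left₀ 2 (by norm_num) ?_⟩
  generalize hg : (Y 0 + Y 1 + Y 2) / 2 - k = γ at hk
  generalize ha : Y 0 - (Y 0 + Y 1 + Y 2) / 3 - s k / 3 - i = α at hi
  generalize hb : Y 1 - (Y 0 + Y 1 + Y 2) / 3 - s k / 3 - m = β at hm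
  have e : dist y (KC.bp s i (m + i) k) ^ 2 =
      √2 ^ 2 * (α ^ 2 + β ^ 2 + (α + β) ^ 2 + 4 / 3 * γ ^ 2) := by
    rw [EuclideanSpace.dist_eq, Real.sq_sqrt (by positivity), Fin.sum_univ_three]
    simp only [KC.bp, Real.dist_eq, sq_abs, Matrix.cons_val, hY]
    rw [← hg, ← ha, ← hb]
    push_cast
    ring
  rw [e, h2]
  rw [abs_le] at hk hi hm
  nlinarith [mul_nonneg (sub_nonneg.2 hk.1) (sub_nonneg.2 hk.2),
    mul_nonneg (sub_nonneg.2 hi.1) (sub_nonneg.2 hi.2),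
    mul_nonneg (sub_nonneg.2 hm.1) (sub_nonneg.2 hm.2), sq_nonneg (α - β)]

namespace Frame

theorem nrm {a b : E3} (h : Reg2 a b) : ∃ n, Nrm a b n := by
  have h2 : √2 ^ 2 = 2 := Real.sq_sqrt (by norm_num)
  obtain ⟨aa, bb, ab⟩ := h
  refine ⟨!₂[√2 / 3 * (a 1 * b 2 - a 2 * b 1), √2 / 3 * (a 2 * b 0 - a 0 * b 2),
    √2 / 3 * (a 0 * b 1 - a 1 * b 0)], ?_, ?_, ?_⟩ <;>
  simp only [PiLp.inner_apply, Fin.sum_univ_three, Matrix.cons_val, RCLike.inner_apply,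
    conj_trivial] at aa bb ab ⊢
  · ring
  · ring
  · have : (a 1 * b 2 - a 2 * b 1) ^ 2 + (a 2 * b 0 - a 0 * b 2) ^ 2 +
        (a 0 * b 1 - a 1 * b 0) ^ 2 = 12 := by
      linear_combination (b 0 * b 0 + b 1 * b 1 + b 2 * b 2) * aa + 4 * bb -
        (b 0 * a 0 + b 1 * a 1 + b 2 * a 2 + 2) * ab
    linear_combination √2 ^ 2 / 9 * this + 4 / 3 * h2

end Frame

theorem frameS : FrameS := by
  intro v a b h
  obtain ⟨n, hn⟩ := Frame.nrm h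
  have h2 : √2 * √2 = 2 := Real.mul_self_sqrt (by norm_num)
  refine ⟨n, hn, ?_⟩
  let w : Fin 3 → E3 := ![(√2 / 2) • ((2 / 3 : ℝ) • a + (-1 / 3 : ℝ) • b + (1 / 2 : ℝ) • n),
    (√2 / 2) • ((-1 / 3 : ℝ) • a + (2 / 3 : ℝ) • b + (1 / 2 : ℝ) • n),
    (√2 / 2) • ((-1 / 3 : ℝ) • a + (-1 / 3 : ℝ) • b + (1 / 2 : ℝ) • n)]
  have ba : inner ℝ b a = (2 : ℝ) := (real_inner_comm _ _).trans h.ab
  have na : inner ℝ n a = (0 : ℝ) := (real_inner_comm _ _).trans hn.an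
  have nb : inner ℝ n b = (0 : ℝ) := (real_inner_comm _ _).trans hn.bn
  have key : ∀ p q r p' q' r' : ℝ, inner ℝ ((√2 / 2) • (p • a + q • b + r • n))
      ((√2 / 2) • (p' • a + q' • b + r' • n)) =
      2 * p * p' + 2 * q * q' + p * q' + q * p' + 4 / 3 * r * r' := fun p q r p' q' r' => by
    simp only [real_inner_smul_left, real_inner_smul_right, inner_add_left, inner_add_right,
      h.aa, h.bb, h.ab, ba, na, nb, hn.an, hn.bn, hn.nn]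
    linear_combination (2 * p * p' + 2 * q * q' + p * q' + q * p' + 4 / 3 * r * r') / 2 * h2
  have hw : Orthonormal ℝ w := by
    rw [orthonormal_iff_ite]
    intro i j
    fin_cases i <;> fin_cases j <;> exact (key _ _ _ _ _ _).trans (by norm_num)
  let B := (basisOfOrthonormalOfCardEqFinrank hw (by simp)).toOrthonormalBasis (by simpa using hw)
  have hB : ∀ t, B t = w t := fun t => by simp [B]
  refine ⟨B.repr.symm.toIsometryEquiv.trans (IsometryEquiv.addLeft v), fun s i j k => ?_⟩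
  have e : ∀ (A : ℝ) (x : E3), (√2 / 3 * A) • (√2 / 2) • x = (A / 3) • x := fun A x => by
    rw [smul_smul]
    congr 1
    linear_combination A / 6 * h2
  show v + B.repr.symm (KC.bp s i j k) = _
  rw [← B.sum_repr_symm, Fin.sum_univ_three, hB, hB, hB]
  simp only [KC.bp, w, Matrix.cons_val, e]
  push_cast
  module

end Pool.Agent.Lib.MP_f3b2fd_co.KU
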