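import Pool.Agent.Lib.MP_f3b2fd_co.KEP.U.St

/-! The soft density does not change under isometries. -/

set_option autoImplicit false

namespace Pool.Agent.Lib.MP_f3b2fd_co.KU

open MeasureTheory Set Real Metric Filter

namespace Iso

theorem mp (g : E3 ≃ᵢ E3) : MeasurePreserving g volume volume := by
  have e : ⇑g = (fun x => x + g 0) ∘ g.toRealLinearIsometryEquiv := by
    funext x
    simp
  rw [e]
  exact (measurePreserving_add_right volume _).comp g.toRealLinearIsometryEquiv.measurePreserving

theorem vol (g : E3 ≃ᵢ E3) (A : Set E3) : volume (g '' A) = volume A := by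
  rw [← g.preimage_symm]
  exact (mp g.symm).measure_preimage_emb g.symm.toHomeomorph.measurableEmbedding A

theorem le (g : E3 ≃ᵢ E3) (X : Set E3) (l : ℝ) : KC.sd (g '' X) l ≤ KC.sd X l := by
  set d := ‖g.symm 0‖
  have d0 : 0 ≤ d := norm_nonneg _
  set u : ℝ → ENNReal := fun R => volume (ball 0 R ∩ ⋃ x ∈ X, closedBall x (1 + l)) /
    volume (ball (0 : E3) R) with hu
  have r := (ratio_tendsto d).limsup_eq
  have s : limsup (u ∘ fun R => R + d) atTop = limsup u atTop := by
    rw [limsup_comp, map_add_atTop_eq]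
  calc KC.sd (g '' X) l ≤ limsup ((u ∘ fun R => R + d) * fun R =>
        ENNReal.ofReal (((R + d) / R) ^ 3)) atTop := by
        refine limsup_le_limsup ?_
        filter_upwards [eventually_gt_atTop 0] with R hR
        have a : ball 0 R ∩ ⋃ x ∈ g '' X, closedBall x (1 + l) ⊆
            g '' (ball 0 (R + d) ∩ ⋃ x ∈ X, closedBall x (1 + l)) := by
          rintro y ⟨h1, h2⟩
          obtain ⟨y, rfl⟩ := g.surjective y
          obtain ⟨_, ⟨x, hx, rfl⟩, h3⟩ := mem_iUnion₂.1 h2
          refine ⟨y, ⟨?_, mem_iUnion₂.2 ⟨x, hx, by simpa [g.dist_eq] using h3⟩⟩, rfl⟩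
          have h4 : dist y (g.symm 0) < R := by
            rw [← g.dist_eq]
            simpa using h1
          have := dist_triangle y (g.symm 0) 0
          rw [dist_zero_right (g.symm 0)] at this
          exact mem_ball.2 (by linarith)
        have p : ENNReal.ofReal (((R + d) / R) ^ 3) ≠ 0 :=
          (ENNReal.ofReal_pos.2 (by positivity)).ne'
        show _ ≤ volume (ball 0 (R + d) ∩ ⋃ x ∈ X, closedBall x (1 + l)) /
          volume (ball (0 : E3) (R + d)) * ENNReal.ofReal (((R + d) / R) ^ 3)
        rw [ball_ratio R d hR (by positivity), mul_comm, ← mul_div_assoc,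
          ENNReal.mul_div_mul_left _ _ p ENNReal.ofReal_ne_top]
        exact ENNReal.div_le_div_right ((measure_mono a).trans (vol g _).le) _
    _ ≤ _ := ENNReal.limsup_mul_le' (.inr (r ▸ ENNReal.one_ne_top)) (.inr (r ▸ one_ne_zero))
    _ = KC.sd X l := by rw [r, s, mul_one]; rfl

end Iso

theorem isoS : IsoS := fun g X l => by
  refine le_antisymm (Iso.le g X l) ?_
  have := Iso.le g.symm (g '' X) l
  rwa [image_image, show (fun x => g.symm (g x)) = id from funext g.symm_apply_apply, image_id]
    at this

end Pool.Agent.Lib.MP_f3b2fd_co.KU
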