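import Pool.Agent.Lib.MP_f3b2fd_co.KEP.U.St

/-! A packing with the two patterns at every centre is a stacking of triangular layers. -/

set_option autoImplicit false

namespace Pool.Agent.Lib.MP_f3b2fd_co.KU

open MeasureTheory Set Real Metric KEP

namespace Ly

theorem nrm_neg {a b n : E3} (h : Nrm a b n) : Nrm a b (-n) :=
  ⟨by rw [inner_neg_right, h.an, neg_zero], by rw [inner_neg_right, h.bn, neg_zero],
    by rw [inner_neg_neg, h.nn]⟩

/-- the layers in one direction. -/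
theorem half (h2 : Lay2S) {X : Set E3} (hp : ∀ x ∈ X, ∀ w ∈ X, x ≠ w → 2 ≤ dist x w)
    (hq : ∀ v ∈ X, PatF (nb X v) ∨ PatH (nb X v)) {v a b n : E3} (hr : Reg2 a b)
    (hn : Nrm a b n) (h0 : Lay X v a b) :
    ∃ u : ℕ → ℤ, u 0 = 0 ∧ (∀ m, u (m + 1) - u m = 1 ∨ u (m + 1) - u m = -1) ∧
      ∀ m : ℕ, Lay X (v + (m : ℝ) • n + ((u m : ℝ) / 3) • (a + b)) a b := by
  have st : ∀ (m : ℕ) (e : ℤ), ∃ e' : ℤ, (e' - e = 1 ∨ e' - e = -1) ∧
      (Lay X (v + (m : ℝ) • n + ((e : ℝ) / 3) • (a + b)) a b →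
        Lay X (v + ((m + 1 : ℕ) : ℝ) • n + ((e' : ℝ) / 3) • (a + b)) a b) := by
    intro m e
    by_cases h : Lay X (v + (m : ℝ) • n + ((e : ℝ) / 3) • (a + b)) a b
    · rcases h2 X _ a b n hp hq hr hn h with k | k
      · refine ⟨e + 1, Or.inl (by ring), fun _ => ?_⟩
        have q : v + ((m + 1 : ℕ) : ℝ) • n + (((e + 1 : ℤ) : ℝ) / 3) • (a + b) =
            v + (m : ℝ) • n + ((e : ℝ) / 3) • (a + b) + n + (1 / 3 : ℝ) • (a + b) := by
          push_cast
          module
        rw [q]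
        exact k
      · refine ⟨e - 1, Or.inr (by ring), fun _ => ?_⟩
        have q : v + ((m + 1 : ℕ) : ℝ) • n + (((e - 1 : ℤ) : ℝ) / 3) • (a + b) =
            v + (m : ℝ) • n + ((e : ℝ) / 3) • (a + b) + n - (1 / 3 : ℝ) • (a + b) := by
          push_cast
          module
        rw [q]
        exact k
    · exact ⟨e + 1, Or.inl (by ring), fun k => absurd k h⟩
  choose F hF using st
  refine ⟨fun m => Nat.rec (0 : ℤ) (fun m e => F m e) m, rfl, fun m => (hF m _).1, fun m => ?_⟩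
  induction m with
  | zero =>
    have q : v + ((0 : ℕ) : ℝ) • n + (((0 : ℤ) : ℝ) / 3) • (a + b) = v := by
      push_cast
      module
    show Lay X (v + ((0 : ℕ) : ℝ) • n + (((0 : ℤ) : ℝ) / 3) • (a + b)) a b
    rw [q]
    exact h0
  | succ m ih => exact (hF m _).2 ih

/-- the layers in both directions. -/
theorem both (h2 : Lay2S) {X : Set E3} (hp : ∀ x ∈ X, ∀ w ∈ X, x ≠ w → 2 ≤ dist x w)
    (hq : ∀ v ∈ X, PatF (nb X v) ∨ PatH (nb X v)) {v a b n : E3} (hr : Reg2 a b)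
    (hn : Nrm a b n) (h0 : Lay X v a b) :
    ∃ s : ℤ → ℤ, Steps s ∧
      ∀ k : ℤ, Lay X (v + (k : ℝ) • n + ((s k : ℝ) / 3) • (a + b)) a b := by
  obtain ⟨u, u0, u1, u2⟩ := half h2 hp hq hr hn h0
  obtain ⟨w, w0, w1, w2⟩ := half h2 hp hq hr (nrm_neg hn) h0
  refine ⟨fun k => if 0 ≤ k then u k.toNat else w (-k).toNat, fun k => ?_, fun k => ?_⟩
  · by_cases hk : 0 ≤ k
    · have e : (k + 1).toNat = k.toNat + 1 := by omega
      have hk' : 0 ≤ k + 1 := by omega
      simp only [hk, hk', if_true, e]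
      exact u1 _
    · by_cases hk' : 0 ≤ k + 1
      · have e : k = -1 := by omega
        subst e
        have a1 : ((-1 : ℤ) + 1).toNat = 0 := by decide
        have a2 : (-(-1 : ℤ)).toNat = 0 + 1 := by decide
        simp only [hk, hk', if_true, if_false, a1, a2, u0]
        have := w1 0
        rw [w0] at this
        omega
      · have e : (-k).toNat = (-(k + 1)).toNat + 1 := by omega
        simp only [hk, hk', if_false, e]
        have := w1 (-(k + 1)).toNat
        omega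
  · by_cases hk : 0 ≤ k
    · simp only [hk, if_true]
      have e : (k : ℝ) = ((k.toNat : ℕ) : ℝ) := by
        rw [← Int.cast_natCast, Int.toNat_of_nonneg hk]
      rw [e]
      exact u2 _
    · simp only [hk, if_false]
      have e : (k : ℝ) = -(((-k).toNat : ℕ) : ℝ) := by
        rw [← Int.cast_natCast, Int.toNat_of_nonneg (by omega)]
        push_cast
        ring
      have q : (k : ℝ) • n = (((-k).toNat : ℕ) : ℝ) • (-n) := by
        rw [smul_neg, ← neg_smul, ← e]
      rw [q]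
      exact w2 _

end Ly

/-- the packing is a stacking. -/
theorem layS (h1 : Lay1S) (h2 : Lay2S) (hS : SatS) (hF : FrameS) : LayS := by
  intro X hp hn hq
  obtain ⟨v, a, b, hr, h0⟩ := h1 X hn hq
  obtain ⟨n, hN, g, hg⟩ := hF v a b hr
  obtain ⟨s, s1, s2⟩ := Ly.both h2 hp hq hr hN h0
  have sub : ∀ i j k, g (KC.bp s i j k) ∈ X := fun i j k => by
    rw [hg]
    exact s2 k i (j - i)
  refine ⟨s, s1, g, Subset.antisymm (fun x hx => ?_) ?_⟩
  · obtain ⟨i, j, k, h⟩ := hS s (g.symm x)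
    refine ⟨_, ⟨i, j, k, rfl⟩, ?_⟩
    rw [← g.dist_eq, g.apply_symm_apply] at h
    by_contra e
    exact absurd (hp x hx _ (sub i j k) fun q => e q.symm) (not_le.2 h)
  · rintro _ ⟨_, ⟨i, j, k, rfl⟩, rfl⟩
    exact sub i j k

end Pool.Agent.Lib.MP_f3b2fd_co.KU
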