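import Pool.Agent.Lib.MP_f3b2fd_co.KEP.U.St

/-! A first triangular layer. -/

set_option autoImplicit false

namespace Pool.Agent.Lib.MP_f3b2fd_co.KU

open Set

namespace Lay1

/-- integer coordinates. -/
noncomputable def ph (a b c : E3) (p : ℤ × ℤ × ℤ) : E3 :=
  ((p.1 : ℝ) / 3) • a + ((p.2.1 : ℝ) / 3) • b + ((p.2.2 : ℝ) / 3) • c

/-- nine times the inner product. -/
def fm (p q : ℤ × ℤ × ℤ) : ℤ :=
  4 * (p.1 * q.1 + p.2.1 * q.2.1 + p.2.2 * q.2.2) +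
    2 * (p.1 * q.2.1 + p.2.1 * q.1 + p.1 * q.2.2 + p.2.2 * q.1 + p.2.1 * q.2.2 + p.2.2 * q.2.1)

def LF : List (ℤ × ℤ × ℤ) := [(3, 0, 0), (0, 3, 0), (-3, 3, 0), (-3, 0, 0), (0, -3, 0), (3, -3, 0),
  (0, 0, 3), (-3, 0, 3), (0, -3, 3), (0, 0, -3), (3, 0, -3), (0, 3, -3)]

def LH : List (ℤ × ℤ × ℤ) := [(3, 0, 0), (0, 3, 0), (-3, 3, 0), (-3, 0, 0), (0, -3, 0), (3, -3, 0),
  (0, 0, 3), (-3, 0, 3), (0, -3, 3), (2, 2, -3), (-1, 2, -3), (2, -1, -3)]

theorem ph_sub (a b c : E3) (p q : ℤ × ℤ × ℤ) : ph a b c (p - q) = ph a b c p - ph a b c q := by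
  simp only [ph, Prod.fst_sub, Prod.snd_sub, Int.cast_sub]
  module

theorem ph_neg (a b c : E3) (p : ℤ × ℤ × ℤ) : ph a b c (-p) = -ph a b c p := by
  simp only [ph, Prod.fst_neg, Prod.snd_neg, Int.cast_neg]
  module

theorem ph_inner {a b c : E3} (h : Reg3 a b c) (p q : ℤ × ℤ × ℤ) :
    inner ℝ (ph a b c p) (ph a b c q) = (fm p q : ℝ) / 9 := by
  have e1 := real_inner_comm a b
  have e2 := real_inner_comm a c
  have e3 := real_inner_comm b c
  simp only [ph, fm, inner_add_left, inner_add_right, real_inner_smul_left, real_inner_smul_right,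
    e1, e2, e3, h.aa, h.bb, h.cc, h.ab, h.ac, h.bc]
  push_cast
  ring

theorem ph_norm {a b c : E3} (h : Reg3 a b c) {p : ℤ × ℤ × ℤ} (e : fm p p = 36) :
    ‖ph a b c p‖ = 2 := by
  have := ph_inner h p p
  rw [real_inner_self_eq_norm_sq, e] at this
  exact (pow_left_inj₀ (norm_nonneg _) zero_le_two two_ne_zero).1 (by rw [this]; norm_num)

theorem repF (a b c z : E3) :
    z ∈ hex a b ∪ tri a b c ∪ {-c, a - c, b - c} ↔ z ∈ LF.map (ph a b c) := by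
  have : LF.map (ph a b c) = [a, b, b - a, -a, -b, a - b, c, c - a, c - b, -c, a - c, b - c] := by
    simp only [LF, List.map, ph, List.cons.injEq, and_true]
    push_cast
    refine ⟨?_, ?_, ?_, ?_, ?_, ?_, ?_, ?_, ?_, ?_, ?_, ?_⟩ <;> module
  rw [this]
  simp only [hex, tri, mem_union, mem_insert_iff, mem_singleton_iff, List.mem_cons,
    List.not_mem_nil, or_false, or_assoc]

theorem repH (a b c z : E3) :
    z ∈ hex a b ∪ tri a b c ∪ tri a b ((2 / 3 : ℝ) • (a + b) - c) ↔ z ∈ LH.map (ph a b c) := by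
  have : LH.map (ph a b c) = [a, b, b - a, -a, -b, a - b, c, c - a, c - b,
      (2 / 3 : ℝ) • (a + b) - c, (2 / 3 : ℝ) • (a + b) - c - a, (2 / 3 : ℝ) • (a + b) - c - b] := by
    simp only [LH, List.map, ph, List.cons.injEq, and_true]
    push_cast
    refine ⟨?_, ?_, ?_, ?_, ?_, ?_, ?_, ?_, ?_, ?_, ?_, ?_⟩ <;> module
  rw [this]
  simp only [hex, tri, mem_union, mem_insert_iff, mem_singleton_iff, List.mem_cons,
    List.not_mem_nil, or_false, or_assoc]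

/-- the finite check. -/
def Ck (L : List (ℤ × ℤ × ℤ)) : Prop := ∀ p ∈ L, ∀ q ∈ L, fm (p - q) (p - q) = 96 → ∀ r ∈ L,
  fm r (p - q) = 0 → -r ∈ L ∧ ∃ s ∈ L, s - (p - q) ∈ L ∧ fm (s - r) (s - r) = 36 ∧
    fm (s - (p - q) - r) (s - (p - q) - r) = 36

theorem ckF : Ck LF := by unfold Ck; decide +kernel
theorem ckH : Ck LH := by unfold Ck; decide +kernel
theorem ngF : ∀ p ∈ LF, -p ∈ LF := by decide +kernel

theorem symF {K : Set E3} (h : PatF K) {z : E3} (hz : z ∈ K) : -z ∈ K := by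
  obtain ⟨a, b, c, -, rfl⟩ := h
  obtain ⟨p, hp, rfl⟩ := List.mem_map.1 ((repF a b c z).1 hz)
  exact (repF a b c _).2 (List.mem_map.2 ⟨-p, ngF p hp, ph_neg a b c p⟩)

theorem lemM {K : Set E3} (h : PatF K ∨ PatH K) {t m z : E3} (ht : t ∈ K) (hm : t - m ∈ K)
    (mm : inner ℝ m m = (32 / 3 : ℝ)) (hz : z ∈ K) (zm : inner ℝ z m = (0 : ℝ)) :
    -z ∈ K ∧ ∃ s ∈ K, s - m ∈ K ∧ ‖s - z‖ = 2 ∧ ‖s - m - z‖ = 2 := by
  obtain ⟨a, b, c, L, hr, hL, hK⟩ : ∃ a b c L, Reg3 a b c ∧ Ck L ∧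
      ∀ z, z ∈ K ↔ z ∈ L.map (ph a b c) := by
    rcases h with ⟨a, b, c, hr, rfl⟩ | ⟨a, b, c, hr, rfl⟩
    exacts [⟨a, b, c, LF, hr, ckF, repF a b c⟩, ⟨a, b, c, LH, hr, ckH, repH a b c⟩]
  obtain ⟨p, hp, rfl⟩ := List.mem_map.1 ((hK _).1 ht)
  obtain ⟨q, hq, e⟩ := List.mem_map.1 ((hK _).1 hm)
  obtain ⟨r, hr', rfl⟩ := List.mem_map.1 ((hK _).1 hz)
  obtain rfl : m = ph a b c (p - q) := by rw [ph_sub, e]; abel
  rw [ph_inner hr] at mm zm
  obtain ⟨k1, s, k2, k3, k4, k5⟩ := hL p hp q hq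
    (by exact_mod_cast (by linarith : (fm (p - q) (p - q) : ℝ) = 96)) r hr'
    (by exact_mod_cast (by linarith : (fm r (p - q) : ℝ) = 0))
  refine ⟨(hK _).2 (List.mem_map.2 ⟨_, k1, ph_neg a b c r⟩), ph a b c s,
    (hK _).2 (List.mem_map.2 ⟨_, k2, rfl⟩), (hK _).2 (List.mem_map.2 ⟨_, k3, ph_sub a b c _ _⟩),
    ?_, ?_⟩
  · rw [← ph_sub]; exact ph_norm hr k4
  · rw [← ph_sub, ← ph_sub]; exact ph_norm hr k5

theorem hex_swap (a b : E3) : hex b a = hex a b := by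
  ext z
  simp only [hex, mem_insert_iff, mem_singleton_iff]
  tauto

theorem hex_neg (a b : E3) : hex (-a) (-b) = hex a b := by
  ext z
  simp only [hex, mem_insert_iff, mem_singleton_iff, neg_neg, neg_sub_neg]
  tauto

theorem step {X : Set E3} {w a b : E3} (hw : w ∈ X) (h : hex a b ⊆ nb X w)
    (s : ∀ z ∈ hex a b, z ∈ nb X (w + a) → -z ∈ nb X (w + a)) : hex a b ⊆ nb X (w + a) := by
  have m2 : b ∈ hex a b := by simp [hex]
  have m3 : b - a ∈ hex a b := by simp [hex]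
  have m4 : -a ∈ hex a b := by simp [hex]
  have m5 : -b ∈ hex a b := by simp [hex]
  have m6 : a - b ∈ hex a b := by simp [hex]
  have k3 : b - a ∈ nb X (w + a) := ⟨by simpa using (h m2).1, (h m3).2⟩
  have k4 : -a ∈ nb X (w + a) := ⟨by simpa using hw, (h m4).2⟩
  have k5 : -b ∈ nb X (w + a) := ⟨by rw [add_assoc, ← sub_eq_add_neg]; exact (h m6).1, (h m5).2⟩
  rintro z (rfl | rfl | rfl | rfl | rfl | rfl)
  exacts [by simpa using s _ m4 k4, by simpa using s _ m5 k5, k3, k4, k5, by simpa using s _ m3 k3]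

theorem line {P : E3 → Prop} {a : E3} (h : ∀ w, P w → P (w + a) ∧ P (w + -a)) {v : E3} (hv : P v)
    (i : ℤ) : P (v + (i : ℝ) • a) := by
  induction i using Int.induction_on with
  | zero => simpa using hv
  | succ i ih =>
    have e : v + (((i : ℤ) + 1 : ℤ) : ℝ) • a = v + ((i : ℤ) : ℝ) • a + a := by push_cast; module
    exact e ▸ (h _ ih).1
  | pred i ih =>
    have e : v + ((-(i : ℤ) - 1 : ℤ) : ℝ) • a = v + ((-(i : ℤ) : ℤ) : ℝ) • a + -a := by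
      push_cast; module
    exact e ▸ (h _ ih).2

theorem lay {X : Set E3} {v a b : E3} {Q : E3 → Prop}
    (hQ : ∀ w ∈ X, Q w → ∀ z ∈ hex a b, z ∈ nb X w → Q (w + z))
    (hS : ∀ w ∈ X, Q w → ∀ z ∈ hex a b, z ∈ nb X w → -z ∈ nb X w)
    (h1 : v ∈ X) (h2 : hex a b ⊆ nb X v) (h3 : Q v) : Lay X v a b := by
  have st : ∀ a' b', hex a' b' = hex a b → ∀ w, w ∈ X ∧ hex a b ⊆ nb X w ∧ Q w →
      w + a' ∈ X ∧ hex a b ⊆ nb X (w + a') ∧ Q (w + a') := by
    rintro a' b' e w ⟨k1, k2, k3⟩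
    have m : a' ∈ hex a b := e ▸ by simp [hex]
    have q := hQ w k1 k3 a' m (k2 m)
    refine ⟨(k2 m).1, ?_, q⟩
    rw [← e] at k2 hS ⊢
    exact step k1 k2 (hS _ (k2 (e ▸ m)).1 q)
  intro i j
  exact (line (P := fun w => w ∈ X ∧ hex a b ⊆ nb X w ∧ Q w)
    (fun w h => ⟨st b a (hex_swap a b) w h, st (-b) (-a) ((hex_neg b a).trans (hex_swap a b)) w h⟩)
    (line (P := fun w => w ∈ X ∧ hex a b ⊆ nb X w ∧ Q w)
      (fun w h => ⟨st a b rfl w h, st (-a) (-b) (hex_neg a b) w h⟩) ⟨h1, h2, h3⟩ i) j).1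

end Lay1

open Lay1 in
theorem lay1S : Lay1S := by
  rintro X ⟨v, hv⟩ h
  by_cases hF : ∀ w ∈ X, PatF (nb X w)
  · obtain ⟨a, b, c, hr, e⟩ := hF v hv
    exact ⟨v, a, b, hr.toReg2, lay (Q := fun _ => True) (fun _ _ _ _ _ _ => trivial)
      (fun w hw _ z _ hz => symF (hF w hw) hz) hv
      (e ▸ subset_union_left.trans subset_union_left) trivial⟩
  · push Not at hF
    obtain ⟨v, hv, hF⟩ := hF
    obtain ⟨a, b, c, hr, e⟩ := (h v hv).resolve_left hF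
    have em : ph a b c (-2, -2, 6) = c - ((2 / 3 : ℝ) • (a + b) - c) := by
      simp only [ph]
      push_cast
      module
    have mm : inner ℝ (ph a b c (-2, -2, 6)) (ph a b c (-2, -2, 6)) = (32 / 3 : ℝ) := by
      rw [ph_inner hr]
      norm_num [fm]
    have ea : ph a b c (3, 0, 0) = a := by simp [ph]
    have eb : ph a b c (0, 3, 0) = b := by simp [ph]
    have am : inner ℝ a (ph a b c (-2, -2, 6)) = (0 : ℝ) := by
      have := ph_inner hr (3, 0, 0) (-2, -2, 6)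
      rw [ea] at this
      rw [this]
      norm_num [fm]
    have bm : inner ℝ b (ph a b c (-2, -2, 6)) = (0 : ℝ) := by
      have := ph_inner hr (0, 3, 0) (-2, -2, 6)
      rw [eb] at this
      rw [this]
      norm_num [fm]
    generalize ph a b c (-2, -2, 6) = m at em mm am bm
    have o : ∀ z ∈ hex a b, inner ℝ z m = (0 : ℝ) := by
      rintro z (rfl | rfl | rfl | rfl | rfl | rfl) <;> simp [inner_sub_left, am, bm]
    refine ⟨v, a, b, hr.toReg2, lay (Q := fun w => ∃ t ∈ nb X w, t - m ∈ nb X w) ?_ ?_ hv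
      (e ▸ subset_union_left.trans subset_union_left) ⟨c, ?_, ?_⟩⟩
    · rintro w hw ⟨t, t1, t2⟩ z z1 z2
      obtain ⟨-, s, s1, s2, s3, s4⟩ := lemM (h w hw) t1 t2 mm z2 (o z z1)
      refine ⟨s - z, ⟨by simpa using s1.1, s3⟩, ?_, by rwa [sub_right_comm]⟩
      rw [show w + z + (s - z - m) = w + (s - m) by abel]
      exact s2.1
    · rintro w hw ⟨t, t1, t2⟩ z z1 z2
      exact (lemM (h w hw) t1 t2 mm z2 (o z z1)).1
    · rw [e]
      simp [tri]
    · rw [e, em, sub_sub_cancel]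
      simp [tri]

end Pool.Agent.Lib.MP_f3b2fd_co.KU
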