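import Pool.Agent.Lib.MP_f3b2fd_co.KEP.U.St

/-! The next layer of a packing with close packed neighbourhoods. -/

set_option autoImplicit false

namespace Pool.Agent.Lib.MP_f3b2fd_co.KU

open Set

namespace Lay2

theorem sq {a b : E3} (h : Reg2 a b) (s t : ℝ) :
    ‖s • a + t • b‖ ^ 2 = 4 * (s ^ 2 + s * t + t ^ 2) := by
  rw [← real_inner_self_eq_norm_sq]
  simp only [inner_add_left, inner_add_right, real_inner_smul_left, real_inner_smul_right, h.aa,
    h.bb, h.ab, real_inner_comm a b]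
  ring

theorem two {a b u : E3} (h : Reg2 a b) (s t : ℝ) (e : u = s • a + t • b)
    (k : s ^ 2 + s * t + t ^ 2 = 1) : ‖u‖ = 2 := by
  have := sq h s t
  rw [k, ← e] at this
  exact (sq_eq_sq₀ (norm_nonneg u) zero_le_two).1 (by linarith)

theorem far {X : Set E3} (hX : ∀ x ∈ X, ∀ w ∈ X, x ≠ w → 2 ≤ dist x w) {a b x y : E3}
    (h : Reg2 a b) (hx : x ∈ X) (hy : y ∈ X) (s t : ℝ) (e : x - y = s • a + t • b)
    (k : s ^ 2 + s * t + t ^ 2 = 1 / 3) : False := by
  have h1 := sq h s t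
  rw [k, ← e, ← dist_eq_norm] at h1
  have h2 := hX x hx y hy fun e' => by
    rw [e', dist_self] at h1
    norm_num at h1
  nlinarith

theorem all {P : ℤ → Prop} (h : ∀ i, P i ↔ P (i + 1)) (i : ℤ) : P i ↔ P 0 := by
  induction i using Int.induction_on with
  | zero => rfl
  | succ i ih => exact (h i).symm.trans ih
  | pred i ih => exact (h _).trans (by rwa [sub_add_cancel])

end Lay2

theorem lay2S (hC : CapS) : Lay2S := by
  intro X v a b n hX hP hR hN hL
  let A : ℤ → ℤ → Prop := fun i j =>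
    v + n + (1 / 3 : ℝ) • (a + b) + (i : ℝ) • a + (j : ℝ) • b ∈ X
  let B : ℤ → ℤ → Prop := fun i j =>
    v + n - (1 / 3 : ℝ) • (a + b) + (i : ℝ) • a + (j : ℝ) • b ∈ X
  have c1 : ∀ i j, A i j → B (i + 1) j → False := fun i j h1 h2 =>
    Lay2.far hX hR h1 h2 (-1 / 3) (2 / 3) (by push_cast; module) (by norm_num)
  have c2 : ∀ i j, A i j → B i (j + 1) → False := fun i j h1 h2 =>
    Lay2.far hX hR h1 h2 (2 / 3) (-1 / 3) (by push_cast; module) (by norm_num)
  have ty : ∀ i j, (A i j ∧ A (i - 1) j ∧ A i (j - 1)) ∨ (B i j ∧ B (i + 1) j ∧ B i (j + 1)) := by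
    intro i j
    have m : ∀ (s t : ℤ) (u : E3), u = (s : ℝ) • a + (t : ℝ) • b → s ^ 2 + s * t + t ^ 2 = 1 →
        u ∈ nb X (v + (i : ℝ) • a + (j : ℝ) • b) := fun s t u e k => by
      refine ⟨?_, Lay2.two hR s t e (by exact_mod_cast k)⟩
      convert hL (i + s) (j + t) using 1
      rw [e]
      push_cast
      module
    refine (hC _ a b n (hP _ (hL i j)) hR hN ?_).imp (fun h => ⟨?_, ?_, ?_⟩) fun h => ⟨?_, ?_, ?_⟩
    · rintro u (rfl | rfl | rfl | rfl | rfl | rfl)
      · exact m 1 0 _ (by simp) (by norm_num)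
      · exact m 0 1 _ (by simp) (by norm_num)
      · exact m (-1) 1 _ (by push_cast; module) (by norm_num)
      · exact m (-1) 0 _ (by simp) (by norm_num)
      · exact m 0 (-1) _ (by simp) (by norm_num)
      · exact m 1 (-1) _ (by push_cast; module) (by norm_num)
    · exact mem_of_eq_of_mem (by module) (h (Or.inl rfl)).1
    · exact mem_of_eq_of_mem (by push_cast; module) (h (Or.inr (Or.inl rfl))).1
    · exact mem_of_eq_of_mem (by push_cast; module) (h (Or.inr (Or.inr rfl))).1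
    · exact mem_of_eq_of_mem (by module) (h (Or.inl rfl)).1
    · exact mem_of_eq_of_mem (by push_cast; module) (h (Or.inr (Or.inl rfl))).1
    · exact mem_of_eq_of_mem (by push_cast; module) (h (Or.inr (Or.inr rfl))).1
  let P : ℤ → ℤ → Prop := fun i j => A i j ∧ A (i - 1) j ∧ A i (j - 1)
  have p1 : ∀ j i, P i j ↔ P (i + 1) j := fun j i =>
    ⟨fun h => (ty (i + 1) j).resolve_right fun q => c1 i j h.1 q.1,
      fun h => (ty i j).resolve_right fun q => c1 i j (by simpa using h.2.1) q.2.1⟩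
  have p2 : ∀ i j, P i j ↔ P i (j + 1) := fun i j =>
    ⟨fun h => (ty i (j + 1)).resolve_right fun q => c2 i j h.1 q.1,
      fun h => (ty i j).resolve_right fun q => c2 i j (by simpa using h.2.2) q.2.2⟩
  have p : ∀ i j, P i j ↔ P 0 0 := fun i j =>
    (Lay2.all (P := fun i => P i j) (p1 j) i).trans (Lay2.all (p2 0) j)
  by_cases h : P 0 0
  · exact Or.inl fun i j => ((p i j).2 h).1
  · exact Or.inr fun i j => ((ty i j).resolve_left fun q => h ((p i j).1 q)).1

end Pool.Agent.Lib.MP_f3b2fd_co.KU
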