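import Pool.Agent.Lib.MP_f3b2fd_co.KEP.U.St

/-! The pattern at every centre. -/

set_option autoImplicit false

namespace Pool.Agent.Lib.MP_f3b2fd_co.KU

open Set Real Metric KEP

namespace Loc

theorem unit {v w : E3} (h : dist v w = 2) : ‖(1 / 2 : ℝ) • (w - v)‖ = 1 := by
  rw [norm_smul, ← dist_eq_norm, dist_comm, h]
  norm_num

theorem two (z : E3) : (2 * 1 : ℝ) • ((1 / 2 : ℝ) • z) = z := by
  rw [smul_smul]
  norm_num

theorem ip {v a b : E3} (ha : dist v a = 2) (hb : dist v b = 2) :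
    dist a b ^ 2 = 8 - 8 * inner ℝ ((1 / 2 : ℝ) • (a - v)) ((1 / 2 : ℝ) • (b - v)) := by
  have k := dist_hu (unit ha) (unit hb) 1 1
  rw [two, two, sub_sub_sub_cancel_right, ← dist_eq_norm] at k
  linarith

theorem sat {hs δ : ℝ} {f : ℝ → ℝ} (h1 : 1 ≤ hs) (hδ : 0 < δ) (f0 : ∀ h, 0 ≤ f h)
    (f1 : f 1 = 1) (hB : StB f hs δ) {v : E3} {N : Finset E3} (c : N.card = 12)
    (d : ∀ w ∈ N, dist v w = 2) (p2 : ∀ x ∈ N, ∀ w ∈ N, x ≠ w → 2 ≤ dist x w)
    {q : E3} (q1 : 2 ≤ ‖q‖) (q2 : ‖q‖ ≤ 2 * hs) : ∃ w ∈ N, ‖q - (w - v)‖ < 2 := by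
  classical
  by_contra hn
  push Not at hn
  set M : Finset E3 := N.image fun w => w - v with hM
  have cM : M.card = 12 := by
    rw [hM, Finset.card_image_of_injective _ sub_left_injective, c]
  have nM : ∀ z ∈ M, ‖z‖ = 2 := fun z hz => by
    obtain ⟨w, hw, rfl⟩ := Finset.mem_image.1 hz
    rw [← dist_eq_norm, dist_comm, d w hw]
  have fM : ∀ z ∈ M, 2 ≤ ‖q - z‖ := fun z hz => by
    obtain ⟨w, hw, rfl⟩ := Finset.mem_image.1 hz
    exact hn w hw
  have qM : q ∉ M := fun h => by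
    have := fM q h
    rw [sub_self, norm_zero] at this
    linarith
  have k := hB (insert q M) (fun z hz => by
      rcases Finset.mem_insert.1 hz with rfl | hz
      · exact ⟨q1, q2⟩
      · rw [nM z hz]
        exact ⟨le_rfl, by linarith⟩)
    (fun z hz y hy hne => by
      rcases Finset.mem_insert.1 hz with e | hz' <;> rcases Finset.mem_insert.1 hy with e' | hy'
      · exact absurd (e.trans e'.symm) hne
      · rw [e]
        exact fM y hy'
      · rw [e', norm_sub_rev]
        exact fM z hz'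
      · obtain ⟨a, ha, rfl⟩ := Finset.mem_image.1 hz'
        obtain ⟨b, hb, rfl⟩ := Finset.mem_image.1 hy'
        rw [sub_sub_sub_cancel_right, ← dist_eq_norm]
        exact p2 a ha b hb fun e => hne (by rw [e]))
    (by rw [Finset.card_insert_of_notMem qM, cM])
  rw [Finset.sum_insert qM, Finset.sum_congr rfl fun z hz => show f (‖z‖ / 2) = 1 by
    rw [nM z hz, div_self two_ne_zero, f1]] at k
  rw [Finset.sum_const, cM] at k
  have := f0 (‖q‖ / 2)
  norm_num at k
  linarith

end Loc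

theorem locS (hT : TypS) (hP : PatS) : LocS := by
  classical
  intro hs δ f X h1 h2 h3 hδ f0 f1 hB p2 hK v hv
  obtain ⟨N, c, d, far⟩ := hK v hv
  have gap : ∀ a ∈ N, ∀ b ∈ N, a ≠ b → dist a b = 2 ∨ 2 * hs < dist a b := fun a ha b hb hne => by
    obtain ⟨N', -, d', far'⟩ := hK a (d a ha).1
    exact (far' b (d b hb).1 hne.symm).imp_left fun h => (d' b h).2
  obtain ⟨t, -, t2⟩ := exists_tri (V := N) h1 h3 (fun _ => 1)
    (fun w => (1 / 2 : ℝ) • ((w : E3) - v)) (fun _ => le_rfl) (fun _ => h1)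
    (fun w => Loc.unit (d w w.2).2) (fun a b hab => by
      have k := Loc.ip (d a a.2).2 (d b b.2).2
      have k1 := p2 a (d a a.2).1 b (d b b.2).1 fun h => hab (Subtype.ext h)
      nlinarith)
    (fun p hp k k1 k2 => by
      have hn : ‖(2 * k) • p‖ = 2 * k := by
        rw [norm_smul, hp, mul_one, Real.norm_of_nonneg (by linarith)]
      obtain ⟨w, hw, hd⟩ := Loc.sat h1 hδ f0 f1 hB c (fun w hw => (d w hw).2)
        (fun a ha b hb => p2 a (d a ha).1 b (d b hb).1) (q := (2 * k) • p) (by linarith)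
        (by linarith)
      have k3 := dist_hu hp (Loc.unit (d w hw).2) k 1
      rw [Loc.two] at k3
      refine ⟨⟨w, hw⟩, ?_⟩
      nlinarith [norm_nonneg ((2 * k) • p - (w - v))])
  have cN : Fintype.card N = 12 := by rw [Fintype.card_coe, c]
  have hx : ∀ a b : N, a ≠ b → t.x a b = 1 / 2 ∨ t.x a b < 87 / 512 := fun a b hab => by
    have k := Loc.ip (d a a.2).2 (d b b.2).2
    rw [t.x_eq, t2]
    rcases gap a a.2 b b.2 fun h => hab (Subtype.ext h) with e | e
    · left
      rw [e] at k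
      linarith
    · right
      nlinarith
  obtain ⟨y1, y2⟩ := hT hs N t h2 cN hx
  have e : nb X v = range fun w => (2 : ℝ) • t.u w := by
    have e2 : ∀ w : N, (2 : ℝ) • t.u w = (w : E3) - v := fun w => by
      rw [t2, smul_smul]
      norm_num
    ext z
    constructor
    · rintro ⟨z1, z2⟩
      have hd : dist v (v + z) = 2 := by rw [dist_self_add_right, z2]
      have hne : v + z ≠ v := fun h => by
        rw [h, dist_self] at hd
        norm_num at hd
      rcases far _ z1 hne with h | h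
      · exact ⟨⟨_, h⟩, (e2 _).trans (add_sub_cancel_left v z)⟩
      · linarith
    · rintro ⟨w, rfl⟩
      show v + (2 : ℝ) • t.u w ∈ X ∧ ‖(2 : ℝ) • t.u w‖ = 2
      rw [e2, add_sub_cancel, ← dist_eq_norm, dist_comm]
      exact d w w.2
  rw [e]
  exact hP hs N t cN hx y1 y2

end Pool.Agent.Lib.MP_f3b2fd_co.KU
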