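import Mathlib

/-! The search tree for the twelve directions, in integer coordinates. -/

set_option autoImplicit false

namespace Pool.Agent.Lib.MP_f3b2fd_co.KU

namespace PT

/-- integer coordinates. -/
abbrev P : Type := ℤ × ℤ × ℤ

/-- scaled inner product. -/
def g (p q : P) : ℤ :=
  p.1 * q.1 + p.2.1 * q.2.1 + p.2.2 * q.2.2 + (p.1 + p.2.1 + p.2.2) * (q.1 + q.2.1 + q.2.2)

/-- linear combination. -/
def lc (i : ℤ) (p : P) (j : ℤ) (q : P) : P :=
  (i * p.1 + j * q.1, i * p.2.1 + j * q.2.1, i * p.2.2 + j * q.2.2)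

/-- division of all coordinates. -/
def dv (p : P) (k : ℤ) : P := (p.1 / k, p.2.1 / k, p.2.2 / k)

/-- equality test. -/
def eqb (p q : P) : Bool := p.1 == q.1 && (p.2.1 == q.2.1 && p.2.2 == q.2.2)

theorem eqb_iff {p q : P} : eqb p q = true ↔ p = q := by
  obtain ⟨a, b, c⟩ := p
  obtain ⟨d, e, f⟩ := q
  simp [eqb]

/-- membership test. -/
def mem (p : P) (l : List P) : Bool := l.any fun q => eqb q p

theorem mem_iff {p : P} {l : List P} : mem p l = true ↔ p ∈ l := by
  simp [mem, eqb_iff]

/-- twice the inner product along an edge. -/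
def bit (p q : P) : ℤ := if g p q = 0 then 0 else 1

/-- an inner product that two directions cannot have. -/
def bad (p q : P) : Bool :=
  !(g p q == 2 * 59049) && (!(g p q == 59049) && decide (87 * 59049 ≤ 256 * g p q))

/-- the two lists have the same entries. -/
def same (l m : List P) : Bool := l.all (fun p => mem p m) && m.all fun p => mem p l

/-- hexagon and triangle. -/
def base (a b c : P) : List P :=
  [a, b, lc 1 b (-1) a, lc (-1) a 0 a, lc (-1) b 0 b, lc 1 a (-1) b, c, lc 1 c (-1) a,
    lc 1 c (-1) b]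

/-- the cubic list. -/
def lF (a b c : P) : List P := base a b c ++ [lc (-1) c 0 c, lc 1 a (-1) c, lc 1 b (-1) c]

/-- the hexagonal list. -/
def lH (a b c e : P) : List P := base a b c ++ [e, lc 1 e (-1) a, lc 1 e (-1) b]

/-- three times the mirror image of `c`. -/
def mir (a b c : P) : P := lc 2 (lc 1 a 1 b) (-3) c

/-- the pattern test. -/
def pat (l : List P) : Bool :=
  l.any fun a => l.any fun b => g a b == 59049 && l.any fun c =>
    g a c == 59049 && (g b c == 59049 && (same l (lF a b c) ||
      (eqb (lc 3 (dv (mir a b c) 3) 0 a) (mir a b c) && same l (lH a b c (dv (mir a b c) 3)))))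

/-- the multiple of the sum of the two opposite vertices. -/
def num (p q r : P) (y z : ℤ) : P :=
  lc (2 * (bit r p + y) - bit p q * (bit q r + z)) p
    (2 * (bit q r + z) - bit p q * (bit r p + y)) q

/-- the candidate for the fourth vertex. -/
def cand (p q r : P) (y z : ℤ) : P := lc 1 (dv (num p q r y z) (4 - bit p q)) (-1) r

/-- the search. -/
def go : ℕ → List P → List (P × P × P) → Bool
  | 0, _, _ => false
  | f + 1, ps, ds =>
    if ps.length == 12 then pat ps else
      match ds.find? fun d => !(ds.any fun e => eqb e.1 d.2.1 && eqb e.2.1 d.1) with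
      | none => false
      | some d => [((1 : ℤ), (1 : ℤ)), (0, 1), (1, 0)].all fun w =>
          (bit d.1 d.2.1 == 0 && !(w.1 + w.2 == 2)) ||
          (eqb (lc (4 - bit d.1 d.2.1) (cand d.1 d.2.1 d.2.2 w.1 w.2) (4 - bit d.1 d.2.1) d.2.2)
              (num d.1 d.2.1 d.2.2 w.1 w.2) &&
            (ps.any (fun p => bad p (cand d.1 d.2.1 d.2.2 w.1 w.2)) ||
              go f (if mem (cand d.1 d.2.1 d.2.2 w.1 w.2) ps then ps
                  else ps ++ [cand d.1 d.2.1 d.2.2 w.1 w.2])
                (ds ++ [(d.2.1, d.1, cand d.1 d.2.1 d.2.2 w.1 w.2),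
                  (d.1, cand d.1 d.2.1 d.2.2 w.1 w.2, d.2.1),
                  (cand d.1 d.2.1 d.2.2 w.1 w.2, d.2.1, d.1)])))

theorem run : go 40 [(243, 0, 0), (0, 243, 0), (0, 0, 243)]
    [((243, 0, 0), (0, 243, 0), (0, 0, 243)), ((0, 243, 0), (0, 0, 243), (243, 0, 0)),
      ((0, 0, 243), (243, 0, 0), (0, 243, 0))] = true := by decide +kernel

end PT

end Pool.Agent.Lib.MP_f3b2fd_co.KU
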