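import Pool.Agent.Lib.MP_f3b2fd_co.KEP.U.St
import Pool.Agent.Lib.MP_f3b2fd_co.KEP.U.Pat0

/-! The twelve directions form one of the two patterns: a checked search tree. -/

set_option autoImplicit false

namespace Pool.Agent.Lib.MP_f3b2fd_co.KU

open Set Real KEP

namespace PT

noncomputable section

/-- the point with the given coordinates. -/
def ph (A B C : E3) (p : P) : E3 :=
  ((p.1 : ℝ) / 243) • A + ((p.2.1 : ℝ) / 243) • B + ((p.2.2 : ℝ) / 243) • C

/-- three unit vectors at sixty degrees. -/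
structure Fr (A B C : E3) : Prop where
  aa : inner ℝ A A = (1 : ℝ)
  bb : inner ℝ B B = (1 : ℝ)
  cc : inner ℝ C C = (1 : ℝ)
  ab : inner ℝ A B = (1 / 2 : ℝ)
  bc : inner ℝ B C = (1 / 2 : ℝ)
  ca : inner ℝ C A = (1 / 2 : ℝ)

variable {A B C : E3}

theorem inner_ph (h : Fr A B C) (p q : P) :
    inner ℝ (ph A B C p) (ph A B C q) = (g p q : ℝ) / (2 * 59049) := by
  have ba : inner ℝ B A = (1 / 2 : ℝ) := by rw [real_inner_comm]; exact h.ab
  have cb : inner ℝ C B = (1 / 2 : ℝ) := by rw [real_inner_comm]; exact h.bc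
  have ac : inner ℝ A C = (1 / 2 : ℝ) := by rw [real_inner_comm]; exact h.ca
  simp only [ph, g, inner_add_left, inner_add_right, real_inner_smul_left, real_inner_smul_right,
    h.aa, h.bb, h.cc, h.ab, h.bc, h.ca, ba, cb, ac]
  push_cast
  ring

theorem ph_lc (i j : ℤ) (p q : P) :
    ph A B C (lc i p j q) = (i : ℝ) • ph A B C p + (j : ℝ) • ph A B C q := by
  simp only [ph, lc]
  push_cast
  module

theorem ph_inj (h : Fr A B C) {p q : P} (he : ph A B C p = ph A B C q) : p = q := by
  have z : ph A B C (lc 1 p (-1) q) = 0 := by rw [ph_lc, he]; simp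
  have k := inner_ph h (lc 1 p (-1) q) (lc 1 p (-1) q)
  rw [z, inner_zero_left] at k
  have k0 : (g (lc 1 p (-1) q) (lc 1 p (-1) q) : ℝ) = 0 := by linarith
  have k1 : g (lc 1 p (-1) q) (lc 1 p (-1) q) = 0 := by exact_mod_cast k0
  obtain ⟨a, b, c⟩ := p
  obtain ⟨d, e, f⟩ := q
  simp only [g, lc] at k1
  have s := mul_self_nonneg (1 * a + -1 * d + (1 * b + -1 * e) + (1 * c + -1 * f))
  have s1 := mul_self_nonneg (1 * a + -1 * d)
  have s2 := mul_self_nonneg (1 * b + -1 * e)
  have s3 := mul_self_nonneg (1 * c + -1 * f)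
  have e1 := mul_self_eq_zero.1 (show (1 * a + -1 * d) * (1 * a + -1 * d) = 0 by linarith)
  have e2 := mul_self_eq_zero.1 (show (1 * b + -1 * e) * (1 * b + -1 * e) = 0 by linarith)
  have e3 := mul_self_eq_zero.1 (show (1 * c + -1 * f) * (1 * c + -1 * f) = 0 by linarith)
  refine Prod.ext (by simp only; omega) (Prod.ext (by simp only; omega) (by simp only; omega))

theorem bit_eq (h : Fr A B C) {p q : P}
    (k : inner ℝ (ph A B C p) (ph A B C q) = (0 : ℝ) ∨
      inner ℝ (ph A B C p) (ph A B C q) = (1 / 2 : ℝ)) :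
    inner ℝ (ph A B C p) (ph A B C q) = (bit p q : ℝ) / 2 := by
  unfold bit
  split_ifs with z
  · rw [inner_ph h, z]; simp
  · rcases k with k | k
    · rw [inner_ph h] at k
      exact absurd (by exact_mod_cast (show (g p q : ℝ) = 0 by linarith)) z
    · rw [k]; simp

theorem plane (a b w : E3) (h : dt3 a b w = 0) :
    (inner ℝ a a * inner ℝ b b - inner ℝ a b ^ 2 : ℝ) • w =
      (inner ℝ b b * inner ℝ w a - inner ℝ a b * inner ℝ w b : ℝ) • a +
        (inner ℝ a a * inner ℝ w b - inner ℝ a b * inner ℝ w a : ℝ) • b := by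
  unfold dt3 at h
  ext i
  fin_cases i <;>
    simp only [PiLp.inner_apply, Fin.sum_univ_three, PiLp.add_apply, PiLp.smul_apply,
      smul_eq_mul, RCLike.inner_apply, conj_trivial, Fin.zero_eta, Fin.mk_one, Fin.reduceFinMk]
  · linear_combination (a 1 * b 2 - a 2 * b 1) * h
  · linear_combination (a 2 * b 0 - a 0 * b 2) * h
  · linear_combination (a 0 * b 1 - a 1 * b 0) * h

theorem ty_gram {p q r : ℝ} (h : Ty p q r) : gram p q r = 1 / 2 := by
  rcases h with ⟨a, b, c⟩ | ⟨a, b, c⟩ | ⟨a, b, c⟩ | ⟨a, b, c⟩ <;> rw [a, b, c] <;>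
    norm_num [gram]

theorem ty_val {p q r : ℝ} (h : Ty p q r) :
    (p = 0 ∨ p = 1 / 2) ∧ (q = 0 ∨ q = 1 / 2) ∧ (r = 0 ∨ r = 1 / 2) := by
  rcases h with ⟨a, b, c⟩ | ⟨a, b, c⟩ | ⟨a, b, c⟩ | ⟨a, b, c⟩ <;> simp [a, b, c]

theorem img_base (a b c : P) (l : List P) :
    (fun p => (2 : ℝ) • ph A B C p) '' {p | p ∈ base a b c ++ l} =
      hex ((2 : ℝ) • ph A B C a) ((2 : ℝ) • ph A B C b) ∪
        tri ((2 : ℝ) • ph A B C a) ((2 : ℝ) • ph A B C b) ((2 : ℝ) • ph A B C c) ∪
          (fun p => (2 : ℝ) • ph A B C p) '' {p | p ∈ l} := by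
  have s : ∀ p q : P, (2 : ℝ) • ph A B C (lc 1 p (-1) q) =
      (2 : ℝ) • ph A B C p - (2 : ℝ) • ph A B C q := fun p q => by
    rw [ph_lc]; push_cast; module
  have n : ∀ p : P, (2 : ℝ) • ph A B C (lc (-1) p 0 p) = -((2 : ℝ) • ph A B C p) := fun p => by
    rw [ph_lc]; push_cast; module
  have e : {p | p ∈ base a b c ++ l} = ({a, b, lc 1 b (-1) a, lc (-1) a 0 a, lc (-1) b 0 b,
      lc 1 a (-1) b} ∪ {c, lc 1 c (-1) a, lc 1 c (-1) b} ∪ {p | p ∈ l} : Set P) := by
    ext p
    simp only [base, List.mem_append, List.mem_cons, List.not_mem_nil, mem_ofPred_eq, mem_union,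
      mem_insert_iff, mem_singleton_iff]
    tauto
  rw [e, image_union, image_union]
  simp only [image_insert_eq, image_singleton, s, n, hex, tri]

theorem img3 (x y z : P) : (fun p => (2 : ℝ) • ph A B C p) '' {p | p ∈ [x, y, z]} =
    {(2 : ℝ) • ph A B C x, (2 : ℝ) • ph A B C y, (2 : ℝ) • ph A B C z} := by
  have e : {p | p ∈ [x, y, z]} = ({x, y, z} : Set P) := by ext p; simp
  rw [e]
  simp only [image_insert_eq, image_singleton]

theorem pat_ok (h : Fr A B C) {l : List P}
    (u : ∀ p ∈ l, inner ℝ (ph A B C p) (ph A B C p) = (1 : ℝ)) (k : pat l = true) :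
    PatF ((fun p => (2 : ℝ) • ph A B C p) '' {p | p ∈ l}) ∨
      PatH ((fun p => (2 : ℝ) • ph A B C p) '' {p | p ∈ l}) := by
  simp only [pat, List.any_eq_true, Bool.and_eq_true, Bool.or_eq_true, beq_iff_eq, eqb_iff] at k
  obtain ⟨a, ha, b, hb, ab, c, hc, ac, bc, k⟩ := k
  have s : ∀ p q : P, (2 : ℝ) • ph A B C (lc 1 p (-1) q) =
      (2 : ℝ) • ph A B C p - (2 : ℝ) • ph A B C q := fun p q => by
    rw [ph_lc]; push_cast; module
  have n : ∀ p : P, (2 : ℝ) • ph A B C (lc (-1) p 0 p) = -((2 : ℝ) • ph A B C p) := fun p => by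
    rw [ph_lc]; push_cast; module
  have i4 : ∀ p ∈ l, inner ℝ ((2 : ℝ) • ph A B C p) ((2 : ℝ) • ph A B C p) = (4 : ℝ) :=
    fun p hp => by rw [real_inner_smul_left, real_inner_smul_right, u p hp]; norm_num
  have i2 : ∀ p q, g p q = 59049 →
      inner ℝ ((2 : ℝ) • ph A B C p) ((2 : ℝ) • ph A B C q) = (2 : ℝ) :=
    fun p q e => by rw [real_inner_smul_left, real_inner_smul_right, inner_ph h, e]; norm_num
  have R : Reg3 ((2 : ℝ) • ph A B C a) ((2 : ℝ) • ph A B C b) ((2 : ℝ) • ph A B C c) :=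
    ⟨⟨i4 a ha, i4 b hb, i2 a b ab⟩, i4 c hc, i2 a c ac, i2 b c bc⟩
  have sm : ∀ m, same l m = true → {p | p ∈ l} = {p | p ∈ m} := fun m e => by
    simp only [same, Bool.and_eq_true, List.all_eq_true, mem_iff] at e
    ext p
    exact ⟨e.1 p, e.2 p⟩
  rcases k with k | ⟨e, k⟩
  · refine Or.inl ⟨_, _, _, R, ?_⟩
    rw [sm _ k, lF, img_base, img3, s, s, n]
  · refine Or.inr ⟨_, _, _, R, ?_⟩
    have e2 := congrArg (ph A B C) e
    rw [ph_lc] at e2
    have e3 : ph A B C (mir a b c) = (2 : ℝ) • (ph A B C a + ph A B C b) - (3 : ℝ) • ph A B C c := by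
      rw [mir, ph_lc, ph_lc]; push_cast; module
    have e4 : (2 : ℝ) • ph A B C (dv (mir a b c) 3) =
        (2 / 3 : ℝ) • ((2 : ℝ) • ph A B C a + (2 : ℝ) • ph A B C b) - (2 : ℝ) • ph A B C c := by
      rw [e3] at e2
      push_cast at e2
      linear_combination (norm := module) (2 / 3 : ℝ) • e2
    rw [sm _ k, lH, img_base, img3, s, s, e4]
    rfl

variable {hs : ℝ} {V : Type} [Fintype V] [DecidableEq V] (t : Tri hs V)

/-- a dart with the given coordinates. -/
def D (A B C : E3) (d : P × P × P) : Prop :=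
  ∃ a b c, (a, b, c) ∈ t.T ∧ t.u a = ph A B C d.1 ∧ t.u b = ph A B C d.2.1 ∧
    t.u c = ph A B C d.2.2

theorem uu (v : V) : inner ℝ (t.u v) (t.u v) = (1 : ℝ) := by
  rw [real_inner_self_eq_norm_sq, t.unit]; norm_num

theorem step (h : Fr A B C) (ty : ∀ a b c, (a, b, c) ∈ t.T → Ty (t.x a b) (t.x b c) (t.x c a))
    {a b c d : V} (m : (a, b, c) ∈ t.T) (m2 : (b, a, d) ∈ t.T) {p q r : P}
    (ea : t.u a = ph A B C p) (eb : t.u b = ph A B C q) (ec : t.u c = ph A B C r) {y z : ℤ}
    (hy : t.x a d = (y : ℝ) / 2) (hz : t.x d b = (z : ℝ) / 2)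
    (k : lc (4 - bit p q) (cand p q r y z) (4 - bit p q) r = num p q r y z) :
    t.u d = ph A B C (cand p q r y z) := by
  have d1 := t.det_eq _ _ _ m
  have d2 := t.det_eq _ _ _ m2
  rw [ty_gram (ty _ _ _ m)] at d1
  rw [ty_gram (ty _ _ _ m2)] at d2
  have d0 : dt3 (t.u a) (t.u b) (t.u c + t.u d) = 0 := by
    rw [← d1] at d2
    simp only [dt3, PiLp.add_apply] at d2 ⊢
    linear_combination -d2
  have pl := plane _ _ _ d0
  obtain ⟨v1, v2, v3⟩ := ty_val (ty _ _ _ m)
  rw [t.x_eq, ea, eb] at v1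
  rw [t.x_eq, eb, ec] at v2
  rw [t.x_eq, ec, ea] at v3
  have b1 := bit_eq h v1
  have b2 := bit_eq h v2
  have b3 := bit_eq h v3
  rw [← ea, ← eb] at b1
  rw [← eb, ← ec, real_inner_comm] at b2
  rw [← ec, ← ea] at b3
  rw [t.x_eq, real_inner_comm] at hy
  rw [t.x_eq] at hz
  rw [uu, uu, inner_add_left, inner_add_left, b1, b2, b3, hy, hz] at pl
  have k2 := congrArg (ph A B C) k
  rw [num, ph_lc, ph_lc, ← ea, ← eb, ← ec] at k2
  push_cast at k2
  have bb : bit p q = 0 ∨ bit p q = 1 := by unfold bit; split_ifs <;> simp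
  rcases bb with bb | bb <;> rw [bb] at pl k2 <;> push_cast at pl k2
  · linear_combination (norm := module) pl - (1 / 4 : ℝ) • k2
  · linear_combination (norm := module) (4 / 3 : ℝ) • pl - (1 / 3 : ℝ) • k2

theorem sound (h : Fr A B C) (hc : Fintype.card V = 12)
    (sp : ∀ a b, a ≠ b → t.x a b = 1 / 2 ∨ t.x a b < 87 / 512)
    (ty : ∀ a b c, (a, b, c) ∈ t.T → Ty (t.x a b) (t.x b c) (t.x c a)) :
    ∀ (f : ℕ) (ps : List P) (ds : List (P × P × P)), go f ps ds = true → ps.Nodup →
      (∀ p ∈ ps, ∃ v, t.u v = ph A B C p) → (∀ d ∈ ds, D t A B C d) →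
      PatF (range fun v => (2 : ℝ) • t.u v) ∨ PatH (range fun v => (2 : ℝ) • t.u v) := by
  intro f
  induction f with
  | zero => intro ps ds k; simp [go] at k
  | succ f ih =>
    intro ps ds k nd hp hd
    rw [go] at k
    split_ifs at k with l
    · have l12 : ps.length = 12 := by simpa using l
      choose w hw using hp
      have inj : Function.Injective fun p : {p // p ∈ ps.toFinset} =>
          w p.1 (List.mem_toFinset.1 p.2) := fun p q e => by
        have e1 := hw p.1 (List.mem_toFinset.1 p.2)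
        have e2 := hw q.1 (List.mem_toFinset.1 q.2)
        simp only at e
        rw [e] at e1
        exact Subtype.ext (ph_inj h (e1.symm.trans e2))
      have bij := (Fintype.bijective_iff_injective_and_card _).2 ⟨inj, by
        rw [Fintype.card_coe, List.toFinset_card_of_nodup nd, l12, hc]⟩
      have e : (range fun v => (2 : ℝ) • t.u v) =
          (fun p => (2 : ℝ) • ph A B C p) '' {p | p ∈ ps} := by
        ext x
        constructor
        · rintro ⟨v, rfl⟩
          obtain ⟨p, rfl⟩ := bij.2 v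
          exact ⟨p.1, List.mem_toFinset.1 p.2, by simp only [hw]⟩
        · rintro ⟨p, m, rfl⟩
          exact ⟨w p m, by simp only [hw]⟩
      rw [e]
      exact pat_ok h (fun p m => by rw [← hw p m]; exact uu t _) k
    · split at k
      · simp at k
      · rename_i d fd
        obtain ⟨a, b, c, m, ea, eb, ec⟩ := hd d (List.mem_of_find?_eq_some fd)
        obtain ⟨e, -, m2⟩ := t.nbr _ _ _ m
        rw [List.all_eq_true] at k
        have fin : ∀ y z : ℤ, (y, z) ∈ [((1 : ℤ), (1 : ℤ)), (0, 1), (1, 0)] →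
            t.x a e = (y : ℝ) / 2 → t.x e b = (z : ℝ) / 2 → (y + z = 2 ∨ t.x b a = 1 / 2) →
            PatF (range fun v => (2 : ℝ) • t.u v) ∨ PatH (range fun v => (2 : ℝ) • t.u v) := by
          intro y z mw hy hz hx
          have k1 := k _ mw
          simp only [Bool.or_eq_true, Bool.and_eq_true, beq_iff_eq, Bool.not_eq_true',
            beq_eq_false_iff_ne, eqb_iff, List.any_eq_true] at k1
          rcases k1 with ⟨k1, k2⟩ | ⟨k1, k2⟩
          · rcases hx with hx | hx
            · exact absurd hx k2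
            · rw [t.x_symm, t.x_eq, ea, eb] at hx
              have := bit_eq h (Or.inr hx)
              rw [hx, k1] at this
              norm_num at this
          have ee := step t h ty m m2 ea eb ec hy hz k1
          rcases k2 with ⟨p, mp, bd⟩ | k2
          · exfalso
            obtain ⟨v, hv⟩ := hp p mp
            have iv := inner_ph h p (cand d.1 d.2.1 d.2.2 y z)
            rw [← hv, ← ee] at iv
            simp only [bad, Bool.and_eq_true, Bool.not_eq_true', beq_eq_false_iff_ne,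
              decide_eq_true_eq] at bd
            obtain ⟨n1, n2, n3⟩ := bd
            have n4 : (87 * 59049 : ℝ) ≤ 256 * (g p (cand d.1 d.2.1 d.2.2 y z) : ℝ) := by
              exact_mod_cast n3
            by_cases ve : v = e
            · rw [ve, uu] at iv
              exact n1 (by exact_mod_cast
                (show (g p (cand d.1 d.2.1 d.2.2 y z) : ℝ) = 2 * 59049 by linarith))
            · rcases sp v e ve with s | s <;> rw [t.x_eq, iv] at s
              · exact n2 (by exact_mod_cast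
                  (show (g p (cand d.1 d.2.1 d.2.2 y z) : ℝ) = 59049 by linarith))
              · linarith
          · refine ih _ _ k2 ?_ ?_ ?_
            · split_ifs with mm
              · exact nd
              · rw [mem_iff] at mm
                exact List.nodup_append.2 ⟨nd, List.nodup_singleton _, fun x hx y hy => by
                  rw [List.mem_singleton.1 hy]; rintro rfl; exact mm hx⟩
            · intro p mp
              split_ifs at mp
              · exact hp p mp
              · rcases List.mem_append.1 mp with mp | mp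
                · exact hp p mp
                · rw [List.mem_singleton.1 mp]; exact ⟨e, ee⟩
            · intro x mx
              rcases List.mem_append.1 mx with mx | mx
              · exact hd x mx
              · simp only [List.mem_cons, List.not_mem_nil, or_false] at mx
                rcases mx with rfl | rfl | rfl
                · exact ⟨b, a, e, m2, eb, ea, ee⟩
                · exact ⟨a, e, b, t.rot _ _ _ m2, ea, ee, eb⟩
                · exact ⟨e, b, a, t.rot _ _ _ (t.rot _ _ _ m2), ee, eb, ea⟩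
        rcases ty _ _ _ m2 with ⟨x1, x2, x3⟩ | ⟨x1, x2, x3⟩ | ⟨x1, x2, x3⟩ | ⟨x1, x2, x3⟩
        · exact fin 1 1 (by simp) (by simpa using x2) (by simpa using x3) (Or.inr x1)
        · exact fin 1 1 (by simp) (by simpa using x2) (by simpa using x3) (Or.inl rfl)
        · exact fin 0 1 (by simp) (by simpa using x2) (by simpa using x3) (Or.inr x1)
        · exact fin 1 0 (by simp) (by simpa using x2) (by simpa using x3) (Or.inr x1)

end

end PT

theorem patS : PatS := by
  rintro hs V _ _ t hc sp ty ⟨a, b, c, m, ab, bc, ca⟩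
  rw [t.x_eq] at ab bc ca
  have h : PT.Fr (t.u a) (t.u b) (t.u c) := ⟨PT.uu t a, PT.uu t b, PT.uu t c, ab, bc, ca⟩
  have e1 : t.u a = PT.ph (t.u a) (t.u b) (t.u c) (243, 0, 0) := by simp [PT.ph]
  have e2 : t.u b = PT.ph (t.u a) (t.u b) (t.u c) (0, 243, 0) := by simp [PT.ph]
  have e3 : t.u c = PT.ph (t.u a) (t.u b) (t.u c) (0, 0, 243) := by simp [PT.ph]
  refine PT.sound t h hc sp ty _ _ _ PT.run (by decide) ?_ ?_
  · intro p mp
    simp only [List.mem_cons, List.not_mem_nil, or_false] at mp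
    rcases mp with rfl | rfl | rfl
    exacts [⟨a, e1⟩, ⟨b, e2⟩, ⟨c, e3⟩]
  · intro d md
    simp only [List.mem_cons, List.not_mem_nil, or_false] at md
    rcases md with rfl | rfl | rfl
    · exact ⟨a, b, c, m, e1, e2, e3⟩
    · exact ⟨b, c, a, t.rot _ _ _ m, e2, e3, e1⟩
    · exact ⟨c, a, b, t.rot _ _ _ (t.rot _ _ _ m), e3, e1, e2⟩

end Pool.Agent.Lib.MP_f3b2fd_co.KU
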