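import Pool.Agent.Lib.MP_f3b2fd_co.KEP.C.Fin
import Pool.Agent.Lib.MP_f3b2fd_co.KEP.B.Main
import Pool.Agent.Lib.MP_f3b2fd_co.KEP.B.Trig

/-! The periodic packings of largest soft density: definitions and statements. -/

set_option autoImplicit false

namespace Pool.Agent.Lib.MP_f3b2fd_co.KU

open MeasureTheory Set Real Metric KEP

noncomputable section

/-- every centre has twelve neighbours at distance two and all other centres are far. -/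
def Kiss (hs : ℝ) (X : Set E3) : Prop :=
  ∀ v ∈ X, ∃ N : Finset E3, N.card = 12 ∧ (∀ w ∈ N, w ∈ X ∧ dist v w = 2) ∧
    ∀ w ∈ X, w ≠ v → w ∈ N ∨ 2 * hs < dist v w

/-- invariance under three independent translations. -/
def Per (X : Set E3) : Prop :=
  ∃ b : Fin 3 → E3, LinearIndependent ℝ b ∧ ∀ i x, x + b i ∈ X ↔ x ∈ X

/-- two vectors of length two at sixty degrees. -/
structure Reg2 (a b : E3) : Prop where
  aa : inner ℝ a a = (4 : ℝ)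
  bb : inner ℝ b b = (4 : ℝ)
  ab : inner ℝ a b = (2 : ℝ)

/-- a regular tetrahedron `0, a, b, c` of side two. -/
structure Reg3 (a b c : E3) : Prop extends Reg2 a b where
  cc : inner ℝ c c = (4 : ℝ)
  ac : inner ℝ a c = (2 : ℝ)
  bc : inner ℝ b c = (2 : ℝ)

/-- the height vector between two layers. -/
structure Nrm (a b n : E3) : Prop where
  an : inner ℝ a n = (0 : ℝ)
  bn : inner ℝ b n = (0 : ℝ)
  nn : inner ℝ n n = (8 / 3 : ℝ)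

/-- the hexagon. -/
def hex (a b : E3) : Set E3 := {a, b, b - a, -a, -b, a - b}

/-- the triangle above the hexagon. -/
def tri (a b c : E3) : Set E3 := {c, c - a, c - b}

/-- the cubic pattern. -/
def PatF (K : Set E3) : Prop :=
  ∃ a b c, Reg3 a b c ∧ K = hex a b ∪ tri a b c ∪ {-c, a - c, b - c}

/-- the hexagonal pattern. -/
def PatH (K : Set E3) : Prop :=
  ∃ a b c, Reg3 a b c ∧ K = hex a b ∪ tri a b c ∪ tri a b ((2 / 3 : ℝ) • (a + b) - c)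

/-- the touching neighbours, seen from `v`. -/
def nb (X : Set E3) (v : E3) : Set E3 := {u | v + u ∈ X ∧ ‖u‖ = 2}

/-- a full triangular layer through `v` lies in `X`. -/
def Lay (X : Set E3) (v a b : E3) : Prop := ∀ i j : ℤ, v + (i : ℝ) • a + (j : ℝ) • b ∈ X

/-- an equilateral triangle or half a square. -/
def Ty (p q r : ℝ) : Prop :=
  (p = 1 / 2 ∧ q = 1 / 2 ∧ r = 1 / 2) ∨ (p = 0 ∧ q = 1 / 2 ∧ r = 1 / 2) ∨
    (p = 1 / 2 ∧ q = 0 ∧ r = 1 / 2) ∨ (p = 1 / 2 ∧ q = 1 / 2 ∧ r = 0)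

/-- a triangle with small circumradius. -/
def Rad (p q r : ℝ) : Prop := 0 < gram p q r ∧ 425 / 256 * cof p q r < 4 * gram p q r

/-- the sum of the three angles. -/
def sm (p q r : ℝ) : ℝ := ang p q r + ang q r p + ang r p q

/-- the shift sequences of the stackings. -/
def Steps (s : ℤ → ℤ) : Prop := ∀ k, s (k + 1) - s k = 1 ∨ s (k + 1) - s k = -1

end

/-- the upper bound with an explicit range, and the case of equality. -/
def UpS : Prop := ∀ (a b hs δ : ℝ) (f : ℝ → ℝ), 8 * a - 96 * b = √32 → 1 / 40 ≤ b →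
  1 / 1024 ≤ δ → 1 ≤ hs →
  (∀ V : Finset E3, KA.Pack V →
    8 * a * V.card - 8 * b * ∑ v ∈ V, ∑ w ∈ V.erase v, f (dist v w / 2) ≤
      (volume (⋃ v ∈ V, ball v √2)).toReal) →
  StB f hs δ → (∀ h, hs < h → f h = 0) → (∀ h, 1 ≤ h → h ≤ hs → 2 * (h - 1) ≤ 1 - f h) →
  ∀ l : ℝ, 0 < l → l < 1 / 1000 → ∀ X : Set E3, (X.PairwiseDisjoint fun x => ball x 1) →
    KC.sd X l ≤ ENNReal.ofReal (Wv l / √32) ∧
    (Per X → KC.sd X l = ENNReal.ofReal (Wv l / √32) → X.Nonempty ∧ Kiss hs X)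

/-- bounds for single angles. -/
structure AngS : Prop where
  a0 : ang (1 / 2) (1 / 2) (1 / 2) = KA.th0
  a1 : ∀ x, x < 87 / 512 → Rad (1 / 2) (1 / 2) x →
    164 / 100 ≤ ang (1 / 2) (1 / 2) x ∧ ang (1 / 2) (1 / 2) x ≤ 22 / 10
  b1 : ∀ x, x < 87 / 512 → Rad (1 / 2) (1 / 2) x →
    82 / 100 ≤ ang (1 / 2) x (1 / 2) ∧ ang (1 / 2) x (1 / 2) ≤ 11 / 10
  b2 : ∀ q r, q < 87 / 512 → r < 87 / 512 → Rad (1 / 2) q r → 82 / 100 ≤ ang (1 / 2) q r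
  c2 : ∀ q r, q < 87 / 512 → r < 87 / 512 → Rad (1 / 2) q r → 97 / 100 ≤ ang q r (1 / 2)
  c3 : ∀ p q r, p < 87 / 512 → q < 87 / 512 → r < 87 / 512 → Rad p q r → 97 / 100 ≤ ang p q r

/-- bounds for areas. -/
structure AreaS : Prop where
  t1 : ∀ x, x < 87 / 512 → Rad (1 / 2) (1 / 2) x →
    3 * KA.th0 + 1101 / 10000 ≤ sm (1 / 2) (1 / 2) x
  m1 : ∀ x, x < 87 / 512 → Rad (1 / 2) (1 / 2) x → sm (1 / 2) (1 / 2) x ≤ 2 * π - 2 * KA.th0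
  e1 : ∀ x, x < 87 / 512 → Rad (1 / 2) (1 / 2) x → sm (1 / 2) (1 / 2) x = 2 * π - 2 * KA.th0 →
    x = 0
  t2 : ∀ q r, q < 87 / 512 → r < 87 / 512 → Rad (1 / 2) q r →
    3 * KA.th0 + 2 * (1101 / 10000) ≤ sm (1 / 2) q r
  t3 : ∀ p q r, p < 87 / 512 → q < 87 / 512 → r < 87 / 512 → Rad p q r →
    3 * KA.th0 + 3 * (1101 / 10000) ≤ sm p q r

/-- every vertex has four short edges. -/
def FourS : Prop := ∀ (hs : ℝ) (V : Type) [Fintype V] [DecidableEq V] (t : Tri hs V),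
  425 / 256 ≤ hs ^ 2 → Fintype.card V = 12 → (∀ a b, a ≠ b → t.x a b = 1 / 2 ∨ t.x a b < 87 / 512) →
  ∀ v, (t.T.filter fun d => d.1 = v ∧ t.x d.1 d.2.1 = 1 / 2).card = 4 ∧
    (t.T.filter fun d => d.1 = v ∧ t.x d.1 d.2.2 = 1 / 2).card = 4

/-- all triangles are equilateral or half squares. -/
def TypS : Prop := ∀ (hs : ℝ) (V : Type) [Fintype V] [DecidableEq V] (t : Tri hs V),
  425 / 256 ≤ hs ^ 2 → Fintype.card V = 12 → (∀ a b, a ≠ b → t.x a b = 1 / 2 ∨ t.x a b < 87 / 512) →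
  (∀ a b c, (a, b, c) ∈ t.T → Ty (t.x a b) (t.x b c) (t.x c a)) ∧
    ∃ a b c, (a, b, c) ∈ t.T ∧ t.x a b = 1 / 2 ∧ t.x b c = 1 / 2 ∧ t.x c a = 1 / 2

/-- the twelve directions form one of the two patterns. -/
def PatS : Prop := ∀ (hs : ℝ) (V : Type) [Fintype V] [DecidableEq V] (t : Tri hs V),
  Fintype.card V = 12 → (∀ a b, a ≠ b → t.x a b = 1 / 2 ∨ t.x a b < 87 / 512) →
  (∀ a b c, (a, b, c) ∈ t.T → Ty (t.x a b) (t.x b c) (t.x c a)) →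
  (∃ a b c, (a, b, c) ∈ t.T ∧ t.x a b = 1 / 2 ∧ t.x b c = 1 / 2 ∧ t.x c a = 1 / 2) →
  PatF (range fun v => (2 : ℝ) • t.u v) ∨ PatH (range fun v => (2 : ℝ) • t.u v)

/-- the pattern at every centre. -/
def LocS : Prop := ∀ (hs δ : ℝ) (f : ℝ → ℝ) (X : Set E3), 1 ≤ hs → 425 / 256 ≤ hs ^ 2 →
  hs ^ 2 ≤ 2 → 0 < δ → (∀ h, 0 ≤ f h) → f 1 = 1 → StB f hs δ →
  (∀ x ∈ X, ∀ w ∈ X, x ≠ w → 2 ≤ dist x w) → Kiss hs X →
  ∀ v ∈ X, PatF (nb X v) ∨ PatH (nb X v)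

/-- a first layer. -/
def Lay1S : Prop := ∀ X : Set E3, X.Nonempty → (∀ v ∈ X, PatF (nb X v) ∨ PatH (nb X v)) →
  ∃ v a b, Reg2 a b ∧ Lay X v a b

/-- a pattern that contains a hexagon has a triangle on each side of it. -/
def CapS : Prop := ∀ (K : Set E3) (a b n : E3), PatF K ∨ PatH K → Reg2 a b → Nrm a b n →
  hex a b ⊆ K → tri a b (n + (1 / 3 : ℝ) • (a + b)) ⊆ K ∨
    tri (-a) (-b) (n - (1 / 3 : ℝ) • (a + b)) ⊆ K

/-- the next layer. -/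
def Lay2S : Prop := ∀ (X : Set E3) (v a b n : E3), (∀ x ∈ X, ∀ w ∈ X, x ≠ w → 2 ≤ dist x w) →
  (∀ v ∈ X, PatF (nb X v) ∨ PatH (nb X v)) → Reg2 a b → Nrm a b n → Lay X v a b →
  Lay X (v + n + (1 / 3 : ℝ) • (a + b)) a b ∨ Lay X (v + n - (1 / 3 : ℝ) • (a + b)) a b

/-- every point is close to a stacking. -/
def SatS : Prop := ∀ s : ℤ → ℤ, ∀ y : E3, ∃ i j k, dist y (KC.bp s i j k) < 2

/-- a frame is the image of the standard one. -/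
def FrameS : Prop := ∀ v a b : E3, Reg2 a b → ∃ n, Nrm a b n ∧ ∃ g : E3 ≃ᵢ E3,
  ∀ (s : ℤ → ℤ) (i j k : ℤ), g (KC.bp s i j k) =
    v + (k : ℝ) • n + ((s k : ℝ) / 3) • (a + b) + (i : ℝ) • a + ((j - i : ℤ) : ℝ) • b

/-- the packing is a stacking. -/
def LayS : Prop := ∀ X : Set E3, (∀ x ∈ X, ∀ w ∈ X, x ≠ w → 2 ≤ dist x w) → X.Nonempty →
  (∀ v ∈ X, PatF (nb X v) ∨ PatH (nb X v)) →
  ∃ s, Steps s ∧ ∃ g : E3 ≃ᵢ E3, X = g '' {x | ∃ i j k, x = KC.bp s i j k}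

/-- the soft density does not change under isometries. -/
def IsoS : Prop := ∀ (g : E3 ≃ᵢ E3) (X : Set E3) (l : ℝ), KC.sd (g '' X) l = KC.sd X l

/-- the final statement. -/
def FinU : Prop := ∀ l : ℝ, 0 < l → l < 1 / 1000 →
  (∀ X : Set E3, (X.PairwiseDisjoint fun x => ball x 1) →
    KC.sd X l ≤ ENNReal.ofReal (Wv l / √32)) ∧
  (∀ s, Steps s → ∀ X : Set E3, X = {x | ∃ i j k, x = KC.bp s i j k} →
    (X.PairwiseDisjoint fun x => ball x 1) ∧ KC.sd X l = ENNReal.ofReal (Wv l / √32)) ∧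
  ∀ X : Set E3, (X.PairwiseDisjoint fun x => ball x 1) → Per X →
    (KC.sd X l = ENNReal.ofReal (Wv l / √32) ↔
      ∃ s, Steps s ∧ ∃ g : E3 ≃ᵢ E3, X = g '' {x | ∃ i j k, x = KC.bp s i j k})

theorem finU (hU : UpS) (hL : LocS) (hY : LayS) (hI : IsoS) {hs δ : ℝ} {f : ℝ → ℝ}
    (h1 : 1 ≤ hs) (h2 : 425 / 256 ≤ hs ^ 2) (h3 : hs ^ 2 ≤ 2) (hδ : 1 / 1024 ≤ δ)
    (f0 : ∀ h, 0 ≤ f h) (f1 : f 1 = 1)
    (hA : ∀ V : Finset E3, KA.Pack V →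
      8 * KA.m1 * V.card - 8 * KA.m2 * ∑ v ∈ V, ∑ w ∈ V.erase v, f (dist v w / 2) ≤
        (volume (⋃ v ∈ V, ball v √2)).toReal)
    (hB : StB f hs δ) (hz : ∀ h, hs < h → f h = 0)
    (hsl : ∀ h, 1 ≤ h → h ≤ hs → 2 * (h - 1) ≤ 1 - f h) : FinU := by
  intro l l0 l1
  have up := hU _ _ hs δ f KA.hab (by linarith [KA.m2_lo]) hδ h1 hA hB hz hsl l l0 l1
  have bar : ∀ s, Steps s → ∀ X : Set E3, X = {x | ∃ i j k, x = KC.bp s i j k} →
      (X.PairwiseDisjoint fun x => ball x 1) ∧ KC.sd X l = ENNReal.ofReal (Wv l / √32) :=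
    fun s hs X hX => by
      obtain ⟨b1, b2⟩ := KC.barlow hs hX
      exact ⟨b1, le_antisymm (up X b1).1 (b2 l l0 (by linarith))⟩
  refine ⟨fun X hX => (up X hX).1, bar, fun X hX hP => ⟨fun e => ?_, ?_⟩⟩
  · obtain ⟨n, k⟩ := (up X hX).2 hP e
    have p : ∀ x ∈ X, ∀ w ∈ X, x ≠ w → 2 ≤ dist x w := fun x hx w hw h => by
      have := (disjoint_ball_ball_iff one_pos one_pos).1 (hX hx hw h)
      linarith
    exact hY X p n (hL hs δ f X h1 h2 h3 (by linarith) f0 f1 hB p k)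
  · rintro ⟨s, k, g, rfl⟩
    rw [hI]
    exact (bar s k _ rfl).2

end Pool.Agent.Lib.MP_f3b2fd_co.KU
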