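import Pool.Agent.Lib.MP_f3b2fd_co.KEP.C.Fin
import Pool.Agent.Lib.MP_f3b2fd_co.KEP.B.Trig
import Pool.Agent.Lib.MP_f3b2fd_co.KEP.N.Data

/-! The periodic packings of largest soft density: definitions and statements. -/

namespace Pool.Agent.Lib.MP_f3b2fd_co.KU

open MeasureTheory Set Real Metric
open scoped ENNReal RealInnerProductSpace

noncomputable section

/-- the end of the support of the score function. -/
def hs : ℝ := √425 / 16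

/-- the conclusion of part A. -/
def HA : Prop := ∀ V : Finset E3, KA.Pack V →
  8 * KA.m1 * V.card - 8 * KA.m2 * ∑ v ∈ V, ∑ w ∈ V.erase v, KN.ff (dist v w / 2) ≤
    (volume (⋃ v ∈ V, ball v √2)).toReal

/-- the conclusion of part B. -/
def HB : Prop := KEP.StB KN.ff hs (1 / 1024)

/-- packings. -/
def Pk (X : Set E3) : Prop := X.PairwiseDisjoint fun x => ball x 1

/-- invariant under three independent translations. -/
def Per (X : Set E3) : Prop := ∃ b : Module.Basis (Fin 3) ℝ E3, ∀ i x, x ∈ X ↔ x + b i ∈ X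

/-- the directions of the contacts. -/
def nb (X : Set E3) (v : E3) : Set E3 := {u | ‖u‖ = 1 ∧ v + (2 : ℝ) • u ∈ X}

/-- twelve contacts everywhere and a gap. -/
def Perf (X : Set E3) : Prop := X.Nonempty ∧
  (∀ v ∈ X, ∀ w ∈ X, v = w ∨ dist v w = 2 ∨ 2 * hs < dist v w) ∧ ∀ v ∈ X, (nb X v).ncard = 12

/-- unit vectors with a gap. -/
def Gap (S : Set E3) : Prop := (∀ u ∈ S, ‖u‖ = 1) ∧
  ∀ u ∈ S, ∀ w ∈ S, u = w ∨ ⟪u, w⟫ = 1 / 2 ∨ ⟪u, w⟫ < 87 / 512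

/-- walking round a point: the next face is a triangle or a square. -/
def Wlk (S : Set E3) : Prop := ∀ a ∈ S, ∃ P : Set E3, P.Nonempty ∧ ∀ p ∈ P, p ∈ S ∧
  ⟪a, p⟫ = 1 / 2 ∧ ∃ r ∈ P, 0 < KEP.dt3 a p r ∧
    (⟪p, r⟫ = 1 / 2 ∨ (⟪p, r⟫ = 0 ∧ p + r - a ∈ S))

/-- the four contacts of every point. -/
def Star (S : Set E3) : Prop := ∀ a ∈ S, ∃ b ∈ S, ∃ c ∈ S, ∃ e ∈ S, ⟪a, b⟫ = 1 / 2 ∧
  ⟪a, c⟫ = 1 / 2 ∧ ⟪b, c⟫ = 1 / 2 ∧ a - b ∈ S ∧ c - b ∈ S ∧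
  ((e = a - c ∧ b - c ∈ S) ∨ (e = (2 / 3 : ℝ) • (a + b) - c ∧ e - b ∈ S)) ∧
  ∀ u ∈ S, ⟪a, u⟫ = 1 / 2 → u = b ∨ u = c ∨ u = a - b ∨ u = e

/-- all centres have such contacts. -/
def Loc (X : Set E3) : Prop := ∀ v ∈ X, (nb X v).Nonempty ∧ Gap (nb X v) ∧ Star (nb X v)

/-- a frame: two unit vectors at sixty degrees and a normal vector. -/
def Fr (a b n : E3) : Prop := ‖a‖ = 1 ∧ ‖b‖ = 1 ∧ ⟪a, b⟫ = 1 / 2 ∧ ⟪a, n⟫ = 0 ∧ ⟪b, n⟫ = 0 ∧
  ⟪n, n⟫ = 2 / 3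

/-- a full triangular layer. -/
def Lay (X : Set E3) (x a b : E3) : Prop := ∀ i j : ℤ, x + (2 * i : ℝ) • a + (2 * j : ℝ) • b ∈ X

/-- shift sequences. -/
def Stp (s : ℤ → ℤ) : Prop := ∀ k, s (k + 1) - s k = 1 ∨ s (k + 1) - s k = -1

/-- a stacking. -/
def bar (s : ℤ → ℤ) : Set E3 := {x | ∃ i j k, x = KC.bp s i j k}

end

/-- the upper bound with an explicit range. -/
def UpS : Prop := HA → HB → ∀ l : ℝ, 0 < l → l ≤ 1 / 1000 → ∀ X : Set E3, Pk X →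
  KC.sd X l ≤ ENNReal.ofReal (Wv l / √32)

/-- optimal periodic packings have twelve contacts everywhere. -/
def PerfS : Prop := HA → HB → ∀ l : ℝ, 0 < l → l ≤ 1 / 1000 → ∀ X : Set E3, Pk X → Per X →
  ENNReal.ofReal (Wv l / √32) ≤ KC.sd X l → Perf X

/-- the triangles of a kissing configuration with a gap. -/
def KisS : Prop := ∀ (V : Type) [Fintype V] [DecidableEq V] (t : KEP.Tri hs V),
  Fintype.card V = 12 → (∀ a b, a = b ∨ t.x a b = 1 / 2 ∨ t.x a b < 87 / 512) →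
  ∀ a b c, (a, b, c) ∈ t.T →
    (t.x a b = 1 / 2 ∧ t.x b c = 1 / 2 ∧ t.x c a = 1 / 2) ∨
    (t.x a b = 0 ∧ t.x b c = 1 / 2 ∧ t.x c a = 1 / 2) ∨
    (t.x a b = 1 / 2 ∧ t.x b c = 0 ∧ t.x c a = 1 / 2) ∨
    (t.x a b = 1 / 2 ∧ t.x b c = 1 / 2 ∧ t.x c a = 0)

def WlkS : Prop := HB → ∀ S : Set E3, Gap S → S.ncard = 12 → Wlk S

def StarS : Prop := ∀ S : Set E3, Gap S → Wlk S → Star S

def FirstS : Prop := ∀ X : Set E3, X.Nonempty → Loc X →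
  ∃ x a b n, Fr a b n ∧ Lay X x a b

def NextS : Prop := ∀ (X : Set E3) (x a b n : E3), Loc X → Fr a b n → Lay X x a b →
  Lay X (x + (2 : ℝ) • n + (2 / 3 : ℝ) • (a + b)) a b ∨
  Lay X (x + (2 : ℝ) • n - (2 / 3 : ℝ) • (a + b)) a b

/-- from the layers to an isometric copy of a stacking. -/
def IsoS : Prop := ∀ (X : Set E3) (x a b n : E3), Pk X → Fr a b n → Lay X x a b →
  (∀ y m : E3, (m = n ∨ m = -n) → Lay X y a b →
    Lay X (y + (2 : ℝ) • m + (2 / 3 : ℝ) • (a + b)) a b ∨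
    Lay X (y + (2 : ℝ) • m - (2 / 3 : ℝ) • (a + b)) a b) →
  ∃ s, Stp s ∧ ∃ φ : E3 ≃ᵢ E3, X = φ '' bar s

/-- isometric copies of stackings attain the value. -/
def BackS : Prop := ∀ l : ℝ, 0 < l → l ≤ 1 / 1000 → ∀ s, Stp s → ∀ φ : E3 ≃ᵢ E3,
  Pk (φ '' bar s) ∧ ENNReal.ofReal (Wv l / √32) ≤ KC.sd (φ '' bar s) l

/-- the gap among the contact directions. -/
theorem gap_nb {X : Set E3} (h : Perf X) (v : E3) : Gap (nb X v) := by
  refine ⟨fun u hu => hu.1, fun u hu w hw => ?_⟩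
  have e : dist (v + (2 : ℝ) • u) (v + (2 : ℝ) • w) ^ 2 = 8 - 8 * ⟪u, w⟫ := by
    rw [dist_add_left, dist_eq_norm, ← smul_sub, norm_smul, mul_pow, norm_sub_sq_real, hu.1, hw.1]
    norm_num
    ring
  rcases h.2.1 _ hu.2 _ hw.2 with k | k | k
  · exact Or.inl (smul_right_injective E3 two_ne_zero (add_left_cancel k))
  · rw [k] at e
    exact Or.inr (Or.inl (by linarith))
  · have q : (2 * hs) ^ 2 = 425 / 64 := by
      rw [hs, mul_pow, div_pow, Real.sq_sqrt (by norm_num)]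
      norm_num
    have p : 0 ≤ 2 * hs := by
      unfold hs
      positivity
    have := pow_lt_pow_left₀ k p two_ne_zero
    exact Or.inr (Or.inr (by linarith))

/-- the classification. -/
theorem classify (h1 : PerfS) (h2 : WlkS) (h3 : StarS) (h4 : FirstS) (h5 : NextS) (h6 : IsoS)
    (hA : HA) (hB : HB) (l : ℝ) (l0 : 0 < l) (l1 : l ≤ 1 / 1000) (X : Set E3) (hX : Pk X)
    (hP : Per X) (h : ENNReal.ofReal (Wv l / √32) ≤ KC.sd X l) :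
    ∃ s, Stp s ∧ ∃ φ : E3 ≃ᵢ E3, X = φ '' bar s := by
  have p := h1 hA hB l l0 l1 X hX hP h
  have L : Loc X := fun v hv => ⟨nonempty_of_ncard_ne_zero (by rw [p.2.2 v hv]; norm_num),
    gap_nb p v, h3 _ (gap_nb p v) (h2 hB _ (gap_nb p v) (p.2.2 v hv))⟩
  obtain ⟨x, a, b, n, f, y⟩ := h4 X p.1 L
  refine h6 X x a b n hX f y fun z m hm k => h5 X z a b m L ?_ k
  rcases hm with rfl | rfl
  · exact f
  · obtain ⟨f1, f2, f3, f4, f5, f6⟩ := f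
    exact ⟨f1, f2, f3, by rw [inner_neg_right, f4, neg_zero], by rw [inner_neg_right, f5, neg_zero],
      by rw [inner_neg_neg, f6]⟩

end Pool.Agent.Lib.MP_f3b2fd_co.KU
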