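import Pool.Agent.Lib.MP_f3b2fd_co.KEP.U.St33

/-! The four contacts of every point of a kissing configuration with triangles and squares. -/

namespace Pool.Agent.Lib.MP_f3b2fd_co.KU

open scoped RealInnerProductSpace
open KEP

namespace Star

theorem gr (a b e : E3) : dt3 a b e ^ 2 = ⟪a, a⟫ * ⟪b, b⟫ * ⟪e, e⟫ - ⟪e, e⟫ * ⟪a, b⟫ ^ 2 -
    ⟪a, a⟫ * ⟪b, e⟫ ^ 2 - ⟪b, b⟫ * ⟪a, e⟫ ^ 2 + 2 * ⟪a, b⟫ * ⟪b, e⟫ * ⟪a, e⟫ := by
  simp only [ip3, dt3]
  ring

/-- a unit vector at sixty degrees from `a`. -/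
def C (a p : E3) : Prop := ⟪a, a⟫ = 1 ∧ ⟪p, p⟫ = 1 ∧ ⟪a, p⟫ = 1 / 2

theorem U0 {a b d e : E3} (h : C a b) (h1 : ⟪a, d⟫ = ⟪a, e⟫) (h2 : ⟪b, d⟫ = ⟪b, e⟫)
    (h3 : dt3 a b d = dt3 a b e) : d = e := by
  have g := gr a b (d - e)
  have k : dt3 a b (d - e) = dt3 a b d - dt3 a b e := by
    simp only [dt3, PiLp.sub_apply]
    ring
  rw [k, h3, inner_sub_right a, inner_sub_right b, h1, h2, h.1, h.2.1, h.2.2] at g
  exact sub_eq_zero.1 (inner_self_eq_zero (𝕜 := ℝ).1 (by linarith))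

theorem U1 {a b d e : E3} (hd : C a d) (he : C a e) (h2 : ⟪b, d⟫ = ⟪b, e⟫) :
    dt3 a b d = dt3 a b e ∨ dt3 a b d = -dt3 a b e := by
  apply sq_eq_sq_iff_eq_or_eq_neg.1
  rw [gr, gr, h2, hd.2.1, he.2.1, hd.2.2, he.2.2]

theorem U {a b d e : E3} (h : C a b) (hd : C a d) (he : C a e) (h2 : ⟪b, d⟫ = ⟪b, e⟫)
    (p : 0 < dt3 a b d) (q : 0 < dt3 a b e) : d = e := by
  rcases U1 hd he h2 with k | k
  · exact U0 h (hd.2.2.trans he.2.2.symm) h2 k
  · linarith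

theorem C_sub {a p : E3} (h : C a p) : C a (a - p) := by
  refine ⟨h.1, ?_, ?_⟩
  · simp only [inner_sub_left, inner_sub_right, h.1, h.2.1, h.2.2, real_inner_comm a p]
    norm_num
  · simp only [inner_sub_right, h.1, h.2.2]
    norm_num

theorem ip_sub {a p : E3} (h : C a p) (q : E3) : ⟪p, a - q⟫ = 1 / 2 - ⟪p, q⟫ := by
  rw [inner_sub_right, real_inner_comm a p, h.2.2]

/-- the mirror image in the plane of `a` and `b`. -/
noncomputable def mir (a b c : E3) : E3 := (2 / 3 : ℝ) • (a + b) - c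

theorem ip_mir {a p : E3} (h : C a p) (b c : E3) :
    ⟪p, mir a b c⟫ = 1 / 3 + 2 / 3 * ⟪p, b⟫ - ⟪p, c⟫ := by
  rw [mir, inner_sub_right, real_inner_smul_right, inner_add_right, real_inner_comm a p, h.2.2]
  ring

theorem C_mir {a b c : E3} (hb : C a b) (hc : C a c) (h : ⟪b, c⟫ = 1 / 2) : C a (mir a b c) := by
  refine ⟨hb.1, ?_, ?_⟩
  · simp only [mir, inner_sub_left, inner_sub_right, inner_add_left, inner_add_right,
      real_inner_smul_left, real_inner_smul_right, hb.1, hb.2.1, hb.2.2, hc.2.1, hc.2.2, h,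
      real_inner_comm a b, real_inner_comm a c, real_inner_comm b c]
    norm_num
  · simp only [mir, inner_sub_right, inner_add_right, real_inner_smul_right, hb.1, hb.2.2, hc.2.2]
    norm_num

theorem dt_mir (a b c : E3) : dt3 a b (mir a b c) = -dt3 a b c := by
  simp only [dt3, mir, PiLp.sub_apply, PiLp.add_apply, PiLp.smul_apply, smul_eq_mul]
  ring

theorem dt_sub (a b c : E3) : dt3 a b (a - c) = dt3 a c b := by
  simp only [dt3, PiLp.sub_apply]
  ring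

theorem dt_sub2 (a b c : E3) : dt3 a (a - b) c = dt3 a c b := by
  simp only [dt3, PiLp.sub_apply]
  ring

theorem dt_sw (a b c : E3) : dt3 a b c = -dt3 a c b := by
  simp only [dt3]
  ring

theorem two {a b c u : E3} (hb : C a b) (hc : C a c) (hu : C a u) (h : ⟪b, c⟫ = 1 / 2)
    (k : ⟪b, u⟫ = 1 / 2) : u = c ∨ u = mir a b c := by
  rcases U1 hu hc (k.trans h.symm) with e | e
  · exact Or.inl (U0 hb (hu.2.2.trans hc.2.2.symm) (k.trans h.symm) e)
  · refine Or.inr (U0 hb (hu.2.2.trans (C_mir hb hc h).2.2.symm) ?_ (by rw [dt_mir, e]))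
    rw [ip_mir hb, k, h, hb.2.1]
    norm_num

/-- a step with inner product `x`. -/
def St (a : E3) (x : ℝ) (p r : E3) : Prop := C a p ∧ C a r ∧ ⟪p, r⟫ = x ∧ 0 < dt3 a p r

theorem mixed {a p q r : E3} {x y : ℝ} (h : St a x p q) (k : St a y q r) (e : x + y = 1 / 2) :
    r = a - p := by
  refine U k.1 k.2.1 (C_sub h.1) ?_ k.2.2.2 (by rw [dt_sub]; exact h.2.2.2)
  rw [ip_sub k.1, real_inner_comm p q, h.2.2.1, k.2.2.1]
  linarith

theorem TT {a p q r : E3} (h : St a (1 / 2) p q) (k : St a (1 / 2) q r) : r = mir a q p := by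
  rcases two k.1 h.1 k.2.1 (by rw [real_inner_comm, h.2.2.1]) k.2.2.1 with e | e
  · have := k.2.2.2
    rw [e, dt_sw] at this
    linarith [h.2.2.2]
  · exact e

theorem OO {a p q r : E3} (h : St a 0 p q) (k : St a 0 q r) : r = mir a (a - q) p := by
  have e1 : ⟪a - q, p⟫ = 1 / 2 := by
    rw [real_inner_comm, ip_sub h.1, h.2.2.1]
    norm_num
  have e2 : ⟪a - q, r⟫ = 1 / 2 := by
    rw [real_inner_comm, ip_sub k.2.1, real_inner_comm, k.2.2.1]
    norm_num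
  rcases two (C_sub k.1) h.1 k.2.1 e1 e2 with e | e
  · have := k.2.2.2
    rw [e, dt_sw] at this
    linarith [h.2.2.2]
  · exact e

theorem OOO {a p q r s : E3} (h : St a 0 p q) (k : St a 0 q r) (l : St a 0 r s) :
    ⟪p, s⟫ = 8 / 9 := by
  rw [OO k l, ip_mir h.1, ip_sub h.1, OO h k, ip_mir h.1, ip_sub h.1, h.2.2.1, h.1.2.1]
  norm_num

theorem TTTT {a p q r s t : E3} (h : St a (1 / 2) p q) (k : St a (1 / 2) q r)
    (l : St a (1 / 2) r s) (m : St a (1 / 2) s t) : ⟪p, t⟫ = 11 / 27 := by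
  have e : ⟪p, r⟫ = -1 / 3 := by
    rw [TT h k, ip_mir h.1, h.2.2.1, h.1.2.1]
    norm_num
  rw [TT l m, ip_mir h.1, e, TT k l, ip_mir h.1, e, h.2.2.1]
  norm_num

theorem TOTT {a p q r s t : E3} (h : St a (1 / 2) p q) (k : St a 0 q r)
    (l : St a (1 / 2) r s) (m : St a (1 / 2) s t) : ⟪p, t⟫ = 5 / 6 := by
  rw [TT l m, ip_mir h.1, mixed k l (by norm_num), mixed h k (by norm_num), ip_sub h.1,
    ip_sub h.1, h.2.2.1, h.1.2.1]
  norm_num

variable {S : Set E3}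

theorem one (g : Gap S) {u : E3} (h : u ∈ S) : ⟪u, u⟫ = 1 := by
  rw [real_inner_self_eq_norm_sq, g.1 u h]
  norm_num

theorem bad (g : Gap S) {u w : E3} (hu : u ∈ S) (hw : w ∈ S) {x : ℝ} (e : ⟪u, w⟫ = x)
    (h1 : x ≠ 1) (h2 : x ≠ 1 / 2) (h3 : 87 / 512 ≤ x) : False := by
  rcases g.2 u hu w hw with k | k | k
  · rw [← k, one g hu] at e
    exact h1 e.symm
  · exact h2 (e.symm.trans k)
  · linarith

theorem cand (g : Gap S) {a b c u : E3} (ha : a ∈ S) (hb : b ∈ S) (hab : a - b ∈ S) (hu : u ∈ S)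
    (cb : C a b) (cc : C a c) (h : ⟪b, c⟫ = 1 / 2) (k : ⟪a, u⟫ = 1 / 2) :
    u = b ∨ u = a - b ∨ u = c ∨ u = mir a b c ∨ u = a - c ∨ u = a - mir a b c := by
  have cu : C a u := ⟨one g ha, one g hu, k⟩
  have e := ip_sub cu b
  rcases g.2 u hu b hb with p | p | p
  · exact Or.inl p
  · rcases two cb cc cu h (by rw [real_inner_comm, p]) with q | q
    · exact Or.inr (Or.inr (Or.inl q))
    · exact Or.inr (Or.inr (Or.inr (Or.inl q)))
  · rcases g.2 u hu _ hab with q | q | q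
    · exact Or.inr (Or.inl q)
    · have z : ⟪b, a - u⟫ = 1 / 2 := by
        rw [ip_sub cb, real_inner_comm]
        linarith
      rcases two cb cc (C_sub cu) h z with r | r
      · exact Or.inr (Or.inr (Or.inr (Or.inr (Or.inl (by rw [← r, sub_sub_cancel])))))
      · exact Or.inr (Or.inr (Or.inr (Or.inr (Or.inr (by rw [← r, sub_sub_cancel])))))
    · linarith

theorem five {a b c : E3} (cc : C a c) (h : ⟪b, c⟫ = 1 / 2) : ⟪c, a - mir a b c⟫ = 5 / 6 := by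
  rw [ip_sub cc, ip_mir cc, real_inner_comm, h, cc.2.1]
  norm_num

theorem five2 {a b c : E3} (cb : C a b) (cc : C a c) (h : ⟪b, c⟫ = 1 / 2) :
    ⟪mir a b c, a - c⟫ = 5 / 6 := by
  rw [ip_sub (C_mir cb cc h), real_inner_comm, ip_mir cc, real_inner_comm, h, cc.2.1]
  norm_num

end Star

open _root_.Pool.Agent.Lib.MP_f3b2fd_co.KU.Star in
theorem starS : StarS := by
  intro S g w a ha
  obtain ⟨P, ⟨p0, hp0⟩, hP⟩ := w a ha
  have nx : ∀ p ∈ P, ∃ r ∈ P, St a (1 / 2) p r ∨ (St a 0 p r ∧ p + r - a ∈ S) := by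
    intro p hp
    obtain ⟨s1, s2, r, hr, s3, s4⟩ := hP p hp
    have c1 : C a p := ⟨one g ha, one g s1, s2⟩
    have c2 : C a r := ⟨one g ha, one g (hP r hr).1, (hP r hr).2.1⟩
    rcases s4 with k | k
    · exact ⟨r, hr, Or.inl ⟨c1, c2, k, s3⟩⟩
    · exact ⟨r, hr, Or.inr ⟨⟨c1, c2, k.1, s3⟩, k.2⟩⟩
  have m : ∀ p ∈ P, p ∈ S := fun p hp => (hP p hp).1
  have ooo : ∀ p ∈ P, ∀ s ∈ P, ∀ q r, St a 0 p q → St a 0 q r → St a 0 r s → False :=
    fun p hp s hs q r h k l =>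
      bad g (m p hp) (m s hs) (OOO h k l) (by norm_num) (by norm_num) (by norm_num)
  have A : ∃ p ∈ P, ∃ q ∈ P, St a (1 / 2) p q := by
    obtain ⟨p1, h1, k1 | k1⟩ := nx p0 hp0
    · exact ⟨p0, hp0, p1, h1, k1⟩
    obtain ⟨p2, h2, k2 | k2⟩ := nx p1 h1
    · exact ⟨p1, h1, p2, h2, k2⟩
    obtain ⟨p3, h3, k3 | k3⟩ := nx p2 h2
    · exact ⟨p2, h2, p3, h3, k3⟩
    exact (ooo p0 hp0 p3 h3 _ _ k1.1 k2.1 k3.1).elim
  have B : ∃ b ∈ P, ∃ c ∈ P, ∃ d ∈ P, St a (1 / 2) b c ∧ St a 0 c d ∧ c + d - a ∈ S := by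
    obtain ⟨p, hp, p1, h1, k1⟩ := A
    obtain ⟨p2, h2, k2 | k2⟩ := nx p1 h1
    swap
    · exact ⟨p, hp, p1, h1, p2, h2, k1, k2⟩
    obtain ⟨p3, h3, k3 | k3⟩ := nx p2 h2
    swap
    · exact ⟨p1, h1, p2, h2, p3, h3, k2, k3⟩
    obtain ⟨p4, h4, k4 | k4⟩ := nx p3 h3
    swap
    · exact ⟨p2, h2, p3, h3, p4, h4, k3, k4⟩
    exact (bad g (m p hp) (m p4 h4) (TTTT k1 k2 k3 k4) (by norm_num) (by norm_num)
      (by norm_num)).elim
  obtain ⟨b, hb, c, hc, d, hd, k1, k2, k2'⟩ := B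
  obtain rfl : d = a - b := mixed k1 k2 (by norm_num)
  have cb : c - b ∈ S := by
    convert k2' using 1
    abel
  have bc := k1.2.2.1
  have cd := fun u hu k => cand g ha (m b hb) (m _ hd) hu k1.1 k1.2.1 bc (u := u) k
  obtain ⟨e, he, k3 | k3⟩ := nx _ hd
  · obtain rfl : e = a - c := mixed k2 k3 (by norm_num)
    obtain ⟨f, hf, k4 | k4⟩ := nx _ he
    · exact (bad g (m b hb) (m f hf) (TOTT k1 k2 k3 k4) (by norm_num) (by norm_num)
        (by norm_num)).elim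
    have ef : f = a - (a - b) := mixed k3 k4.1 (by norm_num)
    refine ⟨b, m b hb, c, m c hc, a - c, m _ he, k1.1.2.2, k1.2.1.2.2, bc, m _ hd, cb,
      Or.inl ⟨rfl, ?_⟩, fun u hu k => ?_⟩
    · convert k4.2 using 1
      rw [ef]
      abel
    · rcases cd u hu k with r | r | r | r | r | r
      · exact Or.inl r
      · exact Or.inr (Or.inr (Or.inl r))
      · exact Or.inr (Or.inl r)
      · exact (bad g (r ▸ hu) (m _ he) (five2 k1.1 k1.2.1 bc) (by norm_num) (by norm_num)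
          (by norm_num)).elim
      · exact Or.inr (Or.inr (Or.inr r))
      · exact (bad g (m c hc) (r ▸ hu) (five k1.2.1 bc) (by norm_num) (by norm_num)
          (by norm_num)).elim
  · have ee : e = mir a b c := by rw [OO k2 k3.1, sub_sub_cancel]
    subst ee
    refine ⟨b, m b hb, c, m c hc, mir a b c, m _ he, k1.1.2.2, k1.2.1.2.2, bc, m _ hd, cb,
      Or.inr ⟨rfl, ?_⟩, fun u hu k => ?_⟩
    · convert k3.2 using 1
      abel
    · rcases cd u hu k with r | r | r | r | r | r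
      · exact Or.inl r
      · exact Or.inr (Or.inr (Or.inl r))
      · exact Or.inr (Or.inl r)
      · exact Or.inr (Or.inr (Or.inr r))
      · exact (bad g (m _ he) (r ▸ hu) (five2 k1.1 k1.2.1 bc) (by norm_num) (by norm_num)
          (by norm_num)).elim
      · exact (bad g (m c hc) (r ▸ hu) (five k1.2.1 bc) (by norm_num) (by norm_num)
          (by norm_num)).elim

end Pool.Agent.Lib.MP_f3b2fd_co.KU
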