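import Pool.Agent.Lib.MP_f3b2fd_co.KEP.U.St

/-! All triangles are equilateral or half squares. -/

set_option autoImplicit false

namespace Pool.Agent.Lib.MP_f3b2fd_co.KU

open Real KEP Finset

namespace Typ

open Classical in
/-- one for a short side. -/
noncomputable def sh (z : ℝ) : ℕ := if z = 1 / 2 then 1 else 0

open Classical in
/-- one for a long side. -/
noncomputable def lg (z : ℝ) : ℕ := if z = 1 / 2 then 0 else 1

theorem sh_half : sh (1 / 2) = 1 := if_pos rfl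

theorem lg_half : lg (1 / 2) = 0 := if_pos rfl

theorem sh_lt {z : ℝ} (h : z < 87 / 512) : sh z = 0 := if_neg fun k => by linarith

theorem lg_lt {z : ℝ} (h : z < 87 / 512) : lg z = 1 := if_neg fun k => by linarith

theorem sh_add (z : ℝ) : sh z + lg z = 1 := by
  unfold sh lg
  split_ifs <;> rfl

theorem lg_eq (z : ℝ) : (lg z : ℝ) = 1 - sh z := by
  have : (sh z : ℝ) + lg z = 1 := by exact_mod_cast sh_add z
  linarith

theorem rad_rot {p q r : ℝ} (h : Rad p q r) : Rad q r p := by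
  unfold Rad cof gram at *
  constructor <;> linarith [h.1, h.2]

theorem rad_swap {p q r : ℝ} (h : Rad p q r) : Rad q p r := by
  unfold Rad cof gram at *
  constructor <;> linarith [h.1, h.2]

theorem sm_rot (p q r : ℝ) : sm q r p = sm p q r := by
  unfold sm
  ring

/-- the two bounds for one angle. -/
theorem one (hA : AngS) {p q r : ℝ} (hp : p = 1 / 2 ∨ p < 87 / 512)
    (hq : q = 1 / 2 ∨ q < 87 / 512) (hr : r = 1 / 2 ∨ r < 87 / 512) (h : Rad p q r) :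
    KA.th0 * (sh p * sh q * sh r : ℕ) + 164 / 100 * (sh p * sh q * lg r : ℕ) +
      82 / 100 * ((sh p * lg q + lg p * sh q) * sh r : ℕ) +
      82 / 100 * ((sh p * lg q + lg p * sh q) * lg r : ℕ) + 97 / 100 * (lg p * lg q : ℕ) ≤
        ang p q r ∧
    ang p q r ≤ KA.th0 * (sh p * sh q * sh r : ℕ) + 22 / 10 * (sh p * sh q * lg r : ℕ) +
      11 / 10 * ((sh p * lg q + lg p * sh q) * sh r : ℕ) +
      π * ((sh p * lg q + lg p * sh q) * lg r : ℕ) + π * (lg p * lg q : ℕ) := by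
  have up := (ang_lt_pi p q r).le
  rcases hp with rfl | hp <;> rcases hq with rfl | hq <;> rcases hr with rfl | hr
  · simp only [sh_half, lg_half, hA.a0]
    norm_num
  · have := hA.a1 r hr h
    simp only [sh_half, lg_half, sh_lt hr, lg_lt hr]
    constructor <;> push_cast <;> linarith [this.1, this.2]
  · have := hA.b1 q hq (rad_rot (rad_rot h))
    simp only [sh_half, lg_half, sh_lt hq, lg_lt hq]
    constructor <;> push_cast <;> linarith [this.1, this.2]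
  · have := hA.b2 q r hq hr h
    simp only [sh_half, lg_half, sh_lt hq, lg_lt hq, sh_lt hr, lg_lt hr]
    constructor <;> push_cast <;> linarith
  · have := hA.b1 p hp (rad_rot h)
    rw [ang_comm] at this
    simp only [sh_half, lg_half, sh_lt hp, lg_lt hp]
    constructor <;> push_cast <;> linarith [this.1, this.2]
  · have := hA.b2 p r hp hr (rad_swap h)
    rw [ang_comm] at this
    simp only [sh_half, lg_half, sh_lt hp, lg_lt hp, sh_lt hr, lg_lt hr]
    constructor <;> push_cast <;> linarith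
  · have := hA.c2 p q hp hq (rad_rot (rad_rot h))
    simp only [sh_half, lg_half, sh_lt hp, lg_lt hp, sh_lt hq, lg_lt hq]
    constructor <;> push_cast <;> linarith
  · have := hA.c3 p q r hp hq hr h
    simp only [sh_lt hp, lg_lt hp, sh_lt hq, lg_lt hq, sh_lt hr, lg_lt hr]
    constructor <;> push_cast <;> linarith

/-- the area of a triangle with at most one long side. -/
theorem area (hA : AngS) (hE : AreaS) {p q r : ℝ} (hp : p = 1 / 2 ∨ p < 87 / 512)
    (hq : q = 1 / 2 ∨ q < 87 / 512) (hr : r = 1 / 2 ∨ r < 87 / 512) (h : Rad p q r)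
    (z : sh p * lg q * lg r + sh r * lg p * lg q + sh q * lg r * lg p +
      6 * (lg p * lg q * lg r) = 0) :
    sm p q r ≤ 3 * KA.th0 * (sh p * sh q * sh r) + (2 * π - 2 * KA.th0) * (1 - sh p * sh q * sh r) ∧
    (sm p q r = 3 * KA.th0 * (sh p * sh q * sh r) +
      (2 * π - 2 * KA.th0) * (1 - sh p * sh q * sh r) → Ty p r q) := by
  rcases hp with rfl | hp <;> rcases hq with rfl | hq <;> rcases hr with rfl | hr
  · refine ⟨?_, fun _ => Or.inl ⟨rfl, rfl, rfl⟩⟩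
    simp only [sm, sh_half, hA.a0]
    push_cast
    linarith
  · simp only [sh_half, sh_lt hr]
    push_cast
    refine ⟨by linarith [hE.m1 r hr h], fun k => ?_⟩
    exact Or.inr (Or.inr (Or.inl ⟨rfl, hE.e1 r hr h (by linarith), rfl⟩))
  · simp only [sh_half, sh_lt hq]
    push_cast
    have h' := rad_rot (rad_rot h)
    rw [← sm_rot, ← sm_rot]
    refine ⟨by linarith [hE.m1 q hq h'], fun k => ?_⟩
    exact Or.inr (Or.inr (Or.inr ⟨rfl, rfl, hE.e1 q hq h' (by linarith)⟩))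
  · simp [sh_half, lg_half, sh_lt hq, lg_lt hq, sh_lt hr, lg_lt hr, -one_div] at z
  · simp only [sh_half, sh_lt hp]
    push_cast
    have h' := rad_rot h
    rw [← sm_rot]
    refine ⟨by linarith [hE.m1 p hp h'], fun k => ?_⟩
    exact Or.inr (Or.inl ⟨hE.e1 p hp h' (by linarith), rfl, rfl⟩)
  · simp [sh_half, lg_half, sh_lt hp, lg_lt hp, sh_lt hr, lg_lt hr, -one_div] at z
  · simp [sh_half, lg_half, sh_lt hp, lg_lt hp, sh_lt hq, lg_lt hq, -one_div] at z
  · simp [sh_lt hp, lg_lt hp, sh_lt hq, lg_lt hq, sh_lt hr, lg_lt hr] at z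

/-- the arithmetic at one vertex. -/
theorem arith {a0 a1 b1 b2 c : ℕ} (h8 : 2 * a0 + 2 * a1 + b1 + b2 = 8)
    (lo : KA.th0 * a0 + 164 / 100 * a1 + 82 / 100 * b1 + 82 / 100 * b2 + 97 / 100 * c ≤ 2 * π)
    (hi : 2 * π ≤ KA.th0 * a0 + 22 / 10 * a1 + 11 / 10 * b1 + π * b2 + π * c)
    (two : b1 = 0 → b2 = 0 → c ≠ 0 → 2 ≤ c) : a0 ≤ 2 + b2 := by
  have t1 := KA.th0_lo
  have t2 := KA.th0_hi
  have p1 := pi_gt_d4
  have p2 := pi_lt_d4
  by_contra hc
  have h : (a0 = 4 ∧ a1 = 0 ∧ b1 = 0 ∧ b2 = 0) ∨ (a0 = 3 ∧ b2 = 0 ∧ 2 * a1 + b1 = 2) := by omega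
  rcases h with ⟨rfl, rfl, rfl, rfl⟩ | ⟨rfl, rfl, k⟩
  · rcases Nat.eq_zero_or_pos c with rfl | h0
    · push_cast at hi
      linarith
    · have : (2 : ℝ) ≤ c := by exact_mod_cast two rfl rfl h0.ne'
      push_cast at lo
      linarith
  · have k' : 2 * (a1 : ℝ) + b1 = 2 := by exact_mod_cast k
    rcases Nat.eq_zero_or_pos c with rfl | h0
    · push_cast at hi
      linarith
    · have : (1 : ℝ) ≤ c := by exact_mod_cast h0
      push_cast at lo
      linarith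

variable {hs : ℝ} {V : Type} [Fintype V] [DecidableEq V] (t : Tri hs V)

theorem rad (h2 : 425 / 256 ≤ hs ^ 2) {a b c : V} (m : (a, b, c) ∈ t.T) :
    Rad (t.x a b) (t.x c a) (t.x b c) := by
  have g := t.gram_pos a b c m
  have r := t.rad a b c m
  have s1 := sub_pos.2 (t.x_lt m)
  have s2 := sub_pos.2 (t.x_lt (t.rot _ _ _ m))
  have s3 := sub_pos.2 (t.x_lt (t.rot _ _ _ (t.rot _ _ _ m)))
  have e : cof (t.x a b) (t.x b c) (t.x c a) = gram (t.x a b) (t.x b c) (t.x c a) +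
      2 * ((1 - t.x a b) * (1 - t.x b c) * (1 - t.x c a)) := by
    unfold cof gram
    ring
  have c0 : 0 ≤ cof (t.x a b) (t.x b c) (t.x c a) := by
    rw [e]
    positivity
  exact rad_rot (rad_swap ⟨g, lt_of_le_of_lt (mul_le_mul_of_nonneg_right h2 c0) r⟩)

theorem card_sh (v : V) (f : V × V × V → ℝ) [∀ d, Decidable (f d = 1 / 2)] :
    (t.T.filter fun d => d.1 = v ∧ f d = 1 / 2).card =
      ∑ d ∈ t.T.filter (fun d => d.1 = v), sh (f d) := by
  rw [← Finset.filter_filter, Finset.card_filter]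
  refine Finset.sum_congr rfl fun d _ => ?_
  unfold sh
  congr

/-- the inequality at one vertex. -/
theorem vertex (hA : AngS) (h2 : 425 / 256 ≤ hs ^ 2)
    (gap : ∀ a b, a ≠ b → t.x a b = 1 / 2 ∨ t.x a b < 87 / 512) (v : V)
    (k1 : ∑ d ∈ t.T.filter (fun d => d.1 = v), sh (t.x d.1 d.2.1) = 4)
    (k2 : ∑ d ∈ t.T.filter (fun d => d.1 = v), sh (t.x d.2.2 d.1) = 4) :
    ∑ d ∈ t.T.filter (fun d => d.1 = v),
        sh (t.x d.1 d.2.1) * sh (t.x d.2.2 d.1) * sh (t.x d.2.1 d.2.2) ≤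
      2 + ∑ d ∈ t.T.filter (fun d => d.1 = v), (sh (t.x d.1 d.2.1) * lg (t.x d.2.2 d.1) +
        lg (t.x d.1 d.2.1) * sh (t.x d.2.2 d.1)) * lg (t.x d.2.1 d.2.2) := by
  have o : ∀ d ∈ t.T.filter (fun d => d.1 = v), _ := fun d hd =>
    have m : (d.1, d.2.1, d.2.2) ∈ t.T := (Finset.mem_filter.1 hd).1
    have n := t.ne _ _ _ m
    one hA (gap _ _ n.1) (gap _ _ n.2.2) (gap _ _ n.2.1) (rad t h2 m)
  have s : ∑ d ∈ t.T.filter (fun d => d.1 = v),
      ang (t.x d.1 d.2.1) (t.x d.2.2 d.1) (t.x d.2.1 d.2.2) = 2 * π := by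
    rw [← t.A_sum v]
    exact Finset.sum_congr rfl fun d _ => by rw [Tri.A, t.x_symm d.1 d.2.2]
  have lo := Finset.sum_le_sum fun d hd => (o d hd).1
  have hi := Finset.sum_le_sum fun d hd => (o d hd).2
  rw [s] at lo hi
  simp only [Finset.sum_add_distrib, ← Finset.mul_sum, ← Nat.cast_sum] at lo hi
  refine arith ?_ lo hi fun z1 z2 z3 => ?_
  · rw [Finset.mul_sum, Finset.mul_sum, ← Finset.sum_add_distrib, ← Finset.sum_add_distrib,
      ← Finset.sum_add_distrib, show 8 = 4 + 4 from rfl]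
    nth_rewrite 1 [← k1]
    rw [← k2, ← Finset.sum_add_distrib]
    refine Finset.sum_congr rfl fun d _ => ?_
    unfold sh lg
    split_ifs <;> rfl
  · obtain ⟨⟨a, b, c⟩, hd, nz⟩ := Finset.exists_ne_zero_of_sum_ne_zero z3
    obtain ⟨m, rfl⟩ := Finset.mem_filter.1 hd
    obtain ⟨d, -, m'⟩ := t.nbr _ _ _ (t.rot _ _ _ (t.rot _ _ _ m))
    have hd' : (a, c, d) ∈ t.T.filter (fun d => d.1 = a) := Finset.mem_filter.2 ⟨m', rfl⟩
    have y1 := Finset.sum_eq_zero_iff.1 z1 _ hd'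
    have y2 := Finset.sum_eq_zero_iff.1 z2 _ hd'
    have ne : (a, b, c) ≠ (a, c, d) := fun k => (t.ne _ _ _ m).2.1 (congrArg (·.2.1) k)
    refine le_trans ?_ (Finset.sum_le_sum_of_subset (s := {(a, b, c), (a, c, d)}) ?_)
    · rw [Finset.sum_pair ne]
      simp only at nz y1 y2 ⊢
      rw [t.x_symm c a] at nz ⊢
      revert nz y1 y2
      unfold sh lg
      split_ifs <;> simp
    · intro s hs
      rcases Finset.mem_insert.1 hs with rfl | hs
      · exact hd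
      · rw [Finset.mem_singleton.1 hs]
        exact hd'

theorem fib (F : V × V × V → ℕ) :
    ∑ v, ∑ d ∈ t.T.filter (fun d => d.1 = v), F d = ∑ d ∈ t.T, F d :=
  Finset.sum_fiberwise_of_maps_to (fun _ _ => Finset.mem_univ _) F

end Typ

open Typ in
theorem typS (hA : AngS) (hE : AreaS) (h4 : FourS) : TypS := by
  intro hs V _ _ t h2 h12 gap
  have k1 : ∀ v, ∑ d ∈ t.T.filter (fun d => d.1 = v), sh (t.x d.1 d.2.1) = 4 := fun v => by
    rw [← (h4 hs V t h2 h12 gap v).1, card_sh]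
  have k2 : ∀ v, ∑ d ∈ t.T.filter (fun d => d.1 = v), sh (t.x d.2.2 d.1) = 4 := fun v => by
    rw [← (h4 hs V t h2 h12 gap v).2, card_sh]
    exact Finset.sum_congr rfl fun d _ => by rw [t.x_symm]
  have hv := Finset.sum_le_sum fun v (_ : v ∈ Finset.univ) => vertex t hA h2 gap v (k1 v) (k2 v)
  rw [Finset.sum_add_distrib, fib, fib, Finset.sum_const, Finset.card_univ, h12] at hv
  have hv' := (Nat.cast_le (α := ℝ)).2 hv
  have hP : ∑ d ∈ t.T, sh (t.x d.1 d.2.1) = 48 := by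
    rw [← fib, Finset.sum_congr rfl fun v _ => k1 v, Finset.sum_const, Finset.card_univ, h12]
    rfl
  have hP' : ∑ d ∈ t.T, (sh (t.x d.1 d.2.1) : ℝ) = 48 := by exact_mod_cast hP
  have hR := t.sum_rot fun d => (sh (t.x d.1 d.2.1) : ℝ)
  have hQ := t.sum_rot fun d => (sh (t.x d.2.1 d.2.2) : ℝ)
  have e1 := t.sum_rot fun d => (sh (t.x d.1 d.2.1) : ℝ) * sh (t.x d.2.2 d.1)
  have e2 := t.sum_rot fun d => (sh (t.x d.2.1 d.2.2) : ℝ) * sh (t.x d.1 d.2.1)
  have hN : (t.T.card : ℝ) = 60 := by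
    have := t.card
    rw [h12] at this
    exact_mod_cast (by omega : t.T.card = 60)
  simp only at hR hQ e1 e2
  have x1 : ∑ d ∈ t.T, (((sh (t.x d.1 d.2.1) * lg (t.x d.2.2 d.1) +
      lg (t.x d.1 d.2.1) * sh (t.x d.2.2 d.1)) * lg (t.x d.2.1 d.2.2) : ℕ) : ℝ) =
      ∑ d ∈ t.T, ((sh (t.x d.1 d.2.1) : ℝ) + sh (t.x d.2.2 d.1) -
        2 * (sh (t.x d.1 d.2.1) * sh (t.x d.2.2 d.1)) -
        sh (t.x d.2.1 d.2.2) * sh (t.x d.1 d.2.1) - sh (t.x d.2.2 d.1) * sh (t.x d.2.1 d.2.2) +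
        2 * (sh (t.x d.1 d.2.1) * sh (t.x d.2.2 d.1) * sh (t.x d.2.1 d.2.2))) :=
    Finset.sum_congr rfl fun d _ => by
      push_cast
      simp only [lg_eq]
      ring
  have x2 : ∑ d ∈ t.T, ((sh (t.x d.1 d.2.1) * lg (t.x d.2.2 d.1) * lg (t.x d.2.1 d.2.2) +
      sh (t.x d.2.1 d.2.2) * lg (t.x d.1 d.2.1) * lg (t.x d.2.2 d.1) +
      sh (t.x d.2.2 d.1) * lg (t.x d.2.1 d.2.2) * lg (t.x d.1 d.2.1) +
      6 * (lg (t.x d.1 d.2.1) * lg (t.x d.2.2 d.1) * lg (t.x d.2.1 d.2.2)) : ℕ) : ℝ) =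
      ∑ d ∈ t.T, (6 - 5 * (sh (t.x d.1 d.2.1) : ℝ) - 5 * sh (t.x d.2.2 d.1) -
        5 * sh (t.x d.2.1 d.2.2) + 4 * (sh (t.x d.1 d.2.1) * sh (t.x d.2.2 d.1)) +
        4 * (sh (t.x d.2.1 d.2.2) * sh (t.x d.1 d.2.1)) +
        4 * (sh (t.x d.2.2 d.1) * sh (t.x d.2.1 d.2.2)) -
        3 * (sh (t.x d.1 d.2.1) * sh (t.x d.2.2 d.1) * sh (t.x d.2.1 d.2.2))) :=
    Finset.sum_congr rfl fun d _ => by
      push_cast
      simp only [lg_eq]
      ring
  have x3 : ∑ d ∈ t.T, ((sh (t.x d.1 d.2.1) * lg (t.x d.2.2 d.1) * lg (t.x d.2.1 d.2.2) : ℕ) : ℝ) =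
      ∑ d ∈ t.T, ((sh (t.x d.1 d.2.1) : ℝ) - sh (t.x d.1 d.2.1) * sh (t.x d.2.2 d.1) -
        sh (t.x d.2.1 d.2.2) * sh (t.x d.1 d.2.1) +
        sh (t.x d.1 d.2.1) * sh (t.x d.2.2 d.1) * sh (t.x d.2.1 d.2.2)) :=
    Finset.sum_congr rfl fun d _ => by
      push_cast
      simp only [lg_eq]
      ring
  rw [Nat.cast_add, Nat.cast_sum, Nat.cast_sum, x1] at hv'
  rw [← Nat.cast_sum] at x2 x3
  simp only [Nat.cast_mul, smul_eq_mul, Nat.cast_ofNat] at hv'
  rw [Finset.sum_add_distrib, Finset.sum_sub_distrib, Finset.sum_sub_distrib,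
    Finset.sum_sub_distrib, Finset.sum_add_distrib, ← Finset.mul_sum, ← Finset.mul_sum] at hv'
  conv_rhs at x2 => simp only [Finset.sum_add_distrib, Finset.sum_sub_distrib, ← Finset.mul_sum,
    Finset.sum_const, nsmul_eq_mul, hN]
  conv_rhs at x3 => rw [Finset.sum_add_distrib, Finset.sum_sub_distrib, Finset.sum_sub_distrib]
  have z := Nat.cast_eq_zero.1 (le_antisymm (x2.le.trans (by linarith)) (Nat.cast_nonneg _))
  have z' := Finset.sum_eq_zero_iff.1 z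
  rw [z] at x2
  rw [Finset.sum_eq_zero fun d hd => by have := z' d hd; omega] at x3
  have E3 : ∑ d ∈ t.T, (sh (t.x d.1 d.2.1) : ℝ) * sh (t.x d.2.2 d.1) * sh (t.x d.2.1 d.2.2) = 24 := by
    push_cast at x2 x3
    linarith
  have o : ∀ d ∈ t.T, _ := fun d m =>
    have n := t.ne d.1 d.2.1 d.2.2 m
    area hA hE (gap _ _ n.1) (gap _ _ n.2.2) (gap _ _ n.2.1) (rad t h2 m) (z' d m)
  have S : ∑ d ∈ t.T, sm (t.x d.1 d.2.1) (t.x d.2.2 d.1) (t.x d.2.1 d.2.2) = 72 * π := by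
    have := t.sum_tau (fun _ => 1) 0
    rw [Finset.sum_const, Finset.card_univ, h12] at this
    rw [show 72 * π = 3 * (2 * π * (12 • (1 : ℝ)) - (2 * ((12 : ℕ) : ℝ) - 4) * 0) by
      rw [nsmul_eq_mul]; push_cast; ring, ← this]
    refine Finset.sum_congr rfl fun d _ => ?_
    simp only [Tri.tau, Tri.A, sm]
    rw [t.x_symm d.1 d.2.2, t.x_symm d.2.1 d.1, t.x_symm d.2.2 d.2.1]
    ring
  have eq := (Finset.sum_eq_sum_iff_of_le fun d m => (o d m).1).1 (by
    rw [S, Finset.sum_add_distrib, ← Finset.mul_sum, ← Finset.mul_sum, Finset.sum_sub_distrib, E3,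
      Finset.sum_const, nsmul_eq_mul, hN]
    ring)
  refine ⟨fun a b c m => (o _ m).2 (eq _ m), ?_⟩
  obtain ⟨⟨a, b, c⟩, m, nz⟩ := Finset.exists_ne_zero_of_sum_ne_zero (E3.trans_ne (by norm_num))
  refine ⟨a, b, c, m, ?_⟩
  simp only at nz
  unfold sh at nz
  split_ifs at nz with q1 q2 q3
  · exact ⟨q1, q3, q2⟩
  all_goals simp at nz

end Pool.Agent.Lib.MP_f3b2fd_co.KU
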