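import Pool.Agent.Lib.MP_f3b2fd_co.KEP.U.St

/-! The upper bound with an explicit range and the case of equality. -/

set_option autoImplicit false

namespace Pool.Agent.Lib.MP_f3b2fd_co.KU

open MeasureTheory Set Real Metric KEP Filter Topology
open scoped ENNReal

namespace Up

/-- the defect of a centre `v` with near neighbours `N`. -/
noncomputable def df (f : ℝ → ℝ) (κ l : ℝ) (v : E3) (N : Finset E3) : ℝ :=
  κ * (12 - ∑ w ∈ N, f (dist v w / 2)) - 12 * capV (1 + l) 1 +
    ∑ w ∈ N, capV (1 + l) (dist v w / 2)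

/-- the near neighbours. -/
noncomputable def nbh (hs : ℝ) (V : Finset E3) (v : E3) : Finset E3 :=
  (V.erase v).filter fun w => dist v w ≤ 2 * hs

theorem df_pos {f : ℝ → ℝ} {hs δ κ l : ℝ} (hB : StB f hs δ)
    (hsl : ∀ h, 1 ≤ h → h ≤ hs → 2 * (h - 1) ≤ 1 - f h) (h0 : 0 < l) (h1 : l < 1 / 1000)
    (hκ : 1 / 10 ≤ κ) (hδ : 1 / 1024 ≤ δ) {V : Finset E3} (hV : KA.Pack V) {v : E3}
    (hv : v ∈ V) : 0 ≤ df f κ l v (nbh hs V v) ∧ (df f κ l v (nbh hs V v) ≤ 0 →
      (nbh hs V v).card = 12 ∧ ∀ w ∈ nbh hs V v, dist v w = 2) := by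
  set N := nbh hs V v with hN
  have m : ∀ w ∈ N, w ∈ V ∧ 2 ≤ dist v w ∧ dist v w ≤ 2 * hs := fun w hw => by
    obtain ⟨a, b⟩ := Finset.mem_filter.1 hw
    exact ⟨Finset.mem_of_mem_erase a,
      hV v hv w (Finset.mem_of_mem_erase a) (Finset.ne_of_mem_erase a).symm, b⟩
  have c0 : ∀ w ∈ N, 0 ≤ capV (1 + l) (dist v w / 2) := fun w _ =>
    capV_nonneg (by linarith) (by positivity)
  have l2 : l ^ 2 ≤ 1 / 1000000 := by nlinarith
  have c1 : capV (1 + l) 1 ≤ 5 / 1000000 := by
    rw [cap_one h0]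
    have a1 : π * l ^ 2 ≤ 4 / 1000000 := by nlinarith [pi_lt_four, pi_pos, sq_nonneg l]
    have a2 : 0 ≤ π * l ^ 2 := by positivity
    nlinarith
  have hκ0 : 0 ≤ κ := by linarith
  by_cases hk : 13 ≤ N.card
  · have inj : InjOn (fun w => w - v) N := fun _ _ _ _ h => sub_left_injective h
    have := hB (N.image fun w => w - v) (fun u hu => by
      obtain ⟨w, hw, rfl⟩ := Finset.mem_image.1 hu
      rw [← dist_eq_norm, dist_comm]
      exact (m w hw).2) (fun u hu u' hu' hne => by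
      obtain ⟨w, hw, rfl⟩ := Finset.mem_image.1 hu
      obtain ⟨w', hw', rfl⟩ := Finset.mem_image.1 hu'
      rw [sub_sub_sub_cancel_right, ← dist_eq_norm]
      exact hV w (m w hw).1 w' (m w' hw').1 fun h => hne (by rw [h]))
      (by rwa [Finset.card_image_of_injOn inj])
    rw [Finset.sum_image inj] at this
    simp only [← dist_eq_norm, dist_comm _ v] at this
    have a1 := mul_le_mul_of_nonneg_left this hκ0
    have a2 : 1 / 10 * (1 / 1024) ≤ κ * δ := mul_le_mul hκ hδ (by norm_num) hκ0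
    have a3 := Finset.sum_nonneg c0
    have : 0 < df f κ l v N := by
      unfold df
      linarith
    exact ⟨this.le, fun h => absurd h (not_le.2 this)⟩
  · have k12 : (N.card : ℝ) ≤ 12 := by exact_mod_cast (by omega : N.card ≤ 12)
    have p : ∑ w ∈ N, (dist v w - 2) / 20 ≤ ∑ w ∈ N, (κ * (1 - f (dist v w / 2)) -
        (capV (1 + l) 1 - capV (1 + l) (dist v w / 2))) := Finset.sum_le_sum fun w hw => by
      obtain ⟨-, a, b⟩ := m w hw
      have d1 := (cap_diff (h := dist v w / 2) h0 (by linarith)).2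
      have d2 := mul_le_mul_of_nonneg_left (hsl (dist v w / 2) (by linarith) (by linarith)) hκ0
      have d3 : π * (2 * l + l ^ 2) ≤ 1 / 10 := by nlinarith [pi_lt_four, pi_pos]
      have d4 := mul_le_mul_of_nonneg_right d3 (show 0 ≤ dist v w / 2 - 1 by linarith)
      have d5 := mul_le_mul_of_nonneg_right hκ (show 0 ≤ dist v w / 2 - 1 by linarith)
      linarith
    rw [Finset.sum_sub_distrib, Finset.sum_sub_distrib, ← Finset.mul_sum, Finset.sum_sub_distrib,
      Finset.sum_const, Finset.sum_const, nsmul_eq_mul, nsmul_eq_mul] at p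
    have q0 : ∀ w ∈ N, 0 ≤ (dist v w - 2) / 20 := fun w hw => by linarith [(m w hw).2.1]
    have q1 := Finset.sum_nonneg q0
    have q2 := mul_le_mul_of_nonneg_left (show 1 / 20 ≤ κ - capV (1 + l) 1 by linarith)
      (sub_nonneg.2 k12)
    have q3 : ∑ w ∈ N, (dist v w - 2) / 20 + (12 - N.card) / 20 ≤ df f κ l v N := by
      unfold df
      linarith
    refine ⟨by linarith, fun h => ⟨?_, fun w hw => ?_⟩⟩
    · have : (N.card : ℝ) = 12 := by linarith
      exact_mod_cast this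
    · have := Finset.single_le_sum q0 hw
      linarith [(m w hw).2.1]

theorem loc {f : ℝ → ℝ} {hs κ l : ℝ} (hz : ∀ h, hs < h → f h = 0) (h0 : 0 < l)
    (h1 : l < 1 / 1000) {V : Finset E3} (hV : KA.Pack V) {v : E3} (hv : v ∈ V) :
    volume.real (KC.vor V (1 + l) v) + df f κ l v (nbh hs V v) ≤
      Wv l + κ * (12 - ∑ w ∈ V.erase v, f (dist v w / 2)) := by
  have hF : ∑ w ∈ V.erase v, f (dist v w / 2) = ∑ w ∈ nbh hs V v, f (dist v w / 2) :=
    (Finset.sum_subset (Finset.filter_subset _ _) fun w hw hw' => hz _ (by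
      have : ¬ dist v w ≤ 2 * hs := fun h => hw' (Finset.mem_filter.2 ⟨hw, h⟩)
      linarith [not_le.1 this])).symm
  have hc := KC.caps (N := nbh hs V v) hV hv (Finset.filter_subset _ _) (r := 1 + l)
    (by linarith) (by nlinarith)
  have c0 : ∀ w ∈ nbh hs V v, 0 ≤ capV (1 + l) (dist v w / 2) := fun w _ =>
    capV_nonneg (by linarith) (by positivity)
  rw [← ENNReal.ofReal_sum_of_nonneg c0] at hc
  have t : volume (KC.vor V (1 + l) v) ≠ ⊤ :=
    ne_top_of_le_ne_top ENNReal.ofReal_ne_top (le_self_add.trans hc)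
  have hc' := ENNReal.toReal_mono ENNReal.ofReal_ne_top hc
  rw [ENNReal.toReal_add t ENNReal.ofReal_ne_top, ENNReal.toReal_ofReal (Finset.sum_nonneg c0),
    ENNReal.toReal_ofReal (by positivity)] at hc'
  rw [hF, Wv_eq h0, df, measureReal_def]
  linarith

theorem bv (x : E3) {r : ℝ} (hr : 0 ≤ r) : volume.real (ball x r) = r ^ 3 * (π * 4 / 3) := by
  rw [measureReal_def, EuclideanSpace.volume_ball_fin_three, ENNReal.toReal_mul,
    ENNReal.toReal_pow, ENNReal.toReal_ofReal hr, ENNReal.toReal_ofReal (by positivity)]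

theorem pack {X : Set E3} (hX : X.PairwiseDisjoint fun x => ball x 1) (ρ : ℝ) :
    KA.Pack (KC.fin hX ρ).toFinset := fun v hv w hw h => by
  rw [Finite.mem_toFinset] at hv hw
  have := (disjoint_ball_ball_iff one_pos one_pos).1 (hX hv.1 hw.1 h)
  linarith

theorem key {a b hs l : ℝ} {f : ℝ → ℝ} (hab : 8 * a - 96 * b = √32)
    (hA : ∀ V : Finset E3, KA.Pack V →
      8 * a * V.card - 8 * b * ∑ v ∈ V, ∑ w ∈ V.erase v, f (dist v w / 2) ≤
        (volume (⋃ v ∈ V, ball v √2)).toReal)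
    (hz : ∀ h, hs < h → f h = 0) (h0 : 0 < l) (h1 : l < 1 / 1000) {X : Set E3}
    (hX : X.PairwiseDisjoint fun x => ball x 1) {c R : ℝ} (hc : 2 ≤ c) (hR : 0 < R) :
    volume.real (ball 0 R ∩ ⋃ x ∈ X, closedBall x (1 + l)) +
      ∑ v ∈ (KC.fin hX (R + c)).toFinset,
        df f (8 * b * (Wv l / √32)) l v (nbh hs (KC.fin hX (R + c)).toFinset v) ≤
      Wv l / √32 * ((R + (c + 2)) ^ 3 * (π * 4 / 3)) := by
  have hP := pack hX (R + c)
  set V := (KC.fin hX (R + c)).toFinset with hV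
  have q0 : (0 : ℝ) < √32 := by positivity
  have W0 : 0 < Wv l := Wv_pos h0 (by linarith)
  have m : ∀ v, v ∈ V ↔ v ∈ X ∧ v ∈ ball (0 : E3) (R + c) := fun v => by
    rw [hV, Finite.mem_toFinset, mem_inter_iff]
  have s1 : ball 0 R ∩ ⋃ x ∈ X, closedBall x (1 + l) ⊆ ⋃ v ∈ V, KC.vor V (1 + l) v := by
    rintro y ⟨y1, y2⟩
    obtain ⟨x, hx, y3⟩ := mem_iUnion₂.1 y2
    have hxV : x ∈ V := (m x).2 ⟨hx, by
      have := dist_triangle_left x 0 y
      rw [mem_ball] at y1 ⊢
      linarith [mem_closedBall.1 y3]⟩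
    obtain ⟨v, hv, hm⟩ := V.exists_min_image (fun v => ‖y - v‖) ⟨x, hxV⟩
    exact mem_iUnion₂.2 ⟨v, hv, (hm x hxV).trans (mem_closedBall_iff_norm.1 y3), hm⟩
  have s2 : (⋃ v ∈ V, ball v √2) ⊆ ball (0 : E3) (R + (c + 2)) :=
    iUnion₂_subset fun v hv y hy => by
      have := dist_triangle y v 0
      have q : √2 ≤ 2 := Real.sqrt_le_iff.2 ⟨by norm_num, by norm_num⟩
      rw [mem_ball] at hy ⊢
      linarith [mem_ball.1 ((m v).1 hv).2]
  have s3 : (⋃ v ∈ V, KC.vor V (1 + l) v) ⊆ ball (0 : E3) (R + (c + 2)) :=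
    iUnion₂_subset fun v hv y hy => by
      have := dist_triangle y v 0
      have t := hy.1
      rw [← dist_eq_norm] at t
      rw [mem_ball]
      linarith [mem_ball.1 ((m v).1 hv).2]
  have a1 := (measureReal_mono s1 (ne_top_of_le_ne_top measure_ball_lt_top.ne
    (measure_mono (μ := volume) s3))).trans (measureReal_biUnion_finset_le _ _)
  have a2 := Finset.sum_le_sum fun v (hv : v ∈ V) =>
    loc (κ := 8 * b * (Wv l / √32)) hz h0 h1 hP hv
  have a3 := (hA V hP).trans (measureReal_mono s2 measure_ball_lt_top.ne)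
  rw [bv _ (by linarith)] at a3
  have a4 := mul_le_mul_of_nonneg_left a3 (div_pos W0 q0).le
  rw [Finset.sum_add_distrib] at a2
  refine (add_le_add a1 le_rfl).trans (a2.trans (le_trans (le_of_eq ?_) a4))
  rw [Finset.sum_add_distrib, ← Finset.mul_sum, Finset.sum_sub_distrib, Finset.sum_const,
    Finset.sum_const, nsmul_eq_mul, nsmul_eq_mul, show 8 * a = √32 + 96 * b by linarith]
  field_simp
  ring

theorem rt (c : ℝ) : Tendsto (fun R : ℝ => ((R + c) / R) ^ 3) atTop (𝓝 1) := by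
  have h2 : Tendsto (fun R : ℝ => 1 + c / R) atTop (𝓝 (1 + 0)) :=
    tendsto_const_nhds.add (tendsto_const_nhds.div_atTop tendsto_id)
  rw [add_zero] at h2
  have h1 : Tendsto (fun R : ℝ => (R + c) / R) atTop (𝓝 1) := by
    refine h2.congr' ?_
    filter_upwards [eventually_gt_atTop 0] with R hR
    field_simp
  simpa using h1.pow 3

theorem lim {X : Set E3} {l W ε c d : ℝ}
    (h : ∀ R, 0 < R → d ≤ R → volume.real (ball 0 R ∩ ⋃ x ∈ X, closedBall x (1 + l)) +
      ε * ((R + -d) ^ 3 * (π * 4 / 3)) ≤ W * ((R + c) ^ 3 * (π * 4 / 3))) :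
    KC.sd X l ≤ ENNReal.ofReal (W - ε) := by
  have t := ((rt c).const_mul W).sub ((rt (-d)).const_mul ε)
  rw [mul_one, mul_one] at t
  have t' := (ENNReal.continuous_ofReal.tendsto _).comp t
  refine le_trans (limsup_le_limsup ?_) t'.limsup_eq.le
  filter_upwards [eventually_gt_atTop 0, eventually_ge_atTop d] with R hR hd
  refine ENNReal.div_le_of_le_mul ?_
  have f1 : volume (ball 0 R ∩ ⋃ x ∈ X, closedBall x (1 + l)) ≠ ⊤ :=
    ne_top_of_le_ne_top measure_ball_lt_top.ne (measure_mono inter_subset_left)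
  rw [← ENNReal.ofReal_toReal f1, ← ENNReal.ofReal_toReal (measure_ball_lt_top (μ := volume)
    (x := (0 : E3)) (r := R)).ne, Function.comp_apply,
    ← ENNReal.ofReal_mul' ENNReal.toReal_nonneg, ← measureReal_def, ← measureReal_def, bv _ hR.le]
  refine ENNReal.ofReal_le_ofReal ((le_sub_iff_add_le.2 (h R hR hd)).trans (le_of_eq ?_))
  field_simp

theorem mem_nbh {X : Set E3} (hX : X.PairwiseDisjoint fun x => ball x 1) {hs ρ : ℝ} {v : E3}
    (hv : ‖v‖ + 2 * hs < ρ) (w : E3) :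
    w ∈ nbh hs (KC.fin hX ρ).toFinset v ↔ w ∈ X ∧ w ≠ v ∧ dist v w ≤ 2 * hs := by
  rw [nbh, Finset.mem_filter, Finset.mem_erase, Finite.mem_toFinset, mem_inter_iff]
  refine ⟨fun h => ⟨h.1.2.1, h.1.1, h.2⟩, fun h => ⟨⟨h.2.1, h.1, ?_⟩, h.2.2⟩⟩
  have := dist_triangle_left w 0 v
  rw [dist_zero_right v] at this
  rw [mem_ball]
  linarith [h.2.2]

theorem df_add (f : ℝ → ℝ) (κ l : ℝ) (v g : E3) (N : Finset E3) :
    df f κ l (v + g) (N.image fun w => w + g) = df f κ l v N := by
  have inj : InjOn (fun w => w + g) N := (add_left_injective g).injOn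
  unfold df
  rw [Finset.sum_image inj, Finset.sum_image inj]
  simp only [dist_add_right]

theorem lat {X : Set E3} (hP : Per X) : ∃ d > 0, ∀ y : E3, ∃ g : E3, ‖y - g‖ < d ∧
    ∀ x, x + g ∈ X ↔ x ∈ X := by
  obtain ⟨b, hb, hX⟩ := hP
  set c := basisOfLinearIndependentOfCardEqFinrank hb (by simp) with hc
  have cv : ∀ i, c i = b i := fun i => by rw [hc, coe_basisOfLinearIndependentOfCardEqFinrank]
  obtain ⟨r, hr⟩ := isBounded_iff_forall_norm_le.1 (ZSpan.fundamentalDomain_isBounded c)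
  let H : AddSubgroup E3 :=
    { carrier := {g | ∀ x, x + g ∈ X ↔ x ∈ X}
      add_mem' := fun {g h} hg hh x => by rw [← add_assoc, hh, hg]
      zero_mem' := fun x => by rw [add_zero]
      neg_mem' := fun {g} hg x => by rw [← hg (x + -g), neg_add_cancel_right] }
  have hH : Submodule.span ℤ (range c) ≤ H.toIntSubmodule := by
    rw [Submodule.span_le]
    rintro _ ⟨i, rfl⟩
    rw [cv]
    exact hX i
  refine ⟨|r| + 1, by positivity, fun y => ⟨ZSpan.floor c y, ?_, hH (ZSpan.floor c y).2⟩⟩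
  have := hr _ (ZSpan.fract_mem_fundamentalDomain c y)
  rw [ZSpan.fract_apply] at this
  linarith [le_abs_self r]

end Up

open Up in
theorem upS : UpS := by
  intro a b hs δ f hab hb hδ hs1 hA hB hz hsl l h0 h1 X hX
  have q0 : (0 : ℝ) < √32 := by positivity
  have q1 : √32 ≤ 6 := Real.sqrt_le_iff.2 ⟨by norm_num, by norm_num⟩
  have hW : 4 ≤ Wv l := by
    have : 1 ≤ 1 + 3 * l - 6 * l ^ 2 - 5 * l ^ 3 := by nlinarith [mul_pos h0 h0]
    rw [Wv]
    nlinarith [pi_gt_three]
  have W0 : 0 < Wv l / √32 := div_pos (by linarith) q0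
  have k0 : 1 / 10 ≤ 8 * b * (Wv l / √32) := by
    have : 2 / 3 ≤ Wv l / √32 := by
      rw [div_le_div_iff₀ (by norm_num) q0]
      linarith
    nlinarith
  have K := fun R (hR : 0 < R) => key hab hA hz h0 h1 hX (c := 2 + 2 * hs) (by linarith) hR
  have D := fun ρ v hv => df_pos hB hsl h0 h1 k0 hδ (pack hX ρ) (v := v) hv
  refine ⟨?_, fun hP e => ⟨?_, fun v hv => ?_⟩⟩
  · rw [← sub_zero (Wv l / √32)]
    refine lim (d := 0) (c := 2 + 2 * hs + 2) fun R hR _ => le_trans ?_ (K R hR)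
    rw [zero_mul]
    exact add_le_add le_rfl (Finset.sum_nonneg fun v hv => (D _ v hv).1)
  · rw [nonempty_iff_ne_empty]
    rintro rfl
    have z : KC.sd ∅ l = 0 := by simp [KC.sd]
    rw [z, eq_comm, ENNReal.ofReal_eq_zero] at e
    linarith
  · have r0 : ‖v‖ + 2 * hs < ‖v‖ + 2 * hs + 1 := by linarith
    have hv0 : v ∈ (KC.fin hX (‖v‖ + 2 * hs + 1)).toFinset := by
      rw [Finite.mem_toFinset]
      exact ⟨hv, mem_ball_zero_iff.2 (by linarith)⟩
    set N := nbh hs (KC.fin hX (‖v‖ + 2 * hs + 1)).toFinset v with hN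
    have mN := mem_nbh hX r0
    rw [← hN] at mN
    suffices t : df f (8 * b * (Wv l / √32)) l v N ≤ 0 by
      obtain ⟨t1, t2⟩ := (D _ v hv0).2 t
      refine ⟨N, t1, fun w hw => ⟨((mN w).1 hw).1, t2 w hw⟩, fun w hw hne => ?_⟩
      exact (le_or_gt (dist v w) (2 * hs)).imp_left fun h => (mN w).2 ⟨hw, hne, h⟩
    by_contra hcon
    rw [not_le] at hcon
    set ε := df f (8 * b * (Wv l / √32)) l v N with hε
    obtain ⟨d, d0, hd⟩ := lat hP
    have ω0 : 0 < d ^ 3 * (π * 4 / 3) := by positivity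
    have t : KC.sd X l ≤ ENNReal.ofReal (Wv l / √32 - ε / (d ^ 3 * (π * 4 / 3))) := by
      refine lim (d := d) (c := 2 + 2 * hs + 2) fun R hR hdR => le_trans ?_ (K R hR)
      refine add_le_add le_rfl ?_
      classical
      set V := (KC.fin hX (R + (2 + 2 * hs))).toFinset with hV
      set L := V.filter fun u => ‖u‖ < R ∧ ∀ x, x + (u - v) ∈ X ↔ x ∈ X with hL
      have s : ball (0 : E3) (R + -d) ⊆ ⋃ u ∈ L, ball u d := fun y hy => by
        obtain ⟨g, g1, g2⟩ := hd (y - v)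
        rw [sub_sub] at g1
        have n : ‖v + g‖ < R := by
          have := norm_sub_le y (y - (v + g))
          rw [sub_sub_cancel] at this
          linarith [mem_ball_zero_iff.1 hy]
        refine mem_iUnion₂.2 ⟨v + g, Finset.mem_filter.2 ⟨?_, n, ?_⟩, mem_ball_iff_norm.2 g1⟩
        · rw [hV, Finite.mem_toFinset]
          exact ⟨(g2 v).2 hv, mem_ball_zero_iff.2 (by linarith)⟩
        · rw [add_sub_cancel_left]
          exact g2
      have a1 := (measureReal_mono (μ := volume) s ((measure_biUnion_finset_le _ _).trans_lt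
        (ENNReal.sum_lt_top.2 fun _ _ => measure_ball_lt_top)).ne).trans
        (measureReal_biUnion_finset_le _ _)
      rw [bv _ (by linarith), Finset.sum_congr rfl fun u _ => bv u d0.le, Finset.sum_const,
        nsmul_eq_mul] at a1
      have a2 : ∀ u ∈ L, df f (8 * b * (Wv l / √32)) l u (nbh hs V u) = ε := fun u hu => by
        obtain ⟨-, u1, u2⟩ := Finset.mem_filter.1 hu
        have e1 : nbh hs V u = N.image fun w => w + (u - v) := by
          ext w
          rw [hV, mem_nbh hX (by linarith), Finset.mem_image]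
          constructor
          · rintro ⟨w1, w2, w3⟩
            refine ⟨w - (u - v), (mN _).2 ⟨?_, fun h => w2 ?_, ?_⟩, sub_add_cancel _ _⟩
            · rwa [← u2, sub_add_cancel]
            · rw [eq_add_of_sub_eq h, add_sub_cancel]
            · rwa [← dist_add_right _ _ (u - v), sub_add_cancel, add_sub_cancel]
          · rintro ⟨w, hw, rfl⟩
            obtain ⟨w1, w2, w3⟩ := (mN _).1 hw
            refine ⟨(u2 w).2 w1, fun h => w2 ?_, ?_⟩
            · rw [eq_sub_of_add_eq h, sub_sub_cancel]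
            · rwa [← dist_add_right _ _ (u - v), add_sub_cancel] at w3
        rw [e1, hε, ← df_add f _ l v (u - v) N, add_sub_cancel]
      have a3 := Finset.sum_le_sum_of_subset_of_nonneg (s := L) (Finset.filter_subset _ V)
        (f := fun u => df f (8 * b * (Wv l / √32)) l u (nbh hs V u)) fun u hu _ => (D _ u hu).1
      rw [Finset.sum_congr rfl a2, Finset.sum_const, nsmul_eq_mul] at a3
      refine le_trans ?_ a3
      rw [div_mul_eq_mul_div, div_le_iff₀ ω0]
      nlinarith [mul_le_mul_of_nonneg_left a1 hcon.le]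
    rw [e, ENNReal.ofReal_le_ofReal_iff'] at t
    rcases t with t | t
    · linarith [div_pos hcon ω0]
    · linarith

end Pool.Agent.Lib.MP_f3b2fd_co.KU
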